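import Pool.Agent.Work.MP_c20ce7_st.Interface

/-!
# Block BRK: brackets of the vector fields of block matrices
-/

set_option autoImplicit false
set_option linter.unusedSectionVars false

open MvPolynomial Pool.Agent.MPc20ce7

noncomputable section

namespace Pool.ABV

section Lin

variable {σ : Type} [Fintype σ] [DecidableEq σ] {L : Type} [AddCommGroup L] [Module ℂ L]

/-- The linear vector field of a matrix. -/
def BRK_X (D : DM.WMod σ L) (S : Matrix σ σ ℂ) : Module.End ℂ L :=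
  ∑ p : σ × σ, S p.1 p.2 • (D.x (X p.2) * D.d (X p.1))

/-- The symmetric part of a product. -/
def BRK_sym (D : DM.WMod σ L) (S T : Matrix σ σ ℂ) : Module.End ℂ L :=
  ∑ p : σ × σ, ∑ q : σ × σ, (S p.1 p.2 * T q.1 q.2) •
    (D.x (X p.2) * D.x (X q.2) * (D.d (X p.1) * D.d (X q.1)))

theorem BRK_sym_comm (D : DM.WMod σ L) (S T : Matrix σ σ ℂ) : BRK_sym D S T = BRK_sym D T S := by
  unfold BRK_sym
  rw [Finset.sum_comm]
  refine Finset.sum_congr rfl fun q _ => Finset.sum_congr rfl fun p _ => ?_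
  have h1 : D.x (X p.2) * D.x (X q.2) = D.x (X q.2) * D.x (X p.2) := by
    rw [← map_mul, ← map_mul, mul_comm]
  have h2 : D.d (X p.1) * D.d (X q.1) = D.d (X q.1) * D.d (X p.1) := by
    rw [← map_mul, ← map_mul, mul_comm]
  rw [h1, h2, mul_comm (S p.1 p.2)]

theorem BRK_one (D : DM.WMod σ L) (i j k l : σ) :
    (D.x (X j) * D.d (X i)) * (D.x (X l) * D.d (X k)) =
      D.x (X j) * D.x (X l) * (D.d (X i) * D.d (X k)) +
        if i = l then D.x (X j) * D.d (X k) else 0 := by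
  have hc := D.comm i l
  rw [sub_eq_iff_eq_add] at hc
  have h : (D.x (X j) * D.d (X i)) * (D.x (X l) * D.d (X k)) =
      D.x (X j) * (D.d (X i) * D.x (X l)) * D.d (X k) := by noncomm_ring
  rw [h, hc]
  split_ifs with hil
  · noncomm_ring
  · noncomm_ring

theorem BRK_mul (D : DM.WMod σ L) (S T : Matrix σ σ ℂ) :
    BRK_X D S * BRK_X D T = BRK_sym D S T + BRK_X D (T * S) := by
  have h1 : BRK_X D S * BRK_X D T = BRK_sym D S T + ∑ p : σ × σ, ∑ q : σ × σ,
      (S p.1 p.2 * T q.1 q.2) • (if p.1 = q.2 then D.x (X p.2) * D.d (X q.1) else 0) := by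
    unfold BRK_X BRK_sym
    rw [Finset.sum_mul_sum, ← Finset.sum_add_distrib]
    refine Finset.sum_congr rfl fun p _ => ?_
    rw [← Finset.sum_add_distrib]
    refine Finset.sum_congr rfl fun q _ => ?_
    rw [smul_mul_smul_comm, BRK_one, smul_add]
  rw [h1]
  congr 1
  unfold BRK_X
  rw [Fintype.sum_prod_type, Fintype.sum_prod_type]
  have h2 : ∀ i j : σ, (T * S) i j • (D.x (X j) * D.d (X i)) =
      ∑ u, (S u j * T i u) • (D.x (X j) * D.d (X i)) := by
    intro i j
    rw [Matrix.mul_apply, Finset.sum_smul]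
    exact Finset.sum_congr rfl fun u _ => by rw [mul_comm]
  have h3 : ∀ u j : σ, ∑ q : σ × σ, (S u j * T q.1 q.2) •
      (if u = q.2 then D.x (X j) * D.d (X q.1) else 0) =
      ∑ i, (S u j * T i u) • (D.x (X j) * D.d (X i)) := by
    intro u j
    rw [Fintype.sum_prod_type]
    refine Finset.sum_congr rfl fun i _ => ?_
    simp only [smul_ite, smul_zero, Finset.sum_ite_eq, Finset.mem_univ, if_true]
  simp only [h2, h3]
  rw [Finset.sum_comm]
  rw [Finset.sum_comm (s := (Finset.univ : Finset σ)) (t := (Finset.univ : Finset σ))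
    (f := fun i j => ∑ u, (S u j * T i u) • (D.x (X j) * D.d (X i)))]
  refine Finset.sum_congr rfl fun j _ => ?_
  rw [Finset.sum_comm]

theorem BRK_comm (D : DM.WMod σ L) (S T : Matrix σ σ ℂ) :
    BRK_X D S * BRK_X D T - BRK_X D T * BRK_X D S = BRK_X D (T * S - S * T) := by
  rw [BRK_mul, BRK_mul, BRK_sym_comm D S T]
  have h : BRK_X D (T * S - S * T) = BRK_X D (T * S) - BRK_X D (S * T) := by
    unfold BRK_X
    rw [← Finset.sum_sub_distrib]
    exact Finset.sum_congr rfl fun p _ => by rw [Matrix.sub_apply, sub_smul]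
  rw [h]
  abel

theorem BRK_neg (D : DM.WMod σ L) (S : Matrix σ σ ℂ) : BRK_X D (-S) = - BRK_X D S := by
  unfold BRK_X
  rw [← Finset.sum_neg_distrib]
  exact Finset.sum_congr rfl fun p _ => by rw [Matrix.neg_apply, neg_smul]

end Lin

section Adj

variable {ι : Type} [Fintype ι] [DecidableEq ι] {e : ι → ℝ} {L : Type} [AddCommGroup L] [Module ℂ L]

theorem BRK_sumCo {M : Type} [AddCommMonoid M] (F : ι × ι → M)
    (h : ∀ p : ι × ι, e p.1 ≠ e p.2 + 1 → F p = 0) : ∑ c : DM.Co e, F c.1 = ∑ p, F p := by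
  classical
  rw [← Finset.sum_subtype (Finset.univ.filter fun p : ι × ι => e p.1 = e p.2 + 1) (by simp) F]
  exact Finset.sum_filter_of_ne (fun p _ hp => by by_contra h'; exact hp (h p h'))

/-- The entries of the matrix of `x ↦ [a, x]`. -/
def BRK_f (a : Matrix ι ι ℂ) (p q : ι × ι) : ℂ :=
  (if p.2 = q.2 then a p.1 q.1 else 0) - (if p.1 = q.1 then a q.2 p.2 else 0)

/-- The matrix of `x ↦ [a, x]` on `V_λ`. -/
def BRK_adm (e : ι → ℝ) (a : Matrix ι ι ℂ) : Matrix (DM.Co e) (DM.Co e) ℂ := fun d c => BRK_f a d.1 c.1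

theorem BRK_sumf {M : Type} [AddCommGroup M] [Module ℂ M] (a : Matrix ι ι ℂ) (p : ι × ι)
    (F : ι × ι → M) : ∑ q, BRK_f a p q • F q =
      ∑ u, a p.1 u • F (u, p.2) - ∑ u, a u p.2 • F (p.1, u) := by
  unfold BRK_f
  simp only [sub_smul, Finset.sum_sub_distrib]
  congr 1
  · rw [Fintype.sum_prod_type]
    refine Finset.sum_congr rfl fun u _ => ?_
    simp only [ite_smul, zero_smul, Finset.sum_ite_eq, Finset.mem_univ, if_true]
  · rw [Fintype.sum_prod_type, Finset.sum_comm]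
    refine Finset.sum_congr rfl fun u _ => ?_
    simp only [ite_smul, zero_smul, Finset.sum_ite_eq, Finset.mem_univ, if_true]

theorem BRK_fld (D : DM.WMod (DM.Co e) L) (a : Matrix ι ι ℂ) : fld D a = BRK_X D (BRK_adm e a) := by
  have hx : ∀ c : DM.Co e, D.x (X c) = D.xo c.1.1 c.1.2 := by
    intro c
    unfold DM.WMod.xo
    rw [dif_pos c.2]
  have hd : ∀ c : DM.Co e, D.d (X c) = D.dO c.1.1 c.1.2 := by
    intro c
    unfold DM.WMod.dO
    rw [dif_pos c.2]
  have hx0 : ∀ a b : ι, e a ≠ e b + 1 → D.xo a b = 0 := by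
    intro a b h
    unfold DM.WMod.xo
    rw [dif_neg h]
  have hd0 : ∀ a b : ι, e a ≠ e b + 1 → D.dO a b = 0 := by
    intro a b h
    unfold DM.WMod.dO
    rw [dif_neg h]
  have h1 : BRK_X D (BRK_adm e a) = ∑ p : ι × ι, ∑ q : ι × ι,
      BRK_f a p q • (D.xo q.1 q.2 * D.dO p.1 p.2) := by
    unfold BRK_X BRK_adm
    rw [Fintype.sum_prod_type]
    simp only [hx, hd]
    rw [← BRK_sumCo (e := e) (fun p : ι × ι => ∑ q : ι × ι, BRK_f a p q • (D.xo q.1 q.2 * D.dO p.1 p.2))]
    · refine Finset.sum_congr rfl fun d _ => ?_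
      rw [← BRK_sumCo (e := e) (fun q : ι × ι => BRK_f a d.1 q • (D.xo q.1 q.2 * D.dO d.1.1 d.1.2))]
      intro q hq
      rw [hx0 _ _ hq, zero_mul, smul_zero]
    · intro p hp
      refine Finset.sum_eq_zero fun q _ => ?_
      rw [hd0 _ _ hp, mul_zero, smul_zero]
  rw [h1]
  have h2 : ∀ p : ι × ι, ∑ q : ι × ι, BRK_f a p q • (D.xo q.1 q.2 * D.dO p.1 p.2) =
      ∑ u, a p.1 u • (D.xo u p.2 * D.dO p.1 p.2) - ∑ u, a u p.2 • (D.xo p.1 u * D.dO p.1 p.2) := by
    intro p
    exact BRK_sumf a p (fun q => D.xo q.1 q.2 * D.dO p.1 p.2)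
  simp only [h2]
  rw [Finset.sum_sub_distrib]
  unfold fld DM.WMod.G
  simp only [smul_sub, Finset.sum_sub_distrib]
  congr 1
  · rw [Fintype.sum_prod_type]
    refine Finset.sum_congr rfl fun p _ => ?_
    simp only [Finset.smul_sum]
    rw [Finset.sum_comm]
  · rw [Fintype.sum_prod_type, Finset.sum_comm]
    simp only [Finset.smul_sum]
    rw [Finset.sum_comm (s := (Finset.univ : Finset ι)) (t := (Finset.univ : Finset ι))
      (f := fun x y => ∑ i, a i y • (D.xo x i * D.dO x y))]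
    refine Finset.sum_congr rfl fun q _ => ?_
    rw [Finset.sum_comm]

theorem BRK_mat (a : Matrix ι ι ℂ) (ha : IsBlk e a) (v : DM.Co e → ℂ) :
    DM.mat e ((BRK_adm e a).mulVec v) = a * DM.mat e v - DM.mat e v * a := by
  have hm0 : ∀ p q : ι, e p ≠ e q + 1 → DM.mat e v p q = 0 := by
    intro p q h
    unfold DM.mat
    rw [dif_neg h]
  have hm1 : ∀ c : DM.Co e, v c = DM.mat e v c.1.1 c.1.2 := by
    intro c
    unfold DM.mat
    rw [dif_pos c.2]
  ext p r
  rw [Matrix.sub_apply, Matrix.mul_apply, Matrix.mul_apply]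
  by_cases h : e p = e r + 1
  · have h1 : DM.mat e ((BRK_adm e a).mulVec v) p r = (BRK_adm e a).mulVec v ⟨(p, r), h⟩ := by
      unfold DM.mat
      rw [dif_pos h]
    rw [h1]
    have h2 : (BRK_adm e a).mulVec v ⟨(p, r), h⟩ = ∑ c : DM.Co e,
        (fun q : ι × ι => BRK_f a (p, r) q • DM.mat e v q.1 q.2) c.1 := by
      show ∑ c : DM.Co e, BRK_f a (p, r) c.1 * v c = _
      refine Finset.sum_congr rfl fun c _ => ?_
      show BRK_f a (p, r) c.1 * v c = BRK_f a (p, r) c.1 * DM.mat e v c.1.1 c.1.2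
      rw [← hm1 c]
    have h3 : ∑ c : DM.Co e, (fun q : ι × ι => BRK_f a (p, r) q • DM.mat e v q.1 q.2) c.1 =
        ∑ q : ι × ι, BRK_f a (p, r) q • DM.mat e v q.1 q.2 := by
      refine BRK_sumCo (e := e) (fun q : ι × ι => BRK_f a (p, r) q • DM.mat e v q.1 q.2) ?_
      intro q hq
      show BRK_f a (p, r) q • DM.mat e v q.1 q.2 = 0
      rw [hm0 _ _ hq, smul_zero]
    refine (h2.trans h3).trans ?_
    rw [BRK_sumf a (p, r) (fun q => DM.mat e v q.1 q.2)]
    congr 1
    refine Finset.sum_congr rfl fun u _ => ?_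
    rw [smul_eq_mul, mul_comm]
  · have h1 : DM.mat e ((BRK_adm e a).mulVec v) p r = 0 := by
      unfold DM.mat
      rw [dif_neg h]
    rw [h1, Finset.sum_eq_zero, Finset.sum_eq_zero, sub_zero]
    · intro q _
      by_cases hq : a q r = 0
      · rw [hq, mul_zero]
      · rw [hm0, zero_mul]
        rw [ha q r hq]
        exact h
    · intro q _
      by_cases hq : a p q = 0
      · rw [hq, zero_mul]
      · rw [hm0, mul_zero]
        rw [← ha p q hq]
        exact h

theorem BRK_mat_inj (v w : DM.Co e → ℂ) (h : DM.mat e v = DM.mat e w) : v = w := by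
  funext c
  have hc := congrFun (congrFun h c.1.1) c.1.2
  unfold DM.mat at hc
  rw [dif_pos c.2, dif_pos c.2] at hc
  exact hc

theorem BRK_mat_sub (v w : DM.Co e → ℂ) : DM.mat e (v - w) = DM.mat e v - DM.mat e w := by
  ext p q
  rw [Matrix.sub_apply]
  unfold DM.mat
  split_ifs with h
  · rfl
  · rw [sub_zero]

theorem BRK_blk_mul (a b : Matrix ι ι ℂ) (ha : IsBlk e a) (hb : IsBlk e b) : IsBlk e (a * b) := by
  intro i j h
  rw [Matrix.mul_apply] at h
  obtain ⟨k, _, hk⟩ := Finset.exists_ne_zero_of_sum_ne_zero h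
  rw [ha i k (left_ne_zero_of_mul hk), hb k j (right_ne_zero_of_mul hk)]

theorem BRK_blk_sub (a b : Matrix ι ι ℂ) (ha : IsBlk e a) (hb : IsBlk e b) : IsBlk e (a - b) := by
  intro i j h
  rw [Matrix.sub_apply] at h
  by_cases h' : a i j = 0
  · refine hb i j fun h'' => h ?_
    rw [h', h'', sub_zero]
  · exact ha i j h'

theorem BRK_ad (a b : Matrix ι ι ℂ) (ha : IsBlk e a) (hb : IsBlk e b) :
    BRK_adm e a * BRK_adm e b - BRK_adm e b * BRK_adm e a = BRK_adm e (a * b - b * a) := by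
  apply Matrix.toLin'.injective
  refine LinearMap.ext fun v => ?_
  rw [Matrix.toLin'_apply, Matrix.toLin'_apply]
  apply BRK_mat_inj
  rw [Matrix.sub_mulVec, BRK_mat_sub, ← Matrix.mulVec_mulVec, ← Matrix.mulVec_mulVec, BRK_mat a ha,
    BRK_mat b hb, BRK_mat b hb, BRK_mat a ha,
    BRK_mat _ (BRK_blk_sub _ _ (BRK_blk_mul a b ha hb) (BRK_blk_mul b a hb ha))]
  noncomm_ring

end Adj

theorem p_BRK : S_BRK := by
  intro ι _ _ e L _ _ D a b ha hb
  rw [BRK_fld, BRK_fld, BRK_fld, BRK_comm, ← BRK_neg, ← BRK_ad a b ha hb, neg_sub]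

end Pool.ABV
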