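import Pool.Agent.Work.MP_c20ce7_st.Interface

/-!
# The outer layer: block BST

The matrix units are a basis of `V_λ`.
-/

set_option autoImplicit false

open MvPolynomial Pool.Agent.MPc20ce7

noncomputable section

namespace Pool.ABV

theorem BST_mat {ι : Type} [Fintype ι] [DecidableEq ι] (e : ι → ℝ) (v : DM.Co e → ℂ)
    (c : DM.Co e) : DM.mat e v c.1.1 c.1.2 = v c := by
  unfold DM.mat
  exact dif_pos c.2

theorem BST_zero {ι : Type} [Fintype ι] [DecidableEq ι] (e : ι → ℝ) (v : DM.Co e → ℂ)
    (a b : ι) (h : ¬ e a = e b + 1) : DM.mat e v a b = 0 := by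
  unfold DM.mat
  exact dif_neg h

theorem p_BST (h : S_VVE) : S_BST := by
  intro W _ _ N ι _ _ e
  classical
  have hmem : ∀ v : DM.Co e → ℂ, DM.mat e v ∈ VV N (dgm N e) := by
    intro v
    rw [h W N ι e]
    intro i j hij
    by_contra hne
    exact hij (BST_zero e v i j hne)
  have hback : ∀ x ∈ VV N (dgm N e), DM.mat e (fun c => x c.1.1 c.1.2) = x := by
    intro x hx
    ext a b
    by_cases hab : e a = e b + 1
    · exact BST_mat e (fun c => x c.1.1 c.1.2) ⟨(a, b), hab⟩
    · rw [BST_zero e _ a b hab]
      by_contra hne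
      exact hab ((h W N ι e x).1 hx a b (fun h0 => hne h0.symm))
  let E : VV N (dgm N e) ≃ₗ[ℂ] (DM.Co e → ℂ) :=
    { toFun := fun x c => (x : Matrix ι ι ℂ) c.1.1 c.1.2
      map_add' := fun x y => by
        funext c
        rfl
      map_smul' := fun r x => by
        funext c
        rfl
      invFun := fun v => ⟨DM.mat e v, hmem v⟩
      left_inv := fun x => by
        apply Subtype.ext
        exact hback x.1 x.2
      right_inv := fun v => by
        funext c
        exact BST_mat e v c }
  have hcrd : ∀ x ∈ VV N (dgm N e), ∀ c,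
      crd (Module.Basis.ofEquivFun E) x c = x c.1.1 c.1.2 := by
    intro x hx c
    unfold crd
    rw [dif_pos hx, Module.Basis.ofEquivFun_repr_apply]
    rfl
  refine ⟨Module.Basis.ofEquivFun E, ?_, hcrd, ?_⟩
  · intro c
    rw [Module.Basis.coe_ofEquivFun]
    change DM.mat e (Pi.single c 1) = _
    ext a b
    rw [Matrix.single_apply]
    by_cases hab : e a = e b + 1
    · have h1 := BST_mat e (Pi.single c (1 : ℂ)) ⟨(a, b), hab⟩
      change DM.mat e (Pi.single c 1) a b = _ at h1
      rw [h1, Pi.single_apply]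
      by_cases hc : (⟨(a, b), hab⟩ : DM.Co e) = c
      · rw [if_pos hc, if_pos]
        rw [← hc]
        exact ⟨rfl, rfl⟩
      · rw [if_neg hc, if_neg]
        rintro ⟨h2, h3⟩
        apply hc
        apply Subtype.ext
        exact Prod.ext h2.symm h3.symm
    · rw [BST_zero e _ a b hab, if_neg]
      rintro ⟨h2, h3⟩
      apply hab
      rw [← h2, ← h3]
      exact c.2
  · intro x hx
    have h1 : crd (Module.Basis.ofEquivFun E) x = fun c => x c.1.1 c.1.2 := by
      funext c
      exact hcrd x hx c
    rw [h1]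
    exact hback x hx

end Pool.ABV
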