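import Pool.Agent.Work.MP_c20ce7_st.Interface

set_option autoImplicit false

noncomputable section

namespace Pool.ABV

/-- Real powers determine the exponent when the base is positive and different from `1`. -/
theorem CEN_rpow {t a b : ℝ} (ht : 0 < t) (ht1 : t ≠ 1) (h : t ^ a = t ^ b) : a = b := by
  have h1 := congrArg Real.log h
  rw [Real.log_rpow ht, Real.log_rpow ht] at h1
  exact mul_right_cancel₀ (Real.log_ne_zero_of_pos_of_ne_one ht ht1) h1

/-- CEN. -/
theorem p_CEN : S_CEN := by
  intro W _ _ N ι _ _ e a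
  rw [AA, Subalgebra.mem_centralizer_iff]
  constructor
  · intro ha i j hij
    obtain ⟨w, hw⟩ := N.nontriv
    have h1 := congrFun (congrFun (ha (dgm N e w) ⟨w, rfl⟩) i) j
    rw [dgm, Matrix.diagonal_mul, Matrix.mul_diagonal, mul_comm] at h1
    have h2 := mul_left_cancel₀ hij h1
    exact CEN_rpow (N.pos w) hw (by exact_mod_cast h2)
  · rintro ha _ ⟨w, rfl⟩
    ext i j
    rw [dgm, Matrix.diagonal_mul, Matrix.mul_diagonal, mul_comm]
    by_cases hij : a i j = 0
    · rw [hij, zero_mul, zero_mul]
    · rw [ha i j hij]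

end Pool.ABV
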