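import Pool.Agent.Work.MP_c20ce7_st.Interface

/-!
# Block COM: sums of commuting locally nilpotent operators
-/

set_option autoImplicit false

open MvPolynomial Pool.Agent.MPc20ce7

noncomputable section

namespace Pool.ABV

theorem COM_zero {L : Type} [AddCommGroup L] [Module ℂ L] (f : Module.End ℂ L) {n m : ℕ}
    (h : n ≤ m) {u : L} (hu : (f ^ n) u = 0) : (f ^ m) u = 0 := by
  obtain ⟨k, rfl⟩ := Nat.exists_eq_add_of_le h
  rw [add_comm, pow_add, Module.End.mul_apply, hu, map_zero]

theorem COM_smul {L : Type} [AddCommGroup L] [Module ℂ L] (f : Module.End ℂ L) (c : ℂ)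
    (hf : DM.LocNil f) : DM.LocNil (c • f) := by
  intro u
  obtain ⟨n, hn⟩ := hf u
  exact ⟨n, by rw [smul_pow, LinearMap.smul_apply, hn, smul_zero]⟩

theorem COM_add {L : Type} [AddCommGroup L] [Module ℂ L] (f g : Module.End ℂ L)
    (h : f * g = g * f) (hf : DM.LocNil f) (hg : DM.LocNil g) : DM.LocNil (f + g) := by
  intro u
  obtain ⟨n, hn⟩ := hf u
  obtain ⟨m, hm⟩ := hg u
  refine ⟨n + m, ?_⟩
  rw [(show Commute f g from h).add_pow, LinearMap.sum_apply]
  refine Finset.sum_eq_zero fun k hk => ?_
  have hc : (f ^ k * g ^ (n + m - k) * (((n + m).choose k : ℕ) : Module.End ℂ L)) u =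
      ((n + m).choose k) • ((f ^ k * g ^ (n + m - k)) u) := by
    rw [← nsmul_eq_mul', LinearMap.smul_apply]
  rw [hc]
  rcases le_or_gt n k with h1 | h1
  · have h2 : f ^ k * g ^ (n + m - k) = g ^ (n + m - k) * f ^ k :=
      ((show Commute f g from h).pow_pow k (n + m - k)).eq
    rw [h2, Module.End.mul_apply, COM_zero f h1 hn, map_zero, smul_zero]
  · have h2 : m ≤ n + m - k := by omega
    rw [Module.End.mul_apply, COM_zero g h2 hm, map_zero, smul_zero]

theorem p_COM : S_COM := by
  intro L _ _ κ s f c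
  classical
  induction s using Finset.induction_on with
  | empty =>
    intro _ _
    rw [Finset.sum_empty]
    intro u
    exact ⟨1, by rw [pow_one, LinearMap.zero_apply]⟩
  | insert i s hi ih =>
    intro hcomm hnil
    rw [Finset.sum_insert hi]
    refine COM_add _ _ ?_ (COM_smul _ _ (hnil i (Finset.mem_insert_self i s)))
      (ih (fun a ha b hb => hcomm a (Finset.mem_insert_of_mem ha) b (Finset.mem_insert_of_mem hb))
        (fun a ha => hnil a (Finset.mem_insert_of_mem ha)))
    rw [Finset.mul_sum, Finset.sum_mul]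
    refine Finset.sum_congr rfl fun j hj => ?_
    rw [smul_mul_smul_comm, smul_mul_smul_comm,
      hcomm i (Finset.mem_insert_self i s) j (Finset.mem_insert_of_mem hj), mul_comm (c i) (c j)]

end Pool.ABV
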