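import Pool.Agent.Work.MP_c20ce7_st.Interface

/-! # Block DG1 -/

set_option autoImplicit false

open MvPolynomial Pool.Agent.MPc20ce7

noncomputable section

namespace Pool.ABV

variable {L : Type} [AddCommGroup L] [Module ℂ L]

theorem DG1_pow (G N : Module.End ℂ L) (c : ℤ) (h : G * N - N * G = (c : ℂ) • N) (u : L) (n : ℤ)
    (hu : G u = (n : ℂ) • u) (j : ℕ) : G ((N ^ j) u) = ((n : ℂ) + c * j) • (N ^ j) u := by
  induction j with
  | zero => simpa using hu
  | succ j ih =>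
    have h1 : G * N = N * G + (c : ℂ) • N := by rw [← h]; abel
    have h2 : G ((N ^ (j + 1)) u) = (G * N) ((N ^ j) u) := by
      rw [pow_succ']
      rfl
    have h3 : (N ^ (j + 1)) u = N ((N ^ j) u) := by
      rw [pow_succ']
      rfl
    rw [h2, h1, LinearMap.add_apply, Module.End.mul_apply, ih, map_smul, LinearMap.smul_apply, h3,
      ← add_smul]
    congr 1
    push_cast
    ring

/-- the coefficients -/
def DG1_a (c : ℤ) (j : ℕ) : ℂ := (-1 / (c : ℂ)) ^ j / (j.factorial : ℂ)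

theorem DG1_rec (c : ℤ) (hc : c ≠ 0) (j : ℕ) :
    DG1_a c (j + 1) * ((c : ℂ) * ((j + 1 : ℕ) : ℂ)) = - DG1_a c j := by
  have hc' : (c : ℂ) ≠ 0 := by exact_mod_cast hc
  have hj : ((j + 1 : ℕ) : ℂ) ≠ 0 := by exact_mod_cast Nat.succ_ne_zero j
  have hf : (j.factorial : ℂ) ≠ 0 := by exact_mod_cast Nat.factorial_ne_zero j
  unfold DG1_a
  rw [Nat.factorial_succ, Nat.cast_mul, pow_succ]
  field_simp

theorem DG1_eig (G N : Module.End ℂ L) (c : ℤ) (hc : c ≠ 0) (h : G * N - N * G = (c : ℂ) • N)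
    (u : L) (n : ℤ) (hu : G u = (n : ℂ) • u) (k : ℕ) (hk : (N ^ (k + 1)) u = 0) :
    (G + N) (∑ j ∈ Finset.range (k + 1), DG1_a c j • (N ^ j) u) =
      (n : ℂ) • ∑ j ∈ Finset.range (k + 1), DG1_a c j • (N ^ j) u := by
  have h1 : G (∑ j ∈ Finset.range (k + 1), DG1_a c j • (N ^ j) u) =
      (n : ℂ) • ∑ j ∈ Finset.range (k + 1), DG1_a c j • (N ^ j) u +
        ∑ j ∈ Finset.range (k + 1), (DG1_a c j * ((c : ℂ) * (j : ℂ))) • (N ^ j) u := by
    rw [map_sum, Finset.smul_sum, ← Finset.sum_add_distrib]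
    refine Finset.sum_congr rfl fun j _ => ?_
    rw [map_smul, DG1_pow G N c h u n hu j, smul_smul, smul_smul, ← add_smul]
    congr 1
    ring
  have h2 : N (∑ j ∈ Finset.range (k + 1), DG1_a c j • (N ^ j) u) =
      ∑ j ∈ Finset.range (k + 1), DG1_a c j • (N ^ (j + 1)) u := by
    rw [map_sum]
    refine Finset.sum_congr rfl fun j _ => ?_
    rw [map_smul, pow_succ']
    rfl
  have h3 : ∑ j ∈ Finset.range (k + 1), (DG1_a c j * ((c : ℂ) * (j : ℂ))) • (N ^ j) u +
      ∑ j ∈ Finset.range (k + 1), DG1_a c j • (N ^ (j + 1)) u = 0 := by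
    rw [Finset.sum_range_succ' (fun j => (DG1_a c j * ((c : ℂ) * (j : ℂ))) • (N ^ j) u) k,
      Finset.sum_range_succ (fun j => DG1_a c j • (N ^ (j + 1)) u) k, hk, smul_zero, add_zero,
      Nat.cast_zero, mul_zero, mul_zero, zero_smul, add_zero, ← Finset.sum_add_distrib]
    refine Finset.sum_eq_zero fun j _ => ?_
    rw [DG1_rec c hc j, neg_smul, neg_add_cancel]
  rw [LinearMap.add_apply, h1, h2, add_assoc, h3, add_zero]

theorem DG1_mem (G N : Module.End ℂ L) (c : ℤ) (hc : c ≠ 0) (h : G * N - N * G = (c : ℂ) • N)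
    (k : ℕ) : ∀ (n : ℤ) (u : L), G u = (n : ℂ) • u → (N ^ k) u = 0 →
      u ∈ ⨆ m : ℤ, Module.End.eigenspace (G + N) (m : ℂ) := by
  induction k with
  | zero =>
    intro n u _ h0
    have h1 : u = 0 := by simpa using h0
    rw [h1]
    exact Submodule.zero_mem _
  | succ k ih =>
    intro n u hu hk
    have h1 := DG1_eig G N c hc h u n hu k hk
    have h2 : ∑ j ∈ Finset.range (k + 1), DG1_a c j • (N ^ j) u ∈
        ⨆ m : ℤ, Module.End.eigenspace (G + N) (m : ℂ) :=
      (le_iSup (fun m : ℤ => Module.End.eigenspace (G + N) (m : ℂ)) n)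
        (Module.End.mem_eigenspace_iff.2 h1)
    rw [Finset.sum_range_succ' (fun j => DG1_a c j • (N ^ j) u) k] at h2
    have h3 : DG1_a c 0 • (N ^ 0) u = u := by
      simp [DG1_a]
    rw [h3] at h2
    have h4 : ∑ j ∈ Finset.range k, DG1_a c (j + 1) • (N ^ (j + 1)) u ∈
        ⨆ m : ℤ, Module.End.eigenspace (G + N) (m : ℂ) := by
      refine Submodule.sum_mem _ fun j _ => Submodule.smul_mem _ _ ?_
      refine ih (n + c * ((j + 1 : ℕ) : ℤ)) _ ?_ ?_
      · rw [DG1_pow G N c h u n hu (j + 1)]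
        congr 1
        push_cast
        ring
      · have h5 : (N ^ k) ((N ^ (j + 1)) u) = (N ^ j) ((N ^ (k + 1)) u) := by
          rw [← Module.End.mul_apply, ← Module.End.mul_apply, ← pow_add, ← pow_add]
          congr 2
          omega
        rw [h5, hk, map_zero]
    exact (Submodule.add_mem_iff_right _ h4).1 h2

theorem p_DG1 : S_DG1 := by
  intro L _ _ G N c hc hG hN h u
  have h1 : (⨆ n : ℤ, Module.End.eigenspace G (n : ℂ)) ≤
      ⨆ m : ℤ, Module.End.eigenspace (G + N) (m : ℂ) := by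
    refine iSup_le fun n v hv => ?_
    obtain ⟨k, hk⟩ := hN v
    exact DG1_mem G N c hc h k n v (Module.End.mem_eigenspace_iff.1 hv) hk
  exact h1 (hG u)

end Pool.ABV
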