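import Pool.Agent.Work.MP_c20ce7_st.Interface

/-!
# Block DG2: conjugation by the exponential of a locally nilpotent operator
-/

set_option autoImplicit false

open MvPolynomial Pool.Agent.MPc20ce7

noncomputable section

namespace Pool.ABV

theorem DG2_comm {L : Type} [AddCommGroup L] [Module ℂ L] (B M C1 C2 : Module.End ℂ L)
    (h1 : M * B = B * M + C1) (h2 : M * C1 = C1 * M + C2) (h3 : M * C2 = C2 * M) (k : ℕ) :
    M ^ (k + 2) * B = B * M ^ (k + 2) + ((k : ℂ) + 2) • (C1 * M ^ (k + 1)) +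
      (((k : ℂ) + 2) * ((k : ℂ) + 1) / 2) • (C2 * M ^ k) := by
  induction k with
  | zero =>
    have e : M ^ (0 + 2) * B = M * (M * B) := by rw [zero_add, pow_two, mul_assoc]
    rw [e, h1, mul_add, ← mul_assoc, h1, h2, add_mul]
    have e2 : B * M ^ (0 + 2) = B * M * M := by rw [zero_add, pow_two, mul_assoc]
    rw [e2, zero_add, pow_one, pow_zero, mul_one]
    push_cast
    module
  | succ k ih =>
    have e : M ^ (k + 1 + 2) * B = M * (M ^ (k + 2) * B) := by
      rw [← mul_assoc, ← pow_succ']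
    have a1 : M * (B * M ^ (k + 2)) = B * M ^ (k + 1 + 2) + C1 * M ^ (k + 2) := by
      rw [← mul_assoc, h1, add_mul, mul_assoc, ← pow_succ']
    have a2 : M * (C1 * M ^ (k + 1)) = C1 * M ^ (k + 2) + C2 * M ^ (k + 1) := by
      rw [← mul_assoc, h2, add_mul, mul_assoc, ← pow_succ']
    have a3 : M * (C2 * M ^ k) = C2 * M ^ (k + 1) := by
      rw [← mul_assoc, h3, mul_assoc, ← pow_succ']
    rw [e, ih, mul_add, mul_add, mul_smul_comm, mul_smul_comm, a1, a2, a3]
    have e3 : k + 1 + 1 = k + 2 := rfl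
    rw [e3]
    push_cast
    module

/-- The partial sums of the exponential series. -/
def DG2_S {L : Type} [AddCommGroup L] [Module ℂ L] (M : Module.End ℂ L) (K : ℕ) :
    Module.End ℂ L := ∑ k ∈ Finset.range K, ((k.factorial : ℂ)⁻¹) • M ^ k

theorem DG2_S_succ {L : Type} [AddCommGroup L] [Module ℂ L] (M : Module.End ℂ L) (K : ℕ) :
    DG2_S M (K + 1) = DG2_S M K + ((K.factorial : ℂ)⁻¹) • M ^ K := by
  rw [DG2_S, Finset.sum_range_succ]
  rfl

theorem DG2_key {L : Type} [AddCommGroup L] [Module ℂ L] (B M C1 C2 : Module.End ℂ L)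
    (h1 : M * B = B * M + C1) (h2 : M * C1 = C1 * M + C2) (h3 : M * C2 = C2 * M) (K : ℕ) :
    DG2_S M (K + 2) * B = B * DG2_S M (K + 2) + C1 * DG2_S M (K + 1) +
      (1 / 2 : ℂ) • (C2 * DG2_S M K) := by
  induction K with
  | zero =>
    have e2 : DG2_S M (0 + 2) = 1 + M := by
      rw [DG2_S_succ, DG2_S_succ]
      simp [DG2_S]
    have e1 : DG2_S M (0 + 1) = 1 := by
      rw [DG2_S_succ]
      simp [DG2_S]
    have e0 : DG2_S M 0 = 0 := by simp [DG2_S]
    rw [e2, e1, e0, add_mul, one_mul, h1, mul_add, mul_one, mul_one, mul_zero, smul_zero,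
      add_zero]
    abel
  | succ K ih =>
    have f2 : ((K + 2).factorial : ℂ)⁻¹ * ((K : ℂ) + 2) = ((K + 1).factorial : ℂ)⁻¹ := by
      have hne : ((K + 1).factorial : ℂ) ≠ 0 := by exact_mod_cast Nat.factorial_ne_zero _
      have hne2 : ((K : ℂ) + 2) ≠ 0 := by
        have : ((K + 2 : ℕ) : ℂ) ≠ 0 := by exact_mod_cast (by omega : K + 2 ≠ 0)
        push_cast at this
        exact this
      have : ((K + 2).factorial : ℂ) = ((K : ℂ) + 2) * ((K + 1).factorial : ℂ) := by
        rw [Nat.factorial_succ (K + 1)]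
        push_cast
        ring
      rw [this]
      field_simp
    have f1 : ((K + 1).factorial : ℂ)⁻¹ * ((K : ℂ) + 1) = (K.factorial : ℂ)⁻¹ := by
      have hne : (K.factorial : ℂ) ≠ 0 := by exact_mod_cast Nat.factorial_ne_zero _
      have hne2 : ((K : ℂ) + 1) ≠ 0 := by
        have : ((K + 1 : ℕ) : ℂ) ≠ 0 := by exact_mod_cast (by omega : K + 1 ≠ 0)
        push_cast at this
        exact this
      have : ((K + 1).factorial : ℂ) = ((K : ℂ) + 1) * (K.factorial : ℂ) := by
        rw [Nat.factorial_succ K]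
        push_cast
        ring
      rw [this]
      field_simp
    have f3 : ((K + 2).factorial : ℂ)⁻¹ * (((K : ℂ) + 2) * ((K : ℂ) + 1) / 2) =
        1 / 2 * (K.factorial : ℂ)⁻¹ := by
      rw [← f1, ← f2]
      ring
    have e : DG2_S M (K + 1 + 2) = DG2_S M (K + 2) + (((K + 2).factorial : ℂ)⁻¹) • M ^ (K + 2) :=
      DG2_S_succ M (K + 2)
    have e' : DG2_S M (K + 1 + 1) =
        DG2_S M (K + 1) + (((K + 1).factorial : ℂ)⁻¹) • M ^ (K + 1) := DG2_S_succ M (K + 1)
    have g1 : C1 * DG2_S M (K + 1 + 1) =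
        C1 * DG2_S M (K + 1) + (((K + 1).factorial : ℂ)⁻¹) • (C1 * M ^ (K + 1)) := by
      rw [e', mul_add, mul_smul_comm]
    have g0 : C2 * DG2_S M (K + 1) = C2 * DG2_S M K + ((K.factorial : ℂ)⁻¹) • (C2 * M ^ K) := by
      rw [DG2_S_succ, mul_add, mul_smul_comm]
    have gb : B * DG2_S M (K + 1 + 2) =
        B * DG2_S M (K + 2) + (((K + 2).factorial : ℂ)⁻¹) • (B * M ^ (K + 2)) := by
      rw [e, mul_add, mul_smul_comm]
    have gl : DG2_S M (K + 1 + 2) * B = DG2_S M (K + 2) * B +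
        (((K + 2).factorial : ℂ)⁻¹) • (M ^ (K + 2) * B) := by
      rw [e, add_mul, smul_mul_assoc]
    rw [gl, gb, g1, g0, ih, DG2_comm B M C1 C2 h1 h2 h3 K, smul_add, smul_add,
      smul_smul, smul_smul, f2, f3, smul_add, smul_smul]
    abel

theorem DG2_pow_zero {L : Type} [AddCommGroup L] [Module ℂ L] (M : Module.End ℂ L) (u : L)
    {K K' : ℕ} (h : (M ^ K) u = 0) (hK : K ≤ K') : (M ^ K') u = 0 := by
  obtain ⟨j, rfl⟩ := Nat.exists_eq_add_of_le hK
  rw [add_comm, pow_add, Module.End.mul_apply, h, map_zero]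

theorem DG2_S_stab {L : Type} [AddCommGroup L] [Module ℂ L] (M : Module.End ℂ L) (u : L)
    {K : ℕ} (h : (M ^ K) u = 0) {K' : ℕ} (hK : K ≤ K') : DG2_S M K' u = DG2_S M K u := by
  induction K', hK using Nat.le_induction with
  | base => rfl
  | succ K' hK ih =>
    rw [DG2_S_succ, LinearMap.add_apply, LinearMap.smul_apply, DG2_pow_zero M u h hK, smul_zero,
      add_zero, ih]

theorem p_DG2 : S_DG2 := by
  intro L _ _ B M hB hM h3
  set C1 : Module.End ℂ L := M * B - B * M with hC1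
  set C2 : Module.End ℂ L := M * C1 - C1 * M with hC2
  have e1 : M * B = B * M + C1 := by rw [hC1]; abel
  have e2 : M * C1 = C1 * M + C2 := by rw [hC2]; abel
  have e3 : M * C2 = C2 * M := sub_eq_zero.1 h3
  set A : Module.End ℂ L := B + C1 + (1 / 2 : ℂ) • C2 with hA
  -- the images of the eigenvectors of `B`
  have key1 : ∀ (n : ℤ) (v : L), v ∈ Module.End.eigenspace B (n : ℂ) → ∀ K, (M ^ K) v = 0 →
      DG2_S M K v ∈ Module.End.eigenspace A (n : ℂ) := by
    intro n v hv K hK
    rw [Module.End.mem_eigenspace_iff] at hv ⊢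
    have h := congrArg (fun f : Module.End ℂ L => f v) (DG2_key B M C1 C2 e1 e2 e3 K)
    simp only [Module.End.mul_apply, LinearMap.add_apply, LinearMap.smul_apply] at h
    rw [hv, map_smul, DG2_S_stab M v hK (by omega : K ≤ K + 2),
      DG2_S_stab M v hK (by omega : K ≤ K + 1)] at h
    rw [hA, LinearMap.add_apply, LinearMap.add_apply, LinearMap.smul_apply]
    exact h.symm
  have key2 : ∀ u : L, ∃ K₀ : ℕ, ∀ K, K₀ ≤ K →
      DG2_S M K u ∈ ⨆ n : ℤ, Module.End.eigenspace A (n : ℂ) := by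
    intro u
    refine Submodule.iSup_induction (fun n : ℤ => Module.End.eigenspace B (n : ℂ))
      (motive := fun u => ∃ K₀ : ℕ, ∀ K, K₀ ≤ K →
        DG2_S M K u ∈ ⨆ n : ℤ, Module.End.eigenspace A (n : ℂ)) (hB u) ?_ ?_ ?_
    · intro n v hv
      obtain ⟨K, hK⟩ := hM v
      refine ⟨K, fun K' hK' => ?_⟩
      exact Submodule.mem_iSup_of_mem n (key1 n v hv K' (DG2_pow_zero M v hK hK'))
    · exact ⟨0, fun K _ => by rw [map_zero]; exact Submodule.zero_mem _⟩
    · rintro x y ⟨K1, h1⟩ ⟨K2, h2⟩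
      refine ⟨max K1 K2, fun K hK => ?_⟩
      rw [map_add]
      exact Submodule.add_mem _ (h1 K ((le_max_left _ _).trans hK))
        (h2 K ((le_max_right _ _).trans hK))
  have key3 : ∀ (K : ℕ) (u : L), (M ^ K) u = 0 →
      u ∈ ⨆ n : ℤ, Module.End.eigenspace A (n : ℂ) := by
    intro K
    induction K with
    | zero =>
      intro u hu
      rw [pow_zero, Module.End.one_apply] at hu
      rw [hu]
      exact Submodule.zero_mem _
    | succ K ih =>
      intro u hu
      obtain ⟨K₀, hK₀⟩ := key2 u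
      have h4 := hK₀ (max K₀ (K + 1)) (le_max_left _ _)
      rw [DG2_S_stab M u hu (le_max_right K₀ (K + 1))] at h4
      have h5 : DG2_S M (K + 1) u =
          u + ∑ k ∈ Finset.range K, (((k + 1).factorial : ℂ)⁻¹) • (M ^ (k + 1)) u := by
        rw [DG2_S, LinearMap.sum_apply, Finset.sum_range_succ']
        simp only [LinearMap.smul_apply, pow_zero, Module.End.one_apply, Nat.factorial_zero,
          Nat.cast_one, inv_one, one_smul]
        rw [add_comm]
      have h6 : ∑ k ∈ Finset.range K, (((k + 1).factorial : ℂ)⁻¹) • (M ^ (k + 1)) u ∈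
          ⨆ n : ℤ, Module.End.eigenspace A (n : ℂ) := by
        refine Submodule.sum_mem _ fun k _ => Submodule.smul_mem _ _ (ih _ ?_)
        rw [← Module.End.mul_apply, ← pow_add]
        exact DG2_pow_zero M u hu (by omega)
      have h7 : u = DG2_S M (K + 1) u -
          ∑ k ∈ Finset.range K, (((k + 1).factorial : ℂ)⁻¹) • (M ^ (k + 1)) u := by
        rw [h5, add_sub_cancel_right]
      rw [h7]
      exact Submodule.sub_mem _ h4 h6
  intro u
  obtain ⟨K, hK⟩ := hM u
  exact key3 K u hK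

end Pool.ABV
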