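import Pool.Agent.Work.MP_c20ce7_st.Interface

/-! Block DG3. -/

set_option autoImplicit false

open MvPolynomial Pool.Agent.MPc20ce7

noncomputable section

namespace Pool.ABV

/-- The vectors which are killed by a power of `N`. -/
def DG3_P {L : Type} [AddCommGroup L] [Module ℂ L] (N : Module.End ℂ L) : Submodule ℂ L where
  carrier := {u | ∃ k : ℕ, (N ^ k) u = 0}
  add_mem' := by
    rintro a b ⟨k, hk⟩ ⟨l, hl⟩
    refine ⟨k + l, ?_⟩
    rw [map_add]
    have h1 : (N ^ (k + l)) a = 0 := by
      rw [add_comm, pow_add, Module.End.mul_apply, hk, map_zero]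
    have h2 : (N ^ (k + l)) b = 0 := by
      rw [pow_add, Module.End.mul_apply, hl, map_zero]
    rw [h1, h2, add_zero]
  zero_mem' := ⟨0, map_zero _⟩
  smul_mem' := by
    rintro c a ⟨k, hk⟩
    exact ⟨k, by rw [map_smul, hk, smul_zero]⟩

lemma DG3_key {L : Type} [AddCommGroup L] [Module ℂ L] (G N : Module.End ℂ L) (c : ℤ)
    (hcomm : G * N - N * G = (c : ℂ) • N) (m : ℤ) (f : ℤ →₀ L)
    (hf : ∀ n : ℤ, f n ∈ Module.End.eigenspace G (n : ℂ))
    (hw : (G + N) (f.sum fun _ x => x) = (m : ℂ) • f.sum fun _ x => x) :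
    ∀ n : ℤ, N (f n) = ((m : ℂ) - ((n + c : ℤ) : ℂ)) • f (n + c) := by
  classical
  have hGf : ∀ n : ℤ, G (f n) = (n : ℂ) • f n := fun n => Module.End.mem_eigenspace_iff.1 (hf n)
  have hNf : ∀ n : ℤ, G (N (f n)) = ((n + c : ℤ) : ℂ) • N (f n) := by
    intro n
    have h1 := LinearMap.congr_fun hcomm (f n)
    simp only [LinearMap.sub_apply, Module.End.mul_apply, LinearMap.smul_apply, hGf,
      map_smul] at h1
    rw [sub_eq_iff_eq_add] at h1
    rw [h1, ← add_smul]
    push_cast
    rw [add_comm]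
  set S : Finset ℤ := f.support ∪ f.support.image (fun n => n + c) with hS
  set h : ℤ → L := fun n => ((n : ℂ) - m) • f n + N (f (n - c)) with hh
  have hmem : ∀ n ∈ S, h n ∈ Module.End.eigenspace G ((n : ℤ) : ℂ) := by
    intro n _
    refine Submodule.add_mem _ (Submodule.smul_mem _ _ (hf n)) ?_
    rw [Module.End.mem_eigenspace_iff, hNf (n - c)]
    congr 2
    ring
  have hoff : ∀ n, n ∉ S → f n = 0 ∧ f (n - c) = 0 := by
    intro n hn
    rw [hS, Finset.mem_union, not_or] at hn
    constructor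
    · by_contra h0
      exact hn.1 (Finsupp.mem_support_iff.2 h0)
    · by_contra h0
      apply hn.2
      rw [Finset.mem_image]
      exact ⟨n - c, Finsupp.mem_support_iff.2 h0, by ring⟩
  have hsum : ∑ n ∈ S, h n = 0 := by
    have e1 : ∑ n ∈ S, ((n : ℂ) - m) • f n = ∑ n ∈ f.support, ((n : ℂ) - m) • f n := by
      symm
      refine Finset.sum_subset Finset.subset_union_left ?_
      intro n _ hn
      rw [Finsupp.notMem_support_iff.1 hn, smul_zero]
    have e2 : ∑ n ∈ S, N (f (n - c)) = ∑ n ∈ f.support, N (f n) := by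
      have e3 : ∑ n ∈ f.support.image (fun n => n + c), N (f (n - c)) =
          ∑ n ∈ S, N (f (n - c)) := by
        refine Finset.sum_subset Finset.subset_union_right ?_
        intro n _ hn
        have : f (n - c) = 0 := by
          by_contra h0
          apply hn
          rw [Finset.mem_image]
          exact ⟨n - c, Finsupp.mem_support_iff.2 h0, by ring⟩
        rw [this, map_zero]
      rw [← e3, Finset.sum_image (fun a _ b _ hab => by simpa using hab)]
      refine Finset.sum_congr rfl fun n _ => ?_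
      rw [add_sub_cancel_right]
    have e4 : ∑ n ∈ f.support, ((n : ℂ) - m) • f n + ∑ n ∈ f.support, N (f n) = 0 := by
      simp only [Finsupp.sum, LinearMap.add_apply, map_sum, hGf] at hw
      simp only [sub_smul, Finset.sum_sub_distrib, ← Finset.smul_sum]
      rw [← hw, Finset.sum_add_distrib]
      abel
    simp only [hh, Finset.sum_add_distrib]
    rw [e1, e2, e4]
  have hind : iSupIndep fun n : ℤ => Module.End.eigenspace G ((n : ℤ) : ℂ) :=
    (Module.End.eigenspaces_iSupIndep G).comp (f := fun n : ℤ => ((n : ℤ) : ℂ))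
      Int.cast_injective
  have hall : ∀ n, h n = 0 := by
    intro n
    by_cases hn : n ∈ S
    · exact (iSupIndep_iff_finsetSum_eq_zero_imp_eq_zero _).1 hind S h hmem hsum n hn
    · simp only [hh, (hoff n hn).1, (hoff n hn).2, smul_zero, map_zero, add_zero]
  intro n
  have h1 := hall (n + c)
  simp only [hh, add_sub_cancel_right] at h1
  have h2 : N (f n) = -((((n + c : ℤ) : ℂ) - m) • f (n + c)) := by
    rw [eq_neg_iff_add_eq_zero, add_comm]
    exact h1
  rw [h2, ← neg_smul, neg_sub]

theorem p_DG3 : S_DG3 := by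
  intro L _ _ G N c hc hG hGN hcomm u
  show u ∈ DG3_P N
  refine (iSup_le (fun m => ?_) : (⨆ n : ℤ, Module.End.eigenspace (G + N) (n : ℂ)) ≤ DG3_P N)
    (hGN u)
  intro w hw
  rw [Module.End.mem_eigenspace_iff] at hw
  obtain ⟨f, hf, hfs⟩ := (Submodule.mem_iSup_iff_exists_finsupp _ w).1 (hG w)
  rw [← hfs] at hw ⊢
  have key := DG3_key G N c hcomm m f hf hw
  have hit : ∀ (k : ℕ) (n : ℤ), ∃ a : ℂ, (N ^ k) (f n) = a • f (n + k * c) := by
    intro k n
    induction k with
    | zero => exact ⟨1, by simp⟩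
    | succ k ih =>
      obtain ⟨a, ha⟩ := ih
      refine ⟨a * ((m : ℂ) - ((n + k * c + c : ℤ) : ℂ)), ?_⟩
      rw [pow_succ', Module.End.mul_apply, ha, map_smul, key, smul_smul]
      congr 2
      push_cast
      ring
  refine Submodule.sum_mem _ fun n _ => ?_
  have hex : ∃ k : ℕ, n + k * c ∉ f.support := by
    by_contra hcon
    push Not at hcon
    refine not_injective_infinite_finite
      (fun k : ℕ => (⟨n + k * c, hcon k⟩ : f.support)) ?_
    intro k l hkl
    have h1 : n + (k : ℤ) * c = n + (l : ℤ) * c := congrArg Subtype.val hkl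
    have h2 : (k : ℤ) * c = (l : ℤ) * c := by linarith
    have h3 := mul_right_cancel₀ hc h2
    exact_mod_cast h3
  obtain ⟨k, hk⟩ := hex
  obtain ⟨a, ha⟩ := hit k n
  refine ⟨k, ?_⟩
  rw [ha, Finsupp.notMem_support_iff.1 hk, smul_zero]

end Pool.ABV
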