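import Pool.Agent.Work.MP_c20ce7_st.B_CEN
import Pool.Agent.Work.MP_c20ce7_st.B_BRK

/-!
# The vector field of an idempotent block matrix is diagonalizable with integral eigenvalues

From the case of the primitive idempotents (block EQ1), by induction on the rank.
-/

set_option autoImplicit false

open MvPolynomial Pool.Agent.MPc20ce7

noncomputable section

namespace Pool.ABV

/-- The sum of two commuting operators which are diagonalizable with integral eigenvalues. -/
theorem diagZ_add {L : Type} [AddCommGroup L] [Module ℂ L] {F G : Module.End ℂ L} (hF : DiagZ F) (hG : DiagZ G)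
    (hc : F * G = G * F) : DiagZ (F + G) := by
  intro u
  refine (iSup_le (fun m => ?_) : (⨆ n : ℤ, Module.End.eigenspace F (n : ℂ)) ≤
    ⨆ n : ℤ, Module.End.eigenspace (F + G) (n : ℂ)) (hF u)
  intro w hw
  rw [Module.End.mem_eigenspace_iff] at hw
  obtain ⟨f, hf, hfs⟩ := (Submodule.mem_iSup_iff_exists_finsupp _ w).1 (hG w)
  have hGf : ∀ n : ℤ, G (f n) = (n : ℂ) • f n := fun n => Module.End.mem_eigenspace_iff.1 (hf n)
  have hmem : ∀ n ∈ f.support, F (f n) - (m : ℂ) • f n ∈ Module.End.eigenspace G ((n : ℤ) : ℂ) := by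
    intro n _
    refine Submodule.sub_mem _ ?_ (Submodule.smul_mem _ _ (hf n))
    rw [Module.End.mem_eigenspace_iff]
    have h1 := LinearMap.congr_fun hc (f n)
    simp only [Module.End.mul_apply] at h1
    rw [← h1, hGf, map_smul]
  have hsum : ∑ n ∈ f.support, (F (f n) - (m : ℂ) • f n) = 0 := by
    rw [Finset.sum_sub_distrib, ← Finset.smul_sum, ← map_sum, sub_eq_zero]
    rw [← hfs] at hw
    exact hw
  have hind : iSupIndep fun n : ℤ => Module.End.eigenspace G ((n : ℤ) : ℂ) :=
    (Module.End.eigenspaces_iSupIndep G).comp (f := fun n : ℤ => ((n : ℤ) : ℂ)) Int.cast_injective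
  have hall := (iSupIndep_iff_finsetSum_eq_zero_imp_eq_zero _).1 hind f.support _ hmem hsum
  rw [← hfs]
  refine Submodule.sum_mem _ fun n hn => ?_
  refine Submodule.mem_iSup_of_mem (m + n) ?_
  rw [Module.End.mem_eigenspace_iff]
  have h2 := sub_eq_zero.1 (hall n hn)
  rw [LinearMap.add_apply, h2, hGf, ← add_smul]
  push_cast
  rfl

/-- A non-zero idempotent block matrix has a primitive idempotent block matrix as a direct summand. -/
theorem idem_split {ι : Type} [Fintype ι] [DecidableEq ι] {e : ι → ℝ} {a : Matrix ι ι ℂ} (ha : IsBlk e a)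
    (haa : a * a = a) (h0 : a ≠ 0) : ∃ p : Matrix ι ι ℂ, IsBlk e p ∧ p * p = p ∧ a * p = p ∧ p * a = p ∧
      (∀ x : Matrix ι ι ℂ, ∃ c : ℂ, p * x * p = c • p) ∧
      LinearMap.range (Matrix.toLin' (a - p)) < LinearMap.range (Matrix.toLin' a) := by
  obtain ⟨i, j, hij⟩ : ∃ i j, a i j ≠ 0 := by
    by_contra hcon
    push Not at hcon
    exact h0 (by ext i j; simpa using hcon i j)
  set E : Matrix ι ι ℂ := Matrix.single j i 1 with hE
  have hEx : ∀ x : Matrix ι ι ℂ, E * x * E = x i j • E := by
    intro x
    rw [hE, Matrix.single_mul_mul_single]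
    rw [one_mul, mul_one, Matrix.smul_single, smul_eq_mul, mul_one]
  have hblkE : IsBlk e E := by
    intro p q hpq
    rw [hE, Matrix.single_apply] at hpq
    by_cases h : j = p ∧ i = q
    · rw [← h.1, ← h.2]
      exact (ha i j hij).symm
    · rw [if_neg h] at hpq
      exact absurd rfl hpq
  set p : Matrix ι ι ℂ := (a i j)⁻¹ • (a * E * a) with hp
  have hap : a * p = p := by
    rw [hp, mul_smul_comm, ← mul_assoc, ← mul_assoc, haa]
  have hpa : p * a = p := by
    rw [hp, smul_mul_assoc, mul_assoc, haa]
  have hxp : ∀ x : Matrix ι ι ℂ, p * x * p = ((a i j)⁻¹ * (a * x * a) i j) • p := by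
    intro x
    have h1 : a * E * a * x * (a * E * a) = (a * x * a) i j • (a * E * a) := by
      have h2 : a * E * a * x * (a * E * a) = a * (E * (a * x * a) * E) * a := by
        simp only [mul_assoc]
      rw [h2, hEx, mul_smul_comm, smul_mul_assoc]
    rw [hp, smul_mul_assoc, smul_mul_assoc, mul_smul_comm, h1, smul_smul, smul_smul, smul_smul]
    congr 1
    ring
  have hpp : p * p = p := by
    have h1 := hxp 1
    rw [mul_one, mul_one, haa, inv_mul_cancel₀ hij, one_smul] at h1
    exact h1
  refine ⟨p, ?_, hpp, hap, hpa, fun x => ⟨_, hxp x⟩, ?_⟩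
  · intro r s hrs
    have h1 : (a * E * a) r s ≠ 0 := by
      intro h2
      apply hrs
      rw [hp, Matrix.smul_apply, h2, smul_zero]
    exact BRK_blk_mul _ _ (BRK_blk_mul _ _ ha hblkE) ha r s h1
  · refine lt_of_le_of_ne ?_ ?_
    · rintro _ ⟨v, rfl⟩
      refine ⟨(a - p).mulVec v, ?_⟩
      rw [Matrix.toLin'_apply, Matrix.toLin'_apply, Matrix.mulVec_mulVec, mul_sub, haa, hap]
    · intro heq
      have h1 : a.mulVec (Pi.single j 1) ∈ LinearMap.range (Matrix.toLin' (a - p)) := by
        rw [heq]
        exact ⟨Pi.single j 1, rfl⟩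
      obtain ⟨v, hv⟩ := h1
      rw [Matrix.toLin'_apply] at hv
      have h2 : p.mulVec (a.mulVec (Pi.single j 1)) = 0 := by
        rw [← hv, Matrix.mulVec_mulVec, mul_sub, hpa, hpp, sub_self, Matrix.zero_mulVec]
      have h3 : p.mulVec (a.mulVec (Pi.single j 1)) = a.mulVec (Pi.single j 1) := by
        rw [Matrix.mulVec_mulVec, hpa]
        ext r
        rw [Matrix.mulVec_single_one, Matrix.mulVec_single_one]
        simp only [Matrix.col_apply]
        have h4 : (a * E * a) r j = a r j * a i j := by
          rw [hE]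
          rw [Matrix.mul_apply, Finset.sum_eq_single i]
          · rw [Matrix.mul_single_apply_same, mul_one]
          · intro q _ hq
            rw [Matrix.mul_single_apply_of_ne _ _ _ _ _ hq, zero_mul]
          · intro h
            exact absurd (Finset.mem_univ _) h
        rw [hp, Matrix.smul_apply, h4, smul_eq_mul]
        field_simp
      rw [h3] at h2
      have h5 := congrFun h2 i
      rw [Matrix.mulVec_single_one] at h5
      exact hij h5

/-- The vector field of every idempotent block matrix is diagonalizable with integral eigenvalues, if this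
holds for the primitive ones. -/
theorem fld_idem (hEQ1 : S_EQ1) (W : Type) [Group W] [TopologicalSpace W] (N : Nrm W) (ι : Type) [Fintype ι]
    [DecidableEq ι] (e : ι → ℝ) (L : Type) [AddCommGroup L] [Module ℂ L] (D : DM.WMod (DM.Co e) L)
    (hD : D.Equivariant) : ∀ a : Matrix ι ι ℂ, IsBlk e a → a * a = a → DiagZ (fld D a) := by
  suffices h : ∀ (n : ℕ) (a : Matrix ι ι ℂ),
      Module.finrank ℂ (LinearMap.range (Matrix.toLin' a)) = n → IsBlk e a → a * a = a → DiagZ (fld D a) from
    fun a ha haa => h _ a rfl ha haa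
  intro n
  induction n using Nat.strong_induction_on with
  | _ n ih =>
    intro a hn ha haa
    by_cases h0 : a = 0
    · subst h0
      have h1 : fld D (0 : Matrix ι ι ℂ) = 0 := by
        unfold fld
        simp
      rw [h1]
      intro u
      refine Submodule.mem_iSup_of_mem 0 ?_
      rw [Module.End.mem_eigenspace_iff]
      simp
    · obtain ⟨p, hp, hpp, hap, hpa, hprim, hlt⟩ := idem_split ha haa h0
      have h1 : DiagZ (fld D p) := hEQ1 W N ι e L D hD p
        ⟨(p_CEN W N ι e p).2 hp, hpp, fun x _ => hprim x⟩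
      have hb : IsBlk e (a - p) := BRK_blk_sub _ _ ha hp
      have h2 : DiagZ (fld D (a - p)) := by
        refine ih _ ?_ (a - p) rfl hb ?_
        · rw [← hn]
          exact Submodule.finrank_lt_finrank_of_lt hlt
        · rw [mul_sub, sub_mul, sub_mul, haa, hap, hpa, hpp]
          abel
      have h3 : fld D p * fld D (a - p) = fld D (a - p) * fld D p := by
        have h4 := p_BRK ι e L D p (a - p) hp hb
        have h5 : p * (a - p) - (a - p) * p = 0 := by
          rw [mul_sub, sub_mul, hap, hpa, hpp]
          abel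
        have h6 : fld D (0 : Matrix ι ι ℂ) = 0 := by
          unfold fld
          simp
        rw [h5, h6, neg_zero, sub_eq_zero] at h4
        exact h4
      have h7 : fld D a = fld D p + fld D (a - p) := by
        unfold fld
        rw [← Finset.sum_add_distrib]
        refine Finset.sum_congr rfl fun r _ => ?_
        rw [← Finset.sum_add_distrib]
        refine Finset.sum_congr rfl fun s _ => ?_
        rw [← add_smul, Matrix.sub_apply]
        congr 1
        ring
      rw [h7]
      exact diagZ_add h1 h2 h3

end Pool.ABV
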