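import Pool.Agent.Work.MP_c20ce7_st.Interface
import Pool.Agent.Work.MP_c20ce7_st.Idem

/-!
# Block DI1: the dictionary, from the standard coordinates to the L-parameters
-/

set_option autoImplicit false

open MvPolynomial Pool.Agent.MPc20ce7

noncomputable section

namespace Pool.ABV

theorem DI1_nil : ∀ (l : List (ℝ × ℕ)) (a b : Idx l), nil l a b ≠ 0 → expo l a = expo l b + 1
  | [], a, _, _ => Empty.elim a
  | p :: l, Sum.inl i, Sum.inl j, h => by
    have h1 : jordan p.2 i j ≠ 0 := h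
    have h2 : (i : ℕ) + 1 = j := by
      by_contra hc
      exact h1 (by simp [jordan, hc])
    show p.1 + ((p.2 : ℝ) - 1) / 2 - ((i : ℕ) : ℝ) = p.1 + ((p.2 : ℝ) - 1) / 2 - ((j : ℕ) : ℝ) + 1
    rw [← h2]
    push_cast
    ring
  | _ :: _, Sum.inl _, Sum.inr _, h => absurd rfl h
  | _ :: _, Sum.inr _, Sum.inl _, h => absurd rfl h
  | p :: l, Sum.inr i, Sum.inr j, h => DI1_nil l i j h

theorem DI1_orbit {ι : Type} [Fintype ι] [DecidableEq ι] (e : ι → ℝ) (φ : Par) (x : Matrix ι ι ℂ)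
    (hx : x ∈ orbit e φ) : ∀ i j, x i j ≠ 0 → e i = e j + 1 := by
  obtain ⟨l, _, g, h, hg, hh, _, _, hxe⟩ := hx
  intro i j hij
  rw [hxe, Matrix.mul_apply] at hij
  obtain ⟨b, _, hb⟩ := Finset.exists_ne_zero_of_sum_ne_zero hij
  have hb1 : (h * nil l) i b ≠ 0 := left_ne_zero_of_mul hb
  have hb2 : g b j ≠ 0 := right_ne_zero_of_mul hb
  rw [Matrix.mul_apply] at hb1
  obtain ⟨a, _, ha⟩ := Finset.exists_ne_zero_of_sum_ne_zero hb1
  have ha1 : h i a ≠ 0 := left_ne_zero_of_mul ha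
  have ha2 : nil l a b ≠ 0 := right_ne_zero_of_mul ha
  rw [hh i a ha1, DI1_nil l a b ha2, hg b j hb2]

theorem DI1_core (h1 : S_CEN) (h2 : S_VVE) (h3 : S_BST) (h4 : S_FLD) (h5 : S_EQ1)
    (W : Type) [Group W] [TopologicalSpace W] (N : Nrm W) (ι : Type) [Fintype ι] [DecidableEq ι] (e : ι → ℝ)
    (φ ψ : Par) (habv : ABVat e φ ψ) :
    ∃ (σ : Type) (_ : Fintype σ) (_ : DecidableEq σ) (b : Module.Basis σ ℂ (VV N (dgm N e)))
      (L : Type) (_ : AddCommGroup L) (_ : Module ℂ L) (D : DM.WMod σ L),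
      IsIC (AA (dgm N e)) b D (orbit e ψ) ∧
        ∀ p ∈ Conormal (AA (dgm N e)) b (orbit e φ), D.InCh p.1 p.2 := by
  obtain ⟨_, _, L, iL, mL, D, hIC, hCh⟩ := habv
  obtain ⟨b, hb1, hb2, hb3⟩ := h3 W N ι e
  have hV : ∀ (χ : Par) (x : Matrix ι ι ℂ), x ∈ orbit e χ → x ∈ VV N (dgm N e) := by
    intro χ x hx
    exact (h2 W N ι e x).2 (DI1_orbit e χ x hx)
  refine ⟨DM.Co e, inferInstance, inferInstance, b, L, iL, mL, D, ⟨hIC.simple, hIC.growth, ?_, ?_⟩, ?_⟩
  · intro a ha haa u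
    have ha1 : IsBlk e a := (h1 W N ι e a).1 ha
    rw [h4 W N ι e b hb1 hb2 L D a ha1]
    exact fld_idem h5 W N ι e L D hIC.equi a ha1 haa u
  · have himg : crd b '' orbit e ψ = DM.orb e ψ := by
      ext y
      constructor
      · rintro ⟨x, hx, rfl⟩
        show DM.mat e (crd b x) ∈ orbit e ψ
        rw [hb3 x (hV ψ x hx)]
        exact hx
      · intro hy
        have hy1 : DM.mat e y ∈ orbit e ψ := hy
        refine ⟨DM.mat e y, hy1, ?_⟩
        funext c
        rw [hb2 _ (hV ψ _ hy1) c]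
        unfold DM.mat
        rw [dif_pos c.2]
    rw [himg]
    exact hIC.supp
  · rintro p ⟨x, hx, hpx, horth⟩
    apply hCh
    have hmat : DM.mat e p.1 = x := by rw [hpx]; exact hb3 x (hV φ x hx)
    refine ⟨?_, ?_⟩
    · show DM.mat e p.1 ∈ orbit e φ
      rw [hmat]; exact hx
    · intro h hh
      have hA : h ∈ AA (dgm N e) := (h1 W N ι e h).2 hh
      have hxV := DI1_orbit e φ x hx
      have hV2 : h * x - x * h ∈ VV N (dgm N e) := by
        refine (h2 W N ι e _).2 ?_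
        intro i j hij
        by_cases hc : (h * x) i j = 0
        · have hc2 : (x * h) i j ≠ 0 := by
            intro h0
            apply hij
            rw [Matrix.sub_apply, hc, h0, sub_zero]
          rw [Matrix.mul_apply] at hc2
          obtain ⟨k, _, hk⟩ := Finset.exists_ne_zero_of_sum_ne_zero hc2
          rw [hxV i k (left_ne_zero_of_mul hk), hh k j (right_ne_zero_of_mul hk)]
        · rw [← ne_eq, Matrix.mul_apply] at hc
          obtain ⟨k, _, hk⟩ := Finset.exists_ne_zero_of_sum_ne_zero hc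
          rw [hh i k (left_ne_zero_of_mul hk), hxV k j (right_ne_zero_of_mul hk)]
      have h6 := horth h hA
      rw [hmat]
      rw [← h6]
      refine Finset.sum_congr rfl fun c _ => ?_
      rw [hb2 _ hV2 c]

theorem p_DI1 (h1 : S_CEN) (h2 : S_VVE) (h3 : S_BST) (h4 : S_FLD) (h5 : S_EQ1) : S_DI1 := by
  intro W _ _ N ι _ _ e φ ψ Φ Ψ hΦ hΨ hOΦ hOΨ habv
  have e1 : lam N Φ = dgm N e := funext hΦ
  have e2 : lam N Ψ = dgm N e := funext hΨ
  unfold InABV
  rw [e1, e2, hOΦ, hOΨ]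
  exact ⟨rfl, DI1_core h1 h2 h3 h4 h5 W N ι e φ ψ habv⟩

end Pool.ABV
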