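import Pool.Agent.Work.MP_c20ce7_st.Interface

/-!
# The outer layer: block DI2
-/

set_option autoImplicit false

open MvPolynomial Pool.Agent.MPc20ce7

noncomputable section

namespace Pool.ABV

theorem DI2_jordan (k : ℕ) (i j : Fin k) (h : jordan k i j ≠ 0) : ((j : ℕ) : ℝ) = (i : ℕ) + 1 := by
  unfold jordan at h
  by_cases hij : (i : ℕ) + 1 = j
  · rw [← hij]; push_cast; ring
  · rw [if_neg hij] at h
    exact absurd rfl h

theorem DI2_nil (l : List (ℝ × ℕ)) (a b : Idx l) (h : nil l a b ≠ 0) : expo l a = expo l b + 1 := by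
  induction l with
  | nil => exact Empty.elim a
  | cons p l ih =>
    rcases a with a | a
    · rcases b with b | b
      · have h1 : jordan p.2 a b ≠ 0 := h
        have h2 := DI2_jordan p.2 a b h1
        change p.1 + ((p.2 : ℝ) - 1) / 2 - ((a : ℕ) : ℝ) = p.1 + ((p.2 : ℝ) - 1) / 2 - ((b : ℕ) : ℝ) + 1
        rw [h2]; ring
      · exact absurd rfl h
    · rcases b with b | b
      · exact absurd rfl h
      · exact ih a b h

section

variable {ι : Type} [Fintype ι] [DecidableEq ι]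

theorem DI2_orbit (e : ι → ℝ) (φ : Par) (x : Matrix ι ι ℂ) (hx : x ∈ orbit e φ) (i j : ι)
    (h : x i j ≠ 0) : e i = e j + 1 := by
  obtain ⟨l, -, g, k, hg, hk, -, -, rfl⟩ := hx
  rw [Matrix.mul_apply] at h
  obtain ⟨b, -, hb⟩ := Finset.exists_ne_zero_of_sum_ne_zero h
  rw [Matrix.mul_apply] at hb
  obtain ⟨a, -, ha⟩ := Finset.exists_ne_zero_of_sum_ne_zero (left_ne_zero_of_mul hb)
  have e1 := hk i a (left_ne_zero_of_mul ha)
  have e2 := DI2_nil l a b (right_ne_zero_of_mul ha)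
  have e3 := hg b j (right_ne_zero_of_mul hb)
  rw [e1, e2, e3]

variable {V : Submodule ℂ (Matrix ι ι ℂ)} {σ τ : Type} [Fintype σ] [DecidableEq σ] [Fintype τ]
  [DecidableEq τ]

theorem DI2_crd (b : Module.Basis σ ℂ V) (b' : Module.Basis τ ℂ V) (x : Matrix ι ι ℂ) (hx : x ∈ V) :
    (b.toMatrix b').mulVec (crd b' x) = crd b x := by
  have h1 : crd b x = b.repr ⟨x, hx⟩ := by
    funext c; simp [crd, hx]
  have h2 : crd b' x = b'.repr ⟨x, hx⟩ := by
    funext c; simp [crd, hx]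
  rw [h1, h2]
  exact b'.toMatrix_mulVec_repr b ⟨x, hx⟩

end

section

variable {W : Type} [Group W] [TopologicalSpace W] {ι : Type} [Fintype ι] [DecidableEq ι]

theorem DI2_stab (N : Nrm W) (l : W → Matrix ι ι ℂ) (a v : Matrix ι ι ℂ) (ha : a ∈ AA l)
    (hv : v ∈ VV N l) : a * v - v * a ∈ VV N l := by
  have hc : ∀ w, l w * a = a * l w := fun w =>
    (Subalgebra.mem_centralizer_iff ℂ).1 ha (l w) (Set.mem_range_self w)
  have h1 : a * v ∈ VV N l := by
    intro w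
    rw [← mul_assoc, hc w, mul_assoc, hv w, mul_smul_comm, mul_assoc]
  have h2 : v * a ∈ VV N l := by
    intro w
    rw [← mul_assoc, hv w, smul_mul_assoc, mul_assoc, hc w, mul_assoc]
  exact (VV N l).sub_mem h1 h2

end

theorem p_DI2 (hCEN : S_CEN) (hVVE : S_VVE) (hBST : S_BST) (hFLD : S_FLD) (hFCH : S_FCH)
    (hEQ2 : S_EQ2) (hLC3 : S_LC3) : S_DI2 := by
  intro W _ _ N ι _ _ e φ ψ Φ Ψ hΦ hΨ oΦ oΨ nφ nψ hI
  have hl : lam N Ψ = dgm N e := funext hΨ
  unfold InABV at hI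
  rw [hl, oΨ, oΦ] at hI
  obtain ⟨-, σ, iσ, dσ, b', L, iL, mL, D, hIC, hCo⟩ := hI
  obtain ⟨b, hb1, hb2, hb3⟩ := hBST W N ι e
  have hVO : ∀ (χ : Par), ∀ x ∈ orbit e χ, x ∈ VV N (dgm N e) := fun χ x hx =>
    (hVVE W N ι e x).2 (fun i j hij => DI2_orbit e χ x hx i j hij)
  have hmat : ∀ y : DM.Co e → ℂ, DM.mat e y ∈ VV N (dgm N e) := fun y =>
    (hVVE W N ι e _).2 (fun i j hij => by
      by_contra hne
      apply hij
      simp [DM.mat, hne])
  have hcm : ∀ y : DM.Co e → ℂ, crd b (DM.mat e y) = y := by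
    intro y
    funext c
    rw [hb2 _ (hmat y) c]
    simp [DM.mat, c.2]
  -- the orbits in coordinates
  have horb : ∀ χ : Par, (b.toMatrix b').mulVec '' (crd b' '' orbit e χ) = DM.orb e χ := by
    intro χ
    ext y
    constructor
    · rintro ⟨_, ⟨x, hx, rfl⟩, rfl⟩
      change DM.mat e _ ∈ orbit e χ
      rw [DI2_crd b b' x (hVO χ x hx), hb3 x (hVO χ x hx)]
      exact hx
    · intro hy
      refine ⟨crd b' (DM.mat e y), ⟨DM.mat e y, hy, rfl⟩, ?_⟩
      rw [DI2_crd b b' _ (hmat y), hcm y]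
  obtain ⟨D', hx, hd, hS, hG, hsupp, hch⟩ := hLC3 σ (DM.Co e) (b.toMatrix b') (b'.toMatrix b)
    (b.toMatrix_mul_toMatrix_flip b') (b'.toMatrix_mul_toMatrix_flip b) L D
  refine ⟨?_, ?_, L, iL, mL, D', ⟨hS hIC.simple, hG hIC.growth, ?_, ?_⟩, ?_⟩
  · obtain ⟨x, hx⟩ := nφ
    refine ⟨crd b x, ?_⟩
    change DM.mat e _ ∈ orbit e φ
    rw [hb3 x (hVO φ x hx)]
    exact hx
  · obtain ⟨x, hx⟩ := nψ
    refine ⟨crd b x, ?_⟩
    change DM.mat e _ ∈ orbit e ψ
    rw [hb3 x (hVO ψ x hx)]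
    exact hx
  · refine hEQ2 W N ι e L D' ?_
    intro a ha
    have h1 : fld D' a = field b D' a := (hFLD W N ι e b hb1 hb2 L D' a ((hCEN W N ι e a).1 ha.1)).symm
    have h2 : field b D' a = field b' D a :=
      hFCH ι (VV N (dgm N e)) σ (DM.Co e) b' b L D D' hx hd a
        (fun v hv => DI2_stab N (dgm N e) a v ha.1 hv)
    rw [h1, h2]
    exact hIC.equi a ha.1 ha.2.1
  · rw [← horb ψ]
    exact hsupp _ hIC.supp
  · rintro ⟨y, η⟩ ⟨hy, hη⟩
    have hp : (crd b' (DM.mat e y), Matrix.vecMul η (b.toMatrix b')) ∈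
        Conormal (AA (dgm N e)) b' (orbit e φ) := by
      refine ⟨DM.mat e y, hy, rfl, ?_⟩
      intro a ha
      have hst := DI2_stab N (dgm N e) a _ ha (hmat y)
      have h1 := hη a ((hCEN W N ι e a).1 ha)
      have h2 := DI2_crd b b' _ hst
      change Matrix.vecMul η (b.toMatrix b') ⬝ᵥ crd b' (a * DM.mat e y - DM.mat e y * a) = 0
      rw [← Matrix.dotProduct_mulVec, h2, ← h1]
      refine Finset.sum_congr rfl ?_
      intro c _
      rw [hb2 _ hst c]
    have h3 := hch _ _ (hCo _ hp)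
    have h4 : (b.toMatrix b').mulVec (crd b' (DM.mat e y)) = y := by
      rw [DI2_crd b b' _ (hmat y), hcm y]
    have h5 : Matrix.vecMul (Matrix.vecMul η (b.toMatrix b')) (b'.toMatrix b) = η := by
      rw [Matrix.vecMul_vecMul, b.toMatrix_mul_toMatrix_flip b', Matrix.vecMul_one]
    change D'.InCh y η
    have h6 : D'.InCh ((b.toMatrix b').mulVec (crd b' (DM.mat e y)))
      (Matrix.vecMul (Matrix.vecMul η (b.toMatrix b')) (b'.toMatrix b)) := h3
    rw [h4, h5] at h6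
    exact h6

end Pool.ABV
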