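import Pool.Agent.Work.MP_c20ce7_st.Interface
import Pool.Agent.Work.MP_c20ce7_nt.B_CJ
import Pool.Agent.Work.MP_c20ce7_nt.B_EQ
import Pool.Agent.Work.MP_c20ce7_nt.B_PM

/-!
# DUA: the dual of the standard point
-/

set_option autoImplicit false

open MvPolynomial Pool.Agent.MPc20ce7

noncomputable section

namespace Pool.ABV

theorem DUA_trans {ι κ μ : Type} [Fintype ι] [DecidableEq ι] [Fintype κ] [DecidableEq κ] [Fintype μ]
    [DecidableEq μ] {e : ι → ℝ} {x : Matrix ι ι ℂ} {e' : κ → ℝ} {x' : Matrix κ κ ℂ} {e'' : μ → ℝ}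
    {x'' : Matrix μ μ ℂ} (h1 : Conj e x e' x') (h2 : Conj e' x' e'' x'') : Conj e x e'' x'' :=
  p_CJ.2.2 _ _ _ _ _ _ _ _ _ h1 h2

theorem DUA_blk {α β ι κ : Type} [Fintype α] [DecidableEq α] [Fintype β] [DecidableEq β] [Fintype ι]
    [DecidableEq ι] [Fintype κ] [DecidableEq κ] {f : α → ℝ} {y : Matrix α α ℂ} {f' : β → ℝ}
    {y' : Matrix β β ℂ} {e : ι → ℝ} {x : Matrix ι ι ℂ} {e' : κ → ℝ} {x' : Matrix κ κ ℂ}
    (hd : Conj f y f' y') (hc : Conj e x e' x') :
    Conj (Sum.elim f e) (Matrix.fromBlocks y 0 0 x) (Sum.elim f' e')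
      (Matrix.fromBlocks y' 0 0 x') := by
  obtain ⟨g, h, h1, h2, h3, h4, h5⟩ := hc
  obtain ⟨g', h', k1, k2, k3, k4, k5⟩ := hd
  refine ⟨Matrix.fromBlocks g' 0 0 g, Matrix.fromBlocks h' 0 0 h, ?_, ?_, ?_, ?_, ?_⟩
  · rintro (a | a) (i | i) hne
    · exact k1 a i hne
    · exact absurd rfl hne
    · exact absurd rfl hne
    · exact h1 a i hne
  · rintro (a | a) (i | i) hne
    · exact k2 a i hne
    · exact absurd rfl hne
    · exact absurd rfl hne
    · exact h2 a i hne
  · rw [Matrix.fromBlocks_multiply]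
    simp [h3, k3]
  · rw [Matrix.fromBlocks_multiply]
    simp [h4, k4]
  · rw [Matrix.fromBlocks_multiply, Matrix.fromBlocks_multiply]
    simp [← h5, ← k5]

theorem DUA_dg {ι : Type} [Fintype ι] [DecidableEq ι] (e : ι → ℝ) (x : Matrix ι ι ℂ) (c : ι → ℂ)
    (hc : ∀ i, c i * c i = 1) : Conj e (fun i j => c i * x i j * c j) e x := by
  have hd : ∀ a i, (Matrix.diagonal c : Matrix ι ι ℂ) a i ≠ 0 → e a = e i := by
    intro a i h
    by_cases hai : a = i
    · rw [hai]
    · exact absurd (Matrix.diagonal_apply_ne c hai) h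
  have h1 : (Matrix.diagonal c : Matrix ι ι ℂ) * Matrix.diagonal c = 1 := by
    rw [Matrix.diagonal_mul_diagonal, ← Matrix.diagonal_one]
    congr 1
    funext i
    exact hc i
  refine ⟨Matrix.diagonal c, Matrix.diagonal c, hd, hd, h1, h1, ?_⟩
  ext i j
  rw [Matrix.mul_diagonal, Matrix.diagonal_mul]

/-- the transposed inverse -/
theorem DUA_inv {ι κ : Type} [Fintype ι] [DecidableEq ι] [Fintype κ] [DecidableEq κ] {e : ι → ℝ}
    {x : Matrix ι ι ℂ} {e' : κ → ℝ} {x' : Matrix κ κ ℂ} (hc : Conj e x e' x') :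
    Conj (fun i => - e i) (-x.transpose) (fun a => - e' a) (-x'.transpose) := by
  obtain ⟨g, h, h1, h2, h3, h4, h5⟩ := hc
  refine ⟨h.transpose, g.transpose, ?_, ?_, ?_, ?_, ?_⟩
  · intro a i hne
    show - e' a = - e i
    rw [h2 i a hne]
  · intro i a hne
    show - e i = - e' a
    rw [h1 a i hne]
  · rw [← Matrix.transpose_mul, h3, Matrix.transpose_one]
  · rw [← Matrix.transpose_mul, h4, Matrix.transpose_one]
  · rw [h5]
    simp only [Matrix.transpose_mul, Matrix.mul_neg, Matrix.neg_mul, Matrix.mul_assoc]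

/-- the dual of a Jordan block -/
theorem DUA_jor (s : ℝ) (k : ℕ) :
    Conj (fun j : Fin k => - (s + ((k : ℝ) - 1) / 2 - (j : ℕ))) (-(jordan k).transpose)
      (fun j : Fin k => - s + ((k : ℝ) - 1) / 2 - (j : ℕ)) (jordan k) := by
  have h1 := DUA_dg (fun j : Fin k => - (s + ((k : ℝ) - 1) / 2 - (j : ℕ)))
    (fun i j => jordan k (Fin.rev i) (Fin.rev j)) (fun i => (-1) ^ (i : ℕ)) (by
      intro i
      rw [← mul_pow]
      norm_num)
  have h2 : Conj (fun j : Fin k => - (s + ((k : ℝ) - 1) / 2 - (j : ℕ)))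
      (fun i j => jordan k (Fin.rev i) (Fin.rev j))
      (fun j : Fin k => - s + ((k : ℝ) - 1) / 2 - (j : ℕ)) (jordan k) := by
    refine p_EQ _ _ Fin.revPerm _ _ _ _ ?_ ?_
    · intro i
      rw [Fin.revPerm_apply, Fin.val_rev]
      have : (i : ℕ) + 1 ≤ k := i.2
      push_cast [Nat.cast_sub this]
      ring
    · intro i j
      rfl
  have h3 : (-(jordan k).transpose : Matrix (Fin k) (Fin k) ℂ) =
      fun (i j : Fin k) => (-1) ^ (i : ℕ) * jordan k (Fin.rev i) (Fin.rev j) * (-1) ^ (j : ℕ) := by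
    ext i j
    rw [Matrix.neg_apply, Matrix.transpose_apply]
    simp only [jordan, Fin.val_rev]
    have hi : (i : ℕ) + 1 ≤ k := i.2
    have hj : (j : ℕ) + 1 ≤ k := j.2
    by_cases h : (j : ℕ) + 1 = i
    · rw [if_pos h, if_pos (by omega), ← h, pow_succ, mul_one]
      have : ((-1 : ℂ) ^ (j : ℕ)) * (-1) ^ (j : ℕ) = 1 := by
        rw [← mul_pow]
        norm_num
      linear_combination this
    · rw [if_neg h, if_neg (by omega)]
      simp
  rw [h3]
  exact DUA_trans h1 h2

/-- the dual of the standard point is the standard point of the dual list -/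
theorem DUA_dual (l : List (ℝ × ℕ)) :
    Conj (fun a => - expo l a) (-(nil l).transpose) (expo (l.map fun p => (-p.1, p.2)))
      (nil (l.map fun p => (-p.1, p.2))) := by
  induction l with
  | nil =>
    refine p_EQ _ _ (Equiv.refl Empty) _ _ _ _ ?_ ?_
    · intro i
      exact i.elim
    · intro i
      exact i.elim
  | cons p l ih =>
    have h1 : (fun a => - expo (p :: l) a) =
        Sum.elim (fun j : Fin p.2 => - (p.1 + ((p.2 : ℝ) - 1) / 2 - (j : ℕ)))
          (fun a => - expo l a) := by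
      funext x
      rcases x with x | x <;> rfl
    have h2 : (-(nil (p :: l)).transpose : Matrix (Idx (p :: l)) (Idx (p :: l)) ℂ) =
        Matrix.fromBlocks (-(jordan p.2).transpose) 0 0 (-(nil l).transpose) := by
      ext i j
      rcases i with i | i <;> rcases j with j | j
      · rfl
      · show -(0 : ℂ) = 0
        exact neg_zero
      · show -(0 : ℂ) = 0
        exact neg_zero
      · rfl
    have h3 : expo ((p :: l).map fun p => (-p.1, p.2)) =
        Sum.elim (fun j : Fin p.2 => - p.1 + ((p.2 : ℝ) - 1) / 2 - (j : ℕ))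
          (expo (l.map fun p => (-p.1, p.2))) := by
      funext x
      rcases x with x | x <;> rfl
    rw [h1, h2, h3]
    exact DUA_blk (DUA_jor p.1 p.2) ih

/-- the standard point of a sum -/
theorem DUA_app (l m : List (ℝ × ℕ)) :
    Conj (Sum.elim (expo l) (expo m)) (Matrix.fromBlocks (nil l) 0 0 (nil m)) (expo (l ++ m))
      (nil (l ++ m)) := by
  induction l with
  | nil =>
    refine p_EQ _ _ (Equiv.emptySum Empty (Idx m)) _ _ _ _ ?_ ?_
    · rintro (i | i)
      · exact i.elim
      · rfl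
    · rintro (i | i) (j | j)
      · exact i.elim
      · exact i.elim
      · exact j.elim
      · rfl
  | cons p l ih =>
    have h1 : Conj (Sum.elim (expo (p :: l)) (expo m))
        (Matrix.fromBlocks (nil (p :: l)) 0 0 (nil m))
        (Sum.elim (fun j : Fin p.2 => p.1 + ((p.2 : ℝ) - 1) / 2 - (j : ℕ))
          (Sum.elim (expo l) (expo m)))
        (Matrix.fromBlocks (jordan p.2) 0 0 (Matrix.fromBlocks (nil l) 0 0 (nil m))) := by
      refine p_EQ _ _ (Equiv.sumAssoc (Fin p.2) (Idx l) (Idx m)) _ _ _ _ ?_ ?_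
      · rintro ((i | i) | i) <;> rfl
      · rintro ((i | i) | i) ((j | j) | j) <;> rfl
    refine DUA_trans h1 ?_
    have h2 := PM_block (fun j : Fin p.2 => p.1 + ((p.2 : ℝ) - 1) / 2 - (j : ℕ)) _ _
      (jordan p.2) _ _ ih
    have h3 : expo (p :: l ++ m) =
        Sum.elim (fun j : Fin p.2 => p.1 + ((p.2 : ℝ) - 1) / 2 - (j : ℕ)) (expo (l ++ m)) := by
      funext x
      rcases x with x | x <;> rfl
    rw [h3]
    exact h2

/-- the window: an enumeration of the index set of a sum of one-dimensional summands -/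
theorem DUA_win (m : List ℝ) : ∃ τ : Fin m.length ≃ Idx (m.map fun r => (r, 1)),
    (∀ i, expo (m.map fun r => (r, 1)) (τ i) = m.get i) ∧
    ∀ i j, nil (m.map fun r => (r, 1)) (τ i) (τ j) = 0 := by
  induction m with
  | nil =>
    refine ⟨⟨fun i => i.elim0, fun i => i.elim, fun i => i.elim0, fun i => i.elim⟩, ?_, ?_⟩
    · intro i
      exact i.elim0
    · intro i
      exact i.elim0
  | cons r m ih =>
    obtain ⟨τ, h1, h2⟩ := ih
    let τ' : Fin (r :: m).length ≃ Fin 1 ⊕ Idx (m.map fun r => (r, 1)) :=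
      { toFun := fun i => Fin.cases (Sum.inl 0) (fun i => Sum.inr (τ i)) i
        invFun := Sum.elim (fun _ => 0) (fun x => (τ.symm x).succ)
        left_inv := by
          intro i
          refine Fin.cases ?_ ?_ i
          · rfl
          · intro i
            show (τ.symm (τ i)).succ = i.succ
            rw [Equiv.symm_apply_apply]
        right_inv := by
          rintro (x | x)
          · show Sum.inl 0 = Sum.inl x
            rw [Subsingleton.elim x 0]
          · show Sum.inr (τ (τ.symm x)) = Sum.inr x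
            rw [Equiv.apply_symm_apply] }
    refine ⟨τ', ?_, ?_⟩
    · intro i
      refine Fin.cases ?_ ?_ i
      · show r + (((1 : ℕ) : ℝ) - 1) / 2 - ((0 : ℕ) : ℝ) = r
        norm_num
      · intro i
        exact h1 i
    · intro i j
      refine Fin.cases ?_ ?_ i
      · refine Fin.cases ?_ ?_ j
        · show jordan 1 0 0 = 0
          simp [jordan]
        · intro j
          rfl
      · intro i
        refine Fin.cases ?_ ?_ j
        · rfl
        · intro j
          exact h2 i j

theorem p_DUA : S_DUA := by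
  intro ι _ _ e x l α hc
  set m : List ℝ := (List.range α).map fun i : ℕ => ((α : ℝ) - 1) / 2 - (i : ℝ) with hm
  refine ⟨(l.map fun p => (-p.1, p.2)) ++ m.map fun r => (r, 1), ?_, ?_⟩
  · rw [lift, contra, hm, List.map_map, ← Multiset.coe_add, Multiset.map_coe]
    rfl
  · refine DUA_trans (DUA_blk (DUA_trans (DUA_inv hc) (DUA_dual l)) ?_)
      (DUA_app (l.map fun p => (-p.1, p.2)) (m.map fun r => (r, 1)))
    obtain ⟨τ, h1, h2⟩ := DUA_win m
    have hlen : α = m.length := by rw [hm, List.length_map, List.length_range]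
    refine p_EQ _ _ ((finCongr hlen).trans τ) _ _ _ _ ?_ ?_
    · intro i
      rw [Equiv.trans_apply, h1]
      simp [hm]
    · intro i j
      rw [Equiv.trans_apply, Equiv.trans_apply, h2]
      rfl

end Pool.ABV
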