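import Pool.Agent.Work.MP_c20ce7_st.Interface

/-!
# Block EQ1 (helper74)
-/

set_option autoImplicit false

open MvPolynomial Pool.Agent.MPc20ce7

noncomputable section

namespace Pool.ABV

section EQ1aux

variable {ι : Type} [Fintype ι] [DecidableEq ι] {L : Type} [AddCommGroup L] [Module ℂ L]

lemma EQ1_fld_single {e : ι → ℝ} (D : DM.WMod (DM.Co e) L) (a b : ι) :
    fld D (Matrix.single a b 1) = D.G a b := by
  unfold fld
  rw [Finset.sum_eq_single a]
  · rw [Finset.sum_eq_single b]
    · rw [Matrix.single_apply_same, one_smul]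
    · intro q _ hq
      rw [Matrix.single_apply_of_ne _ _ _ _ _ (by tauto), zero_smul]
    · intro h
      exact absurd (Finset.mem_univ b) h
  · intro p _ hp
    refine Finset.sum_eq_zero fun q _ => ?_
    rw [Matrix.single_apply_of_ne _ _ _ _ _ (by tauto), zero_smul]
  · intro h
    exact absurd (Finset.mem_univ a) h

lemma EQ1_fld_add {e : ι → ℝ} (D : DM.WMod (DM.Co e) L) (a b : Matrix ι ι ℂ) :
    fld D (a + b) = fld D a + fld D b := by
  unfold fld
  rw [← Finset.sum_add_distrib]
  refine Finset.sum_congr rfl fun p _ => ?_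
  rw [← Finset.sum_add_distrib]
  refine Finset.sum_congr rfl fun q _ => ?_
  rw [Matrix.add_apply, add_smul]

lemma EQ1_fld_smul {e : ι → ℝ} (D : DM.WMod (DM.Co e) L) (c : ℂ) (a : Matrix ι ι ℂ) :
    fld D (c • a) = c • fld D a := by
  unfold fld
  rw [Finset.smul_sum]
  refine Finset.sum_congr rfl fun p _ => ?_
  rw [Finset.smul_sum]
  refine Finset.sum_congr rfl fun q _ => ?_
  rw [Matrix.smul_apply, smul_eq_mul, mul_smul]

lemma EQ1_fld_zero {e : ι → ℝ} (D : DM.WMod (DM.Co e) L) : fld D (0 : Matrix ι ι ℂ) = 0 := by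
  unfold fld
  simp

lemma EQ1_blk_single {e : ι → ℝ} {a b : ι} (h : e a = e b) : IsBlk e (Matrix.single a b (1 : ℂ)) := by
  intro i j hij
  by_cases h1 : a = i ∧ b = j
  · rw [← h1.1, ← h1.2, h]
  · exact absurd (Matrix.single_apply_of_ne _ _ _ _ _ h1) hij

lemma EQ1_blk_vec {e : ι → ℝ} {i : ι} {v f : ι → ℂ} (hv : ∀ j, v j ≠ 0 → e j = e i)
    (hf : ∀ j, f j ≠ 0 → e j = e i) : IsBlk e (Matrix.vecMulVec v f) := by
  intro p q hpq
  rw [Matrix.vecMulVec_apply] at hpq
  rw [hv p (left_ne_zero_of_mul hpq), hf q (right_ne_zero_of_mul hpq)]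

lemma EQ1_blk_mul {e : ι → ℝ} {a b : Matrix ι ι ℂ} (ha : IsBlk e a) (hb : IsBlk e b) :
    IsBlk e (a * b) := by
  intro i j hij
  rw [Matrix.mul_apply] at hij
  obtain ⟨k, -, hk⟩ := Finset.exists_ne_zero_of_sum_ne_zero hij
  rw [ha i k (left_ne_zero_of_mul hk), hb k j (right_ne_zero_of_mul hk)]

lemma EQ1_blk_sub {e : ι → ℝ} {a b : Matrix ι ι ℂ} (ha : IsBlk e a) (hb : IsBlk e b) :
    IsBlk e (a - b) := by
  intro i j hij
  by_cases h : a i j = 0
  · refine hb i j fun h' => hij ?_
    rw [Matrix.sub_apply, h, h', sub_zero]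
  · exact ha i j h

/-- `(1 + m) b (1 - m)` for `m ^ 2 = 0`. -/
lemma EQ1_conj (m b : Matrix ι ι ℂ) (hm : m * m = 0) :
    (b + (m * b - b * m) + (1 / 2 : ℂ) • (m * (m * b - b * m) - (m * b - b * m) * m)
        = b + m * b - b * m - m * b * m) ∧
      (m * (m * (m * b - b * m) - (m * b - b * m) * m) - (m * (m * b - b * m) - (m * b - b * m) * m) * m) = 0 := by
  have h1 : m * (m * b - b * m) - (m * b - b * m) * m = (-2 : ℂ) • (m * b * m) := by
    have e1 : m * (m * b) = 0 := by rw [← Matrix.mul_assoc, hm, Matrix.zero_mul]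
    have e2 : b * m * m = 0 := by rw [Matrix.mul_assoc, hm, Matrix.mul_zero]
    rw [Matrix.mul_sub, Matrix.sub_mul, e1, e2, ← Matrix.mul_assoc m b m]
    module
  refine ⟨?_, ?_⟩
  · rw [h1]
    module
  · rw [h1]
    have e3 : m * (m * b * m) = 0 := by
      rw [← Matrix.mul_assoc, ← Matrix.mul_assoc, hm, Matrix.zero_mul, Matrix.zero_mul]
    have e4 : m * b * m * m = 0 := by rw [Matrix.mul_assoc, hm, Matrix.mul_zero]
    rw [Matrix.mul_smul, Matrix.smul_mul, e3, e4, smul_zero, sub_zero]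

end EQ1aux

theorem p_EQ1 (hBRK : S_BRK) (hRK1 : S_RK1) (hDG1 : S_DG1) (hDG2 : S_DG2) (hCOM : S_COM) : S_EQ1 := by
  intro W _ _ N ι _ _ e L _ _ D hD a ha
  by_cases ha0 : a = 0
  · subst ha0
    rw [EQ1_fld_zero]
    intro u
    refine Submodule.mem_iSup_of_mem (0 : ℤ) ?_
    rw [Module.End.mem_eigenspace_iff]
    simp
  obtain ⟨v, f, i, hav, hvi, hfv, hv, hf⟩ := hRK1 W N ι e a ha ha0
  -- the vectors
  set δ : ι → ℂ := Pi.single i 1 with hδ
  set u : ι → ℂ := v - δ with hu
  set g : ι → ℂ := f - f i • δ with hg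
  have hδi : δ i = 1 := by rw [hδ, Pi.single_eq_same]
  have hδj : ∀ j, j ≠ i → δ j = 0 := fun j hj => by rw [hδ, Pi.single_eq_of_ne hj]
  have hui : u i = 0 := by rw [hu, Pi.sub_apply, hvi, hδi, sub_self]
  have hgi : g i = 0 := by rw [hg, Pi.sub_apply, Pi.smul_apply, hδi, smul_eq_mul, mul_one, sub_self]
  have hgj : ∀ j, j ≠ i → g j = f j := fun j hj => by
    rw [hg, Pi.sub_apply, Pi.smul_apply, hδj j hj, smul_zero, sub_zero]
  have huj : ∀ j, j ≠ i → u j = v j := fun j hj => by
    rw [hu, Pi.sub_apply, hδj j hj, sub_zero]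
  have hδb : ∀ j, δ j ≠ 0 → e j = e i := fun j hj => by
    by_cases h : j = i
    · rw [h]
    · exact absurd (hδj j h) hj
  have hub : ∀ j, u j ≠ 0 → e j = e i := fun j hj => by
    by_cases h : j = i
    · rw [h]
    · rw [huj j h] at hj; exact hv j hj
  have hgb : ∀ j, g j ≠ 0 → e j = e i := fun j hj => by
    by_cases h : j = i
    · rw [h]
    · rw [hgj j h] at hj; exact hf j hj
  have dδδ : δ ⬝ᵥ δ = 1 := by rw [hδ, single_dotProduct, one_mul, Pi.single_eq_same]
  have dδu : δ ⬝ᵥ u = 0 := by rw [hδ, single_dotProduct, one_mul, hui]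
  have dgδ : g ⬝ᵥ δ = 0 := by rw [hδ, dotProduct_single, mul_one, hgi]
  have dfv : f ⬝ᵥ v = 1 := hfv
  have dfδ : f ⬝ᵥ δ = f i := by rw [hδ, dotProduct_single, mul_one]
  have dgu : g ⬝ᵥ u = 1 - f i := by
    rw [hu, dotProduct_sub, dgδ, sub_zero, hg, sub_dotProduct, dfv, smul_dotProduct, hδ, single_dotProduct,
      one_mul, hvi, smul_eq_mul, mul_one]
  -- the matrices
  set m : Matrix ι ι ℂ := Matrix.vecMulVec u δ with hm
  set n : Matrix ι ι ℂ := Matrix.vecMulVec δ g with hn
  set E : Matrix ι ι ℂ := Matrix.single i i 1 with hE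
  have hE' : E = Matrix.vecMulVec δ δ := by
    rw [hE, hδ, Matrix.single_eq_single_vecMulVec_single]
  set b : Matrix ι ι ℂ := E + n with hb
  have hbv : b = Matrix.vecMulVec δ (δ + g) := by rw [hb, hE', hn, Matrix.vecMulVec_add]
  have hmm : m * m = 0 := by
    rw [hm, Matrix.vecMulVec_mul_vecMulVec, dδu, zero_smul, Matrix.vecMulVec_zero]
  have hmb : m * b = Matrix.vecMulVec u (δ + g) := by
    rw [hm, hbv, Matrix.vecMulVec_mul_vecMulVec, dδδ, one_smul]
  have hbm : b * m = (1 - f i) • Matrix.vecMulVec δ δ := by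
    rw [hm, hbv, Matrix.vecMulVec_mul_vecMulVec, add_dotProduct, dδu, dgu, zero_add, Matrix.vecMulVec_smul]
  have hmbm : m * b * m = (1 - f i) • Matrix.vecMulVec u δ := by
    rw [Matrix.mul_assoc, hbm, Matrix.mul_smul, hm, Matrix.vecMulVec_mul_vecMulVec, dδδ, one_smul]
  have hav' : a = b + m * b - b * m - m * b * m := by
    rw [hmbm, hmb, hbm, hbv, hav]
    have h1 : v = δ + u := by rw [hu]; abel
    have h2 : f = g + f i • δ := by rw [hg]; abel
    conv_lhs => rw [h1, h2]
    rw [Matrix.add_vecMulVec, Matrix.vecMulVec_add, Matrix.vecMulVec_add, Matrix.vecMulVec_add,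
      Matrix.vecMulVec_add, Matrix.vecMulVec_smul, Matrix.vecMulVec_smul]
    module
  have bE : IsBlk e E := EQ1_blk_single rfl
  have bn : IsBlk e n := EQ1_blk_vec hδb hgb
  have bm : IsBlk e m := EQ1_blk_vec hub hδb
  have bb : IsBlk e b := by
    rw [hbv]
    refine EQ1_blk_vec hδb fun j hj => ?_
    by_cases h : δ j = 0
    · rw [Pi.add_apply, h, zero_add] at hj; exact hgb j hj
    · exact hδb j h
  -- step 1: `fld b` is diagonalizable
  have hnil : DM.LocNil (fld D n) := by
    have h1 : fld D n = ∑ j ∈ Finset.univ.filter (fun j => j ≠ i ∧ e j = e i), g j • D.G i j := by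
      have h2 : fld D n = ∑ j, g j • D.G i j := by
        unfold fld
        rw [Finset.sum_eq_single i]
        · refine Finset.sum_congr rfl fun q _ => ?_
          rw [hn, Matrix.vecMulVec_apply, hδi, one_mul]
        · intro p _ hp
          refine Finset.sum_eq_zero fun q _ => ?_
          rw [hn, Matrix.vecMulVec_apply, hδj p hp, zero_mul, zero_smul]
        · intro h; exact absurd (Finset.mem_univ i) h
      rw [h2]
      symm
      refine Finset.sum_subset (Finset.subset_univ _) fun j _ hj => ?_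
      have hgj0 : g j = 0 := by
        by_contra hne
        refine hj (Finset.mem_filter.mpr ⟨Finset.mem_univ j, ?_, hgb j hne⟩)
        rintro rfl
        exact hne hgi
      rw [hgj0, zero_smul]
    rw [h1]
    refine hCOM L ι _ (fun j => D.G i j) g ?_ ?_
    · intro j hj k hk
      have hj' := (Finset.mem_filter.mp hj).2
      have hk' := (Finset.mem_filter.mp hk).2
      have h3 := hBRK ι e L D (Matrix.single i j 1) (Matrix.single i k 1) (EQ1_blk_single hj'.2.symm)
        (EQ1_blk_single hk'.2.symm)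
      rw [EQ1_fld_single, EQ1_fld_single] at h3
      have h4 : (Matrix.single i j (1 : ℂ)) * Matrix.single i k 1 - Matrix.single i k 1 * Matrix.single i j 1
          = 0 := by
        rw [Matrix.single_mul_single_of_ne _ _ _ _ hj'.1, Matrix.single_mul_single_of_ne _ _ _ _ hk'.1,
          sub_zero]
      rw [h4, EQ1_fld_zero, neg_zero, sub_eq_zero] at h3
      exact h3
    · intro j hj
      have hj' := (Finset.mem_filter.mp hj).2
      exact hD.nil i j (Ne.symm hj'.1) hj'.2.symm
  have hEn : E * n - n * E = n := by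
    rw [hE', hn, Matrix.vecMulVec_mul_vecMulVec, Matrix.vecMulVec_mul_vecMulVec, dδδ, dgδ, one_smul, zero_smul,
      Matrix.vecMulVec_zero, sub_zero]
  have hdE : DiagZ (fld D E) := by
    rw [hE, EQ1_fld_single]
    exact hD.diag i
  have hdb : DiagZ (fld D b) := by
    rw [hb, EQ1_fld_add]
    refine hDG1 L (fld D E) (fld D n) (-1) (by norm_num) hdE hnil ?_
    rw [hBRK ι e L D E n bE bn, hEn]
    simp
  -- step 2: conjugation
  have hnm : DM.LocNil (fld D m) := by
    have h2 : fld D m = ∑ j ∈ Finset.univ.filter (fun j => j ≠ i ∧ e j = e i), u j • D.G j i := by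
      have h3 : fld D m = ∑ j, u j • D.G j i := by
        unfold fld
        refine Finset.sum_congr rfl fun p _ => ?_
        rw [Finset.sum_eq_single i]
        · rw [hm, Matrix.vecMulVec_apply, hδi, mul_one]
        · intro q _ hq
          rw [hm, Matrix.vecMulVec_apply, hδj q hq, mul_zero, zero_smul]
        · intro h; exact absurd (Finset.mem_univ i) h
      rw [h3]
      symm
      refine Finset.sum_subset (Finset.subset_univ _) fun j _ hj => ?_
      have huj0 : u j = 0 := by
        by_contra hne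
        refine hj (Finset.mem_filter.mpr ⟨Finset.mem_univ j, ?_, hub j hne⟩)
        rintro rfl
        exact hne hui
      rw [huj0, zero_smul]
    rw [h2]
    refine hCOM L ι _ (fun j => D.G j i) u ?_ ?_
    · intro j hj k hk
      have hj' := (Finset.mem_filter.mp hj).2
      have hk' := (Finset.mem_filter.mp hk).2
      have h3 := hBRK ι e L D (Matrix.single j i 1) (Matrix.single k i 1) (EQ1_blk_single hj'.2)
        (EQ1_blk_single hk'.2)
      rw [EQ1_fld_single, EQ1_fld_single] at h3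
      have h4 : (Matrix.single j i (1 : ℂ)) * Matrix.single k i 1 - Matrix.single k i 1 * Matrix.single j i 1
          = 0 := by
        rw [Matrix.single_mul_single_of_ne _ _ _ _ (Ne.symm hk'.1),
          Matrix.single_mul_single_of_ne _ _ _ _ (Ne.symm hj'.1), sub_zero]
      rw [h4, EQ1_fld_zero, neg_zero, sub_eq_zero] at h3
      exact h3
    · intro j hj
      have hj' := (Finset.mem_filter.mp hj).2
      exact hD.nil j i hj'.1 hj'.2
  have hnM : DM.LocNil (-fld D m) := by
    intro w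
    obtain ⟨k, hk⟩ := hnm w
    refine ⟨k, ?_⟩
    rw [neg_pow, Module.End.mul_apply, hk, map_zero]
  have hbr : ∀ y : Matrix ι ι ℂ, IsBlk e y →
      (-fld D m) * fld D y - fld D y * (-fld D m) = fld D (m * y - y * m) := by
    intro y hy
    have h := hBRK ι e L D m y bm hy
    rw [neg_mul, mul_neg, sub_neg_eq_add, ← neg_inj, neg_add_rev, neg_neg, neg_add_eq_sub, h]
  have b1 : IsBlk e (m * b - b * m) := EQ1_blk_sub (EQ1_blk_mul bm bb) (EQ1_blk_mul bb bm)
  have b2 : IsBlk e (m * (m * b - b * m) - (m * b - b * m) * m) :=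
    EQ1_blk_sub (EQ1_blk_mul bm b1) (EQ1_blk_mul b1 bm)
  have key := hDG2 L (fld D b) (-fld D m) hdb hnM
  rw [hbr b bb, hbr _ b1, hbr _ b2, (EQ1_conj m b hmm).2, EQ1_fld_zero] at key
  have key2 := key rfl
  rw [← EQ1_fld_smul, ← EQ1_fld_add, ← EQ1_fld_add, (EQ1_conj m b hmm).1, ← hav'] at key2
  exact key2

end Pool.ABV
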