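import Pool.Agent.Work.MP_c20ce7_st.Interface

/-!
# Block EQ2 (helper69)
-/

set_option autoImplicit false

open MvPolynomial Pool.Agent.MPc20ce7

noncomputable section

namespace Pool.ABV

section EQ2aux

variable {ι : Type} [Fintype ι] [DecidableEq ι] {L : Type} [AddCommGroup L] [Module ℂ L]

lemma EQ2_fld_single {e : ι → ℝ} (D : DM.WMod (DM.Co e) L) (a b : ι) :
    fld D (Matrix.single a b 1) = D.G a b := by
  unfold fld
  rw [Finset.sum_eq_single a]
  · rw [Finset.sum_eq_single b]
    · rw [Matrix.single_apply_same, one_smul]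
    · intro q _ hq
      rw [Matrix.single_apply_of_ne _ _ _ _ _ (by tauto), zero_smul]
    · intro h
      exact absurd (Finset.mem_univ b) h
  · intro p _ hp
    refine Finset.sum_eq_zero fun q _ => ?_
    rw [Matrix.single_apply_of_ne _ _ _ _ _ (by tauto), zero_smul]
  · intro h
    exact absurd (Finset.mem_univ a) h

lemma EQ2_fld_add {e : ι → ℝ} (D : DM.WMod (DM.Co e) L) (a b : Matrix ι ι ℂ) :
    fld D (a + b) = fld D a + fld D b := by
  unfold fld
  rw [← Finset.sum_add_distrib]
  refine Finset.sum_congr rfl fun p _ => ?_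
  rw [← Finset.sum_add_distrib]
  refine Finset.sum_congr rfl fun q _ => ?_
  rw [Matrix.add_apply, add_smul]

lemma EQ2_blk {e : ι → ℝ} {a b : ι} (h : e a = e b) : IsBlk e (Matrix.single a b (1 : ℂ)) := by
  intro i j hij
  by_cases h1 : a = i ∧ b = j
  · rw [← h1.1, ← h1.2, h]
  · exact absurd (Matrix.single_apply_of_ne _ _ _ _ _ h1) hij

/-- `e_a f^T x e_a f^T = (f^T x e_a) e_a f^T` for the matrices `e_a f^T`. -/
lemma EQ2_sandwich (a : ι) (f : ι → ℂ) (x : Matrix ι ι ℂ) :
    (Matrix.vecMulVec (Pi.single a 1) f) * x * (Matrix.vecMulVec (Pi.single a 1) f) =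
      (f ⬝ᵥ (x.mulVec (Pi.single a 1))) • Matrix.vecMulVec (Pi.single a 1) f := by
  rw [Matrix.mul_assoc, Matrix.mul_vecMulVec, Matrix.vecMulVec_mul_vecMulVec, Matrix.vecMulVec_smul]

end EQ2aux

theorem p_EQ2 (hCEN : S_CEN) (hBRK : S_BRK) (hDG3 : S_DG3) : S_EQ2 := by
  intro W _ _ N ι _ _ e L _ _ D hD
  have hs : ∀ a b : ι, (Matrix.single a b (1 : ℂ)) = Matrix.vecMulVec (Pi.single a 1) (Pi.single b 1) := by
    intro a b
    ext i j
    simp only [Matrix.single_apply, Matrix.vecMulVec_apply, Pi.single_apply]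
    by_cases h1 : a = i
    · by_cases h2 : b = j
      · simp [h1, h2]
      · simp [h1, h2, Ne.symm h2]
    · simp [h1, Ne.symm h1]
  constructor
  · intro a
    have hp : IsPrim (AA (dgm N e)) (Matrix.single a a (1 : ℂ)) := by
      refine ⟨(hCEN W N ι e _).2 (EQ2_blk rfl), ?_, ?_⟩
      · rw [Matrix.single_mul_single_same, one_mul]
      · intro x _
        rw [hs]
        exact ⟨_, EQ2_sandwich a _ x⟩
    have h := hD _ hp
    rw [EQ2_fld_single] at h
    exact h
  · intro a b hab heab
    have hsum : Matrix.single a a (1 : ℂ) + Matrix.single a b 1 =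
        Matrix.vecMulVec (Pi.single a 1) (Pi.single a 1 + Pi.single b 1) := by
      rw [Matrix.vecMulVec_add, ← hs, ← hs]
    have hblk : IsBlk e (Matrix.single a a (1 : ℂ) + Matrix.single a b 1) := by
      intro i j hij
      by_contra hne
      apply hij
      rw [Matrix.add_apply]
      have h1 : Matrix.single a a (1 : ℂ) i j = 0 := by
        by_contra h
        exact hne (EQ2_blk (e := e) rfl i j h)
      have h2 : Matrix.single a b (1 : ℂ) i j = 0 := by
        by_contra h
        exact hne (EQ2_blk heab i j h)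
      rw [h1, h2, add_zero]
    have hp : IsPrim (AA (dgm N e)) (Matrix.single a a (1 : ℂ) + Matrix.single a b 1) := by
      refine ⟨(hCEN W N ι e _).2 hblk, ?_, ?_⟩
      · rw [mul_add, add_mul, add_mul, Matrix.single_mul_single_same, Matrix.single_mul_single_same,
          Matrix.single_mul_single_of_ne (h := hab.symm), Matrix.single_mul_single_of_ne (h := hab.symm)]
        simp
      · intro x _
        rw [hsum]
        exact ⟨_, EQ2_sandwich a _ x⟩
    have h1 : DiagZ (D.G a a) := by
      have hp1 : IsPrim (AA (dgm N e)) (Matrix.single a a (1 : ℂ)) := by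
        refine ⟨(hCEN W N ι e _).2 (EQ2_blk rfl), ?_, ?_⟩
        · rw [Matrix.single_mul_single_same, one_mul]
        · intro x _
          rw [hs]
          exact ⟨_, EQ2_sandwich a _ x⟩
      have h := hD _ hp1
      rwa [EQ2_fld_single] at h
    have h2 : DiagZ (D.G a a + D.G a b) := by
      have h := hD _ hp
      rwa [EQ2_fld_add, EQ2_fld_single, EQ2_fld_single] at h
    refine hDG3 L (D.G a a) (D.G a b) (-1) (by norm_num) h1 h2 ?_
    have h3 := hBRK ι e L D (Matrix.single a a (1 : ℂ)) (Matrix.single a b 1) (EQ2_blk rfl) (EQ2_blk heab)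
    rw [EQ2_fld_single, EQ2_fld_single, Matrix.single_mul_single_same,
      Matrix.single_mul_single_of_ne (h := hab.symm), sub_zero, one_mul, EQ2_fld_single] at h3
    rw [h3]
    simp

end Pool.ABV
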