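import Pool.Agent.Work.MP_c20ce7_st.Interface

/-!
# Block FCH: the vector field does not depend on the basis
-/

set_option autoImplicit false

open MvPolynomial Pool.Agent.MPc20ce7

noncomputable section

namespace Pool.ABV

theorem FCH_lin {V : Type} [AddCommGroup V] [Module ℂ V] {σ τ : Type} [Fintype σ] [Fintype τ]
    (b : Module.Basis σ ℂ V) (b' : Module.Basis τ ℂ V) (T : V →ₗ[ℂ] V) (v : V) (d' : σ) :
    ∑ k, ∑ k', b'.repr (T (b' k)) k' * (b'.repr v k * b.repr (b' k') d') = b.repr (T v) d' := by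
  have h1 : T v = ∑ k, b'.repr v k • T (b' k) := by
    conv_lhs => rw [← b'.sum_repr v]
    rw [map_sum]
    exact Finset.sum_congr rfl fun k _ => map_smul T _ _
  have h2 : ∀ k, b.repr (T (b' k)) d' = ∑ k', b'.repr (T (b' k)) k' * b.repr (b' k') d' := by
    intro k
    conv_lhs => rw [← b'.sum_repr (T (b' k))]
    rw [map_sum, Finsupp.finsetSum_apply]
    refine Finset.sum_congr rfl fun k' _ => ?_
    rw [map_smul, Finsupp.smul_apply, smul_eq_mul]
  rw [h1, map_sum, Finsupp.finsetSum_apply]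
  refine Finset.sum_congr rfl fun k _ => ?_
  rw [map_smul, Finsupp.smul_apply, smul_eq_mul, h2, Finset.mul_sum]
  refine Finset.sum_congr rfl fun k' _ => ?_
  ring

theorem FCH_swap {M : Type} [AddCommMonoid M] {κ ρ : Type} [Fintype κ] [Fintype ρ]
    (F : κ → κ → ρ → ρ → M) :
    ∑ k, ∑ k', ∑ d, ∑ d', F k k' d d' = ∑ d, ∑ d', ∑ k, ∑ k', F k k' d d' := by
  have h1 : ∀ k, ∑ k', ∑ d, ∑ d', F k k' d d' = ∑ d, ∑ d', ∑ k', F k k' d d' := by
    intro k
    rw [Finset.sum_comm]
    exact Finset.sum_congr rfl fun d _ => Finset.sum_comm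
  simp_rw [h1]
  rw [Finset.sum_comm]
  exact Finset.sum_congr rfl fun d _ => Finset.sum_comm

theorem p_FCH : S_FCH := by
  intro ι _ _ V σ τ _ _ _ _ b b' L _ _ D D' hx hd a ha
  let T : V →ₗ[ℂ] V :=
    { toFun := fun v => ⟨a * (v : Matrix ι ι ℂ) - (v : Matrix ι ι ℂ) * a, ha v v.2⟩
      map_add' := by
        intro v w
        apply Subtype.ext
        simp only [Submodule.coe_add]
        rw [mul_add, add_mul]
        abel
      map_smul' := by
        intro c v
        apply Subtype.ext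
        simp only [Submodule.coe_smul, RingHom.id_apply]
        rw [mul_smul_comm, smul_mul_assoc, smul_sub] }
  have hc : ∀ (c c' : σ), crd b (a * (b c : Matrix ι ι ℂ) - (b c : Matrix ι ι ℂ) * a) c' =
      b.repr (T (b c)) c' := by
    intro c c'
    exact dif_pos (ha _ (b c).2)
  have hc' : ∀ (c c' : τ), crd b' (a * (b' c : Matrix ι ι ℂ) - (b' c : Matrix ι ι ℂ) * a) c' =
      b'.repr (T (b' c)) c' := by
    intro c c'
    exact dif_pos (ha _ (b' c).2)
  unfold field
  simp_rw [hc, hc', hx, hd]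
  have e1 : ∀ k k' : τ, b'.repr (T (b' k)) k' •
      ((∑ d, b'.repr (b d) k • D.x (X d)) * (∑ d, b.repr (b' k') d • D.d (X d))) =
      ∑ d, ∑ d', (b'.repr (T (b' k)) k' * (b'.repr (b d) k * b.repr (b' k') d')) •
        (D.x (X d) * D.d (X d')) := by
    intro k k'
    rw [Finset.sum_mul_sum, Finset.smul_sum]
    refine Finset.sum_congr rfl fun d _ => ?_
    rw [Finset.smul_sum]
    refine Finset.sum_congr rfl fun d' _ => ?_
    rw [smul_mul_smul_comm, smul_smul]
  simp_rw [e1]
  rw [FCH_swap]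
  refine Finset.sum_congr rfl fun d _ => Finset.sum_congr rfl fun d' _ => ?_
  rw [← FCH_lin b b' T (b d) d', Finset.sum_smul]
  refine Finset.sum_congr rfl fun k _ => ?_
  rw [Finset.sum_smul]

end Pool.ABV
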