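import Pool.Agent.Work.MP_c20ce7_st.Interface

/-! Block FIN (helper47) -/

set_option autoImplicit false

open MvPolynomial Pool.Agent.MPc20ce7

noncomputable section

namespace Pool.ABV

theorem FIN_orb {ι : Type} [Fintype ι] [DecidableEq ι] {e : ι → ℝ} {φ : Par}
    (h : (DM.orb e φ).Nonempty) : (orbit e φ).Nonempty := by
  obtain ⟨x, hx⟩ := h
  exact ⟨_, hx⟩

/-- `ABV` in every coordinate system in which the orbit of `ψ` is not empty. -/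
theorem FIN_at (h4 : S_REI) (h6 : S_TRA) {ι : Type} [Fintype ι] [DecidableEq ι] {e : ι → ℝ} {φ ψ : Par}
    (h : DM.ABV φ ψ) (hψ : (orbit e ψ).Nonempty) : ABVat e φ ψ := by
  obtain ⟨κ, iκ, dκ, e', h1, h2, h3⟩ := h
  obtain ⟨τ, hτ⟩ := h4 κ ι e' e ψ (FIN_orb h2) hψ
  exact h6 κ ι e' e τ hτ φ ψ ⟨h1, h2, h3⟩

theorem p_FIN (h1 : S_REA) (h2 : S_ORB) (h3 : S_LRE) (h4 : S_REI) (h6 : S_TRA)
    (h7 : S_DI1) (h8 : S_DI2) : S_FIN := by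
  intro hQ W _ _ N hN
  apply hQ
  intro α φ φ' ψ hφ hφ' hψ hgeq hABV hABV' hL'
  -- a coordinate system
  obtain ⟨ι, iι, dι, e, hne', hcl⟩ := hgeq
  have hne : (orbit e φ).Nonempty := by
    by_contra hcon
    rw [Set.not_nonempty_iff_eq_empty] at hcon
    rw [hcon, closure_empty] at hcl
    exact hne'.ne_empty (Set.subset_empty_iff.1 hcl)
  -- the orbit of `ψ` is not empty there
  obtain ⟨κ, iκ, dκ, e₁, a1, a2, a3⟩ := hABV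
  obtain ⟨τ, hτ⟩ := h4 κ ι e₁ e φ (FIN_orb a1) hne
  have hat : ABVat e φ ψ := h6 κ ι e₁ e τ hτ φ ψ ⟨a1, a2, a3⟩
  have hneψ : (orbit e ψ).Nonempty := FIN_orb hat.2.1
  have hat' : ABVat e φ' ψ := FIN_at h4 h6 hABV' hneψ
  -- the parameters
  obtain ⟨Φ, hΦ, nΦ⟩ := h1 W N ι e φ hne
  obtain ⟨Φ', hΦ', nΦ'⟩ := h1 W N ι e φ' hne'
  obtain ⟨Ψ, hΨ, nΨ⟩ := h1 W N ι e ψ hneψ
  have oΦ := h2 W N ι e φ Φ hΦ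
  have oΦ' := h2 W N ι e φ' Φ' hΦ'
  have oΨ := h2 W N ι e ψ Ψ hΨ
  obtain ⟨Φα, lΦ, rΦ⟩ := h3 W N ι α e φ Φ hΦ nΦ
  obtain ⟨Φα', lΦ', rΦ'⟩ := h3 W N ι α e φ' Φ' hΦ' nΦ'
  obtain ⟨Ψα, lΨ, rΨ⟩ := h3 W N ι α e ψ Ψ hΨ nΨ
  have poΦ := h2 W N _ _ _ Φα rΦ
  have poΦ' := h2 W N _ _ _ Φα' rΦ'
  have poΨ := h2 W N _ _ _ Ψα rΨ
  have ne_of : ∀ (φ : Par) (Φ : LParam W (ι ⊕ Fin α)), Reals N (eL e α) φ Φ →
      (orbit (eL e α) φ).Nonempty := by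
    intro φ Φ h
    obtain ⟨-, l, hl, hc⟩ := h
    exact ⟨xp Φ, l, hl, hc⟩
  have q1 := ne_of _ _ rΦ
  have q2 := ne_of _ _ rΦ'
  have q3 := ne_of _ _ rΨ
  have hgeqN : Geq N Φ Φ' := by
    refine ⟨?_, ?_⟩
    · funext w
      rw [hΦ.1 w, hΦ'.1 w]
    · rw [oΦ, oΦ']
      exact hcl
  have hlift' : ABVat (eL e α) (lift α φ') (lift α ψ) := FIN_at h4 h6 hL' q3
  have key := hN ι α Φ Φ' Ψ Φα Φα' Ψα lΦ lΦ' lΨ hgeqN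
    (h7 W N ι e φ ψ Φ Ψ hΦ.1 hΨ.1 oΦ oΨ hat)
    (h7 W N ι e φ' ψ Φ' Ψ hΦ'.1 hΨ.1 oΦ' oΨ hat')
    (h7 W N _ _ _ _ Φα' Ψα rΦ'.1 rΨ.1 poΦ' poΨ hlift')
  obtain ⟨b1, b2, b3⟩ := h8 W N _ _ _ _ Φα Ψα rΦ.1 rΨ.1 poΦ poΨ q1 q3 key
  exact ⟨ι ⊕ Fin α, inferInstance, inferInstance, eL e α, b1, b2, b3⟩

end Pool.ABV
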