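import Pool.Agent.Work.MP_c20ce7_st.Interface

/-!
# Block `FLD`: the vector field of a block matrix in the standard basis
-/

set_option autoImplicit false

open MvPolynomial Pool.Agent.MPc20ce7

noncomputable section

namespace Pool.ABV

section

variable {ι : Type} {e : ι → ℝ} {L : Type} [AddCommGroup L] [Module ℂ L]

/-- A sum over the coordinates as a sum over all pairs. -/
theorem FLD_sum [Fintype ι] (F : ι → ι → Module.End ℂ L) (hF : ∀ i j, ¬ e i = e j + 1 → F i j = 0) :
    ∑ c : DM.Co e, F c.1.1 c.1.2 = ∑ i, ∑ j, F i j := by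
  classical
  rw [← Fintype.sum_prod_type']
  have h1 : ∑ p ∈ Finset.univ.filter (fun p : ι × ι => e p.1 = e p.2 + 1), F p.1 p.2 =
      ∑ c : DM.Co e, F c.1.1 c.1.2 :=
    Finset.sum_subtype (Finset.univ.filter (fun p : ι × ι => e p.1 = e p.2 + 1))
      (p := fun p : ι × ι => e p.1 = e p.2 + 1) (by simp) (fun p : ι × ι => F p.1 p.2)
  rw [← h1]
  refine Finset.sum_filter_of_ne ?_
  intro p _ hne
  by_contra hp
  exact hne (hF p.1 p.2 hp)

theorem FLD_x [DecidableEq ι] (D : DM.WMod (DM.Co e) L) (c : DM.Co e) : D.x (X c) = D.xo c.1.1 c.1.2 := by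
  obtain ⟨⟨i, j⟩, h⟩ := c
  unfold DM.WMod.xo
  rw [dif_pos h]

theorem FLD_d [DecidableEq ι] (D : DM.WMod (DM.Co e) L) (c : DM.Co e) : D.d (X c) = D.dO c.1.1 c.1.2 := by
  obtain ⟨⟨i, j⟩, h⟩ := c
  unfold DM.WMod.dO
  rw [dif_pos h]

theorem FLD_x0 [DecidableEq ι] (D : DM.WMod (DM.Co e) L) (i j : ι) (h : ¬ e i = e j + 1) : D.xo i j = 0 := by
  unfold DM.WMod.xo
  rw [dif_neg h]

theorem FLD_d0 [DecidableEq ι] (D : DM.WMod (DM.Co e) L) (i j : ι) (h : ¬ e i = e j + 1) : D.dO i j = 0 := by
  unfold DM.WMod.dO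
  rw [dif_neg h]

/-- The entries of the commutator with a matrix unit. -/
theorem FLD_entry [Fintype ι] [DecidableEq ι] (a : Matrix ι ι ℂ) (i j p q : ι) :
    (a * Matrix.single i j (1 : ℂ) - Matrix.single i j (1 : ℂ) * a) p q =
      (if j = q then a p i else 0) - (if i = p then a j q else 0) := by
  rw [Matrix.sub_apply]
  refine congrArg₂ (· - ·) ?_ ?_
  · rw [Matrix.mul_apply]
    rw [Finset.sum_eq_single i]
    · rw [Matrix.single_apply]
      by_cases h : j = q
      · simp [h]
      · simp [h]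
    · intro l _ hl
      rw [Matrix.single_apply, if_neg (fun h => hl h.1.symm), mul_zero]
    · intro h
      exact absurd (Finset.mem_univ i) h
  · rw [Matrix.mul_apply]
    rw [Finset.sum_eq_single j]
    · rw [Matrix.single_apply]
      by_cases h : i = p
      · simp [h]
      · simp [h]
    · intro l _ hl
      rw [Matrix.single_apply, if_neg (fun h => hl h.2.symm), zero_mul]
    · intro h
      exact absurd (Finset.mem_univ j) h

end

theorem p_FLD (hVVE : S_VVE) : S_FLD := by
  intro W _ _ N ι _ _ e b hb hcrd L _ _ D a ha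
  -- the commutator lies in `V`
  have hmem : ∀ c : DM.Co e, a * (b c : Matrix ι ι ℂ) - (b c : Matrix ι ι ℂ) * a ∈
      VV N (dgm N e) := by
    intro c
    rw [hVVE W N ι e]
    intro p q hpq
    rw [hb c, FLD_entry] at hpq
    have hc : e c.1.1 = e c.1.2 + 1 := c.2
    by_cases h1 : c.1.2 = q
    · by_cases h2 : c.1.1 = p
      · rw [← h1, ← h2]
        exact hc
      · rw [if_pos h1, if_neg h2, sub_zero] at hpq
        rw [ha p c.1.1 hpq, hc, h1]
    · by_cases h2 : c.1.1 = p
      · rw [if_neg h1, if_pos h2, zero_sub, neg_ne_zero] at hpq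
        rw [← ha c.1.2 q hpq, ← h2]
        exact hc
      · rw [if_neg h1, if_neg h2, sub_zero] at hpq
        exact absurd rfl hpq
  have h1 : field b D a = ∑ c : DM.Co e, ∑ c' : DM.Co e,
      ((if c.1.2 = c'.1.2 then a c'.1.1 c.1.1 else 0) -
        (if c.1.1 = c'.1.1 then a c.1.2 c'.1.2 else 0)) •
        (D.xo c.1.1 c.1.2 * D.dO c'.1.1 c'.1.2) := by
    unfold field
    refine Finset.sum_congr rfl fun c _ => Finset.sum_congr rfl fun c' _ => ?_
    rw [hcrd _ (hmem c) c', hb c, FLD_entry, FLD_x, FLD_d]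
  have h2 : ∀ i j : ι, ∑ c' : DM.Co e,
      ((if j = c'.1.2 then a c'.1.1 i else 0) - (if i = c'.1.1 then a j c'.1.2 else 0)) •
        (D.xo i j * D.dO c'.1.1 c'.1.2) =
      ∑ p, ∑ q, ((if j = q then a p i else 0) - (if i = p then a j q else 0)) •
        (D.xo i j * D.dO p q) := by
    intro i j
    refine FLD_sum (fun p q => ((if j = q then a p i else 0) - (if i = p then a j q else 0)) •
        (D.xo i j * D.dO p q)) ?_
    intro p q h
    show ((if j = q then a p i else 0) - (if i = p then a j q else 0)) •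
        (D.xo i j * D.dO p q) = 0
    rw [FLD_d0 D p q h, mul_zero, smul_zero]
  have h3 : field b D a = ∑ i, ∑ j, ∑ p, ∑ q,
      ((if j = q then a p i else 0) - (if i = p then a j q else 0)) •
        (D.xo i j * D.dO p q) := by
    rw [h1]
    have h4 : ∀ c : DM.Co e, ∑ c' : DM.Co e,
        ((if c.1.2 = c'.1.2 then a c'.1.1 c.1.1 else 0) -
          (if c.1.1 = c'.1.1 then a c.1.2 c'.1.2 else 0)) •
          (D.xo c.1.1 c.1.2 * D.dO c'.1.1 c'.1.2) =
        (fun i j => ∑ p, ∑ q, ((if j = q then a p i else 0) - (if i = p then a j q else 0)) •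
        (D.xo i j * D.dO p q)) c.1.1 c.1.2 := fun c => h2 c.1.1 c.1.2
    rw [Finset.sum_congr rfl fun c _ => h4 c]
    refine FLD_sum (fun i j => ∑ p, ∑ q, ((if j = q then a p i else 0) - (if i = p then a j q else 0)) •
        (D.xo i j * D.dO p q)) ?_
    intro i j h
    show ∑ p, ∑ q, ((if j = q then a p i else 0) - (if i = p then a j q else 0)) •
        (D.xo i j * D.dO p q) = 0
    refine Finset.sum_eq_zero fun p _ => Finset.sum_eq_zero fun q _ => ?_
    rw [FLD_x0 D i j h, zero_mul, smul_zero]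
  have h5 : ∀ i j : ι, ∑ p, ∑ q, ((if j = q then a p i else 0) - (if i = p then a j q else 0)) •
        (D.xo i j * D.dO p q) =
      ∑ p, a p i • (D.xo i j * D.dO p j) - ∑ q, a j q • (D.xo i j * D.dO i q) := by
    intro i j
    have h6 : ∀ p q, ((if j = q then a p i else 0) - (if i = p then a j q else 0)) •
        (D.xo i j * D.dO p q) =
        (if j = q then a p i • (D.xo i j * D.dO p q) else 0) -
        (if i = p then a j q • (D.xo i j * D.dO p q) else 0) := by
      intro p q
      rw [sub_smul, ite_smul, ite_smul, zero_smul]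
    simp only [h6, Finset.sum_sub_distrib]
    refine congrArg₂ (· - ·) ?_ ?_
    · refine Finset.sum_congr rfl fun p _ => ?_
      rw [Finset.sum_ite_eq, if_pos (Finset.mem_univ _)]
    · rw [Finset.sum_comm]
      refine Finset.sum_congr rfl fun q _ => ?_
      rw [Finset.sum_ite_eq, if_pos (Finset.mem_univ _)]
  rw [h3]
  simp only [h5, Finset.sum_sub_distrib]
  unfold fld DM.WMod.G
  simp only [smul_sub, Finset.smul_sum, Finset.sum_sub_distrib]
  refine congrArg₂ (· - ·) ?_ ?_
  · have h7 : ∀ i : ι, ∑ j, ∑ p, a p i • (D.xo i j * D.dO p j) =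
        ∑ p, ∑ j, a p i • (D.xo i j * D.dO p j) := fun i => Finset.sum_comm
    exact (Finset.sum_congr rfl fun i _ => h7 i).trans Finset.sum_comm
  · have h7 : ∀ p : ι, ∑ c, ∑ q, a p q • (D.xo c p * D.dO c q) =
        ∑ q, ∑ c, a p q • (D.xo c p * D.dO c q) := fun p => Finset.sum_comm
    exact Finset.sum_comm.trans (Finset.sum_congr rfl fun p _ => h7 p)

end Pool.ABV
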