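import Pool.Agent.Work.MP_c20ce7_st.Interface
import Pool.Agent.Work.MP_c20ce7_st.B_FIN
import Pool.Agent.Work.MP_c20ce7_nt.B_CJ
import Pool.Agent.Work.MP_c20ce7_nt.B_EQ

/-!
# The final step with explicit data (helper47)
-/

set_option autoImplicit false

open MvPolynomial Pool.Agent.MPc20ce7

noncomputable section

namespace Pool.ABV

/-- The negated form of Q1 for `GL_ι`: there are parameters `φ ≥_C φ'` and `π` (with the parameter `ψ`) in the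
packets of `φ` and `φ'` such that the theta lift of `π` is in the packet of `φ'_α` but not in the one of `φ_α`. -/
def Counterexample {W : Type} [Group W] [TopologicalSpace W] (N : Nrm W) (ι : Type) [Fintype ι] [DecidableEq ι]
    (α : ℕ) : Prop :=
  ∃ (φ φ' ψ : LParam W ι) (φα φα' ψα : LParam W (ι ⊕ Fin α)),
    IsLift N α φ φα ∧ IsLift N α φ' φα' ∧ IsLift N α ψ ψα ∧
      Geq N φ φ' ∧ InABV N φ ψ ∧ InABV N φ' ψ ∧ InABV N φα' ψα ∧ ¬ InABV N φα ψα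

theorem FN2_card : ∀ l : List (ℝ × ℕ), Fintype.card (Idx l) = dim (l : Par)
  | [] => by
    change Fintype.card Empty = _
    simp [dim]
  | p :: l => by
    have ih := FN2_card l
    change Fintype.card (Fin p.2 ⊕ Idx l) = _
    rw [Fintype.card_sum, Fintype.card_fin, ih]
    simp [dim]

theorem FN2_card' {ι κ : Type} [Fintype ι] [DecidableEq ι] [Fintype κ] [DecidableEq κ] {g : Matrix κ ι ℂ}
    {h : Matrix ι κ ℂ} (h1 : g * h = 1) (h2 : h * g = 1) : Fintype.card ι = Fintype.card κ := by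
  have e : (ι → ℂ) ≃ₗ[ℂ] (κ → ℂ) := LinearEquiv.ofLinear (Matrix.toLin' g) (Matrix.toLin' h)
    (by rw [← Matrix.toLin'_mul, h1, Matrix.toLin'_one]) (by rw [← Matrix.toLin'_mul, h2, Matrix.toLin'_one])
  have := e.finrank_eq
  simpa using this

theorem FN2 (h1 : S_REA) (h2 : S_ORB) (h3 : S_LRE) (h4 : S_REI) (h0 : S_TRO) (h5 : S_TRG) (h6 : S_TRA)
    (h7 : S_DI1) (h8 : S_DI2) (α n : ℕ) (φ φ' ψ : Par) (hn : dim φ = n) (hgeq : Agent.MPc20ce7.Geq φ φ')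
    (hABV : DM.ABV φ ψ) (hABV' : DM.ABV φ' ψ) (hL' : DM.ABV (lift α φ') (lift α ψ))
    (hL : ¬ DM.ABV (lift α φ) (lift α ψ)) (W : Type) [Group W] [TopologicalSpace W] (N : Nrm W) :
    Counterexample N (Fin n) α := by
  obtain ⟨ι₀, iι₀, dι₀, e₀, hne₀', hcl₀⟩ := hgeq
  have hne₀ : (orbit e₀ φ).Nonempty := by
    by_contra hcon
    rw [Set.not_nonempty_iff_eq_empty] at hcon
    rw [hcon, closure_empty] at hcl₀
    exact hne₀'.ne_empty (Set.subset_empty_iff.1 hcl₀)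
  -- the index set `Fin n`
  have hcard : Fintype.card ι₀ = n := by
    obtain ⟨x, l, hl, g, h, -, -, a1, a2, -⟩ := hne₀
    rw [← hn, ← hl, ← FN2_card l]
    exact FN2_card' a1 a2
  obtain ⟨τ₀⟩ : Nonempty (ι₀ ≃ Fin n) := ⟨Fintype.equivFinOfCardEq hcard⟩
  let e : Fin n → ℝ := fun a => e₀ (τ₀.symm a)
  have hτ₀ : ∀ i, e (τ₀ i) = e₀ i := fun i => by simp [e]
  have hne' : (orbit e φ').Nonempty := by
    obtain ⟨x, hx⟩ := hne₀'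
    refine ⟨x.submatrix τ₀.symm τ₀.symm, (h0 ι₀ (Fin n) e₀ e τ₀ hτ₀ φ' _).2 ?_⟩
    rw [Matrix.submatrix_submatrix]
    simpa using hx
  have hcl : orbit e φ' ⊆ closure (orbit e φ) := h5 ι₀ (Fin n) e₀ e τ₀ hτ₀ φ φ' hcl₀
  have hne : (orbit e φ).Nonempty := by
    by_contra hcon
    rw [Set.not_nonempty_iff_eq_empty] at hcon
    rw [hcon, closure_empty] at hcl
    exact hne'.ne_empty (Set.subset_empty_iff.1 hcl)
  -- the orbit of `ψ` is not empty there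
  obtain ⟨κ, iκ, dκ, e₁, a1, a2, a3⟩ := hABV
  obtain ⟨τ, hτ⟩ := h4 κ (Fin n) e₁ e φ (FIN_orb a1) hne
  have hat : ABVat e φ ψ := h6 κ (Fin n) e₁ e τ hτ φ ψ ⟨a1, a2, a3⟩
  have hneψ : (orbit e ψ).Nonempty := FIN_orb hat.2.1
  have hat' : ABVat e φ' ψ := FIN_at h4 h6 hABV' hneψ
  -- the parameters
  obtain ⟨Φ, hΦ, nΦ⟩ := h1 W N (Fin n) e φ hne
  obtain ⟨Φ', hΦ', nΦ'⟩ := h1 W N (Fin n) e φ' hne'
  obtain ⟨Ψ, hΨ, nΨ⟩ := h1 W N (Fin n) e ψ hneψ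
  have oΦ := h2 W N (Fin n) e φ Φ hΦ
  have oΦ' := h2 W N (Fin n) e φ' Φ' hΦ'
  have oΨ := h2 W N (Fin n) e ψ Ψ hΨ
  obtain ⟨Φα, lΦ, rΦ⟩ := h3 W N (Fin n) α e φ Φ hΦ nΦ
  obtain ⟨Φα', lΦ', rΦ'⟩ := h3 W N (Fin n) α e φ' Φ' hΦ' nΦ'
  obtain ⟨Ψα, lΨ, rΨ⟩ := h3 W N (Fin n) α e ψ Ψ hΨ nΨ
  have poΦ := h2 W N _ _ _ Φα rΦ
  have poΦ' := h2 W N _ _ _ Φα' rΦ'
  have poΨ := h2 W N _ _ _ Ψα rΨ
  have ne_of : ∀ (φ : Par) (Φ : LParam W (Fin n ⊕ Fin α)), Reals N (eL e α) φ Φ →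
      (orbit (eL e α) φ).Nonempty := by
    intro φ Φ h
    obtain ⟨-, l, hl, hc⟩ := h
    exact ⟨xp Φ, l, hl, hc⟩
  have q1 := ne_of _ _ rΦ
  have q3 := ne_of _ _ rΨ
  have hgeqN : Geq N Φ Φ' := by
    refine ⟨?_, ?_⟩
    · funext w
      rw [hΦ.1 w, hΦ'.1 w]
    · rw [oΦ, oΦ']
      exact hcl
  have hlift' : ABVat (eL e α) (lift α φ') (lift α ψ) := FIN_at h4 h6 hL' q3
  refine ⟨Φ, Φ', Ψ, Φα, Φα', Ψα, lΦ, lΦ', lΨ, hgeqN,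
    h7 W N _ e φ ψ Φ Ψ hΦ.1 hΨ.1 oΦ oΨ hat,
    h7 W N _ e φ' ψ Φ' Ψ hΦ'.1 hΨ.1 oΦ' oΨ hat',
    h7 W N _ _ _ _ Φα' Ψα rΦ'.1 rΨ.1 poΦ' poΨ hlift', fun key => hL ?_⟩
  obtain ⟨b1, b2, b3⟩ := h8 W N _ _ _ _ Φα Ψα rΦ.1 rΨ.1 poΦ poΨ q1 q3 key
  exact ⟨Fin n ⊕ Fin α, inferInstance, inferInstance, eL e α, b1, b2, b3⟩

end Pool.ABV
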