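import Pool.Agent.Work.MP_c20ce7_st.Interface

/-! # Block LC1: linear change of coordinates of a module over the Weyl algebra -/

set_option autoImplicit false

open MvPolynomial Pool.Agent.MPc20ce7

noncomputable section

namespace Pool.ABV

variable {σ τ : Type} [Fintype σ] [DecidableEq σ] [Fintype τ] [DecidableEq τ] {L : Type}
  [AddCommGroup L] [Module ℂ L]

theorem LC1_x (D : DM.WMod σ L) (a : σ → ℂ) :
    D.x (∑ d, C (a d) * X d) = ∑ d, a d • D.x (X d) := by
  rw [map_sum]
  refine Finset.sum_congr rfl fun d _ => ?_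
  rw [map_mul, D.x_C, smul_mul_assoc, one_mul]

theorem LC1_d (D : DM.WMod σ L) (a : σ → ℂ) :
    D.d (∑ d, C (a d) * X d) = ∑ d, a d • D.d (X d) := by
  rw [map_sum]
  refine Finset.sum_congr rfl fun d _ => ?_
  rw [map_mul, D.d_C, smul_mul_assoc, one_mul]

theorem LC1_comm (D : DM.WMod σ L) (a b : σ → ℂ) :
    (∑ d, a d • D.d (X d)) * (∑ d, b d • D.x (X d)) -
      (∑ d, b d • D.x (X d)) * (∑ d, a d • D.d (X d)) = (∑ d, a d * b d) • (1 : Module.End ℂ L) := by
  rw [Finset.sum_mul_sum, Finset.sum_mul_sum, Finset.sum_comm, ← Finset.sum_sub_distrib,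
    Finset.sum_smul]
  refine Finset.sum_congr rfl fun e _ => ?_
  rw [← Finset.sum_sub_distrib]
  have h1 : ∀ d ∈ (Finset.univ : Finset σ), a d • D.d (X d) * b e • D.x (X e) -
      b e • D.x (X e) * a d • D.d (X d) = (a d * b e) • (if d = e then (1 : Module.End ℂ L) else 0) := by
    intro d _
    rw [← D.comm d e, smul_mul_smul_comm, smul_mul_smul_comm, smul_sub, mul_comm (b e) (a d)]
  rw [Finset.sum_congr rfl h1]
  simp only [smul_ite, smul_zero]
  rw [Finset.sum_ite_eq']
  simp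

theorem LC1_sub (M : Matrix τ σ ℂ) (M' : Matrix σ τ ℂ) (f g : MvPolynomial τ ℂ) :
    sub M M' (rename Sum.inl f * rename Sum.inr g) =
      rename Sum.inl (aeval (fun c => ∑ d, C (M c d) * X d) f) *
        rename Sum.inr (aeval (fun c => ∑ d, C (M' d c) * X d) g) := by
  rw [map_mul]
  congr 1
  · have h : (sub M M').comp (rename Sum.inl) =
        (rename Sum.inl).comp (aeval (fun c => ∑ d, C (M c d) * X d)) := by
      ext c
      simp [sub]
    exact congrArg (fun F => F f) h
  · have h : (sub M M').comp (rename Sum.inr) =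
        (rename Sum.inr).comp (aeval (fun c => ∑ d, C (M' d c) * X d)) := by
      ext c
      simp [sub]
    exact congrArg (fun F => F g) h

theorem p_LC1 : S_LC1 := by
  intro σ τ _ _ _ _ M M' hMM _ L _ _ D
  let φ : MvPolynomial τ ℂ →ₐ[ℂ] MvPolynomial σ ℂ := aeval (fun c => ∑ d, C (M c d) * X d)
  let ψ : MvPolynomial τ ℂ →ₐ[ℂ] MvPolynomial σ ℂ := aeval (fun c => ∑ d, C (M' d c) * X d)
  have hcomm : ∀ i j : τ, (D.d.comp ψ) (X i) * (D.x.comp φ) (X j) -
      (D.x.comp φ) (X j) * (D.d.comp ψ) (X i) = if i = j then 1 else 0 := by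
    intro i j
    have e1 : (D.d.comp ψ) (X i) = ∑ d, M' d i • D.d (X d) := by
      show D.d (ψ (X i)) = _
      rw [show ψ (X i) = ∑ d, C (M' d i) * X d from aeval_X _ _]
      exact LC1_d D _
    have e2 : (D.x.comp φ) (X j) = ∑ d, M j d • D.x (X d) := by
      show D.x (φ (X j)) = _
      rw [show φ (X j) = ∑ d, C (M j d) * X d from aeval_X _ _]
      exact LC1_x D _
    rw [e1, e2, LC1_comm]
    have e3 : ∑ d, M' d i * M j d = (M * M') j i := by
      rw [Matrix.mul_apply]
      exact Finset.sum_congr rfl fun d _ => mul_comm _ _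
    rw [e3, hMM, Matrix.one_apply]
    by_cases h : i = j
    · rw [if_pos h, if_pos h.symm, one_smul]
    · rw [if_neg h, if_neg (fun h' => h h'.symm), zero_smul]
  refine ⟨⟨D.x.comp φ, D.d.comp ψ, hcomm⟩, fun g => rfl, fun g => rfl, fun P => ?_⟩
  refine DM.sum_ind (fun P => DM.WMod.nf ⟨D.x.comp φ, D.d.comp ψ, hcomm⟩ P = D.nf (sub M M' P))
    ?_ ?_ P
  · intro f g
    rw [DM.WMod.nf_mul, LC1_sub, DM.WMod.nf_mul]
    rfl
  · intro p q hp hq
    rw [map_add, map_add, map_add, hp, hq]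

end Pool.ABV
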