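import Pool.Agent.Work.MP_c20ce7_st.Interface

/-! Block LC2 (helper58): the substitution of symbols respects the order filtration. -/

set_option autoImplicit false

open MvPolynomial Pool.Agent.MPc20ce7

noncomputable section

namespace Pool.ABV

section

variable {σ τ : Type} [Fintype σ] [DecidableEq σ] [Fintype τ] [DecidableEq τ]

theorem LC2_X (M : Matrix τ σ ℂ) (M' : Matrix σ τ ℂ) (i : τ ⊕ τ) :
    IsWeightedHomogeneous (DM.wt σ) (sub M M' (X i)) (DM.wt τ i) := by
  unfold sub
  rw [aeval_X]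
  rcases i with c | c
  · rw [Sum.elim_inl]
    refine IsWeightedHomogeneous.sum _ _ _ fun d _ => ?_
    exact (isWeightedHomogeneous_X ℂ (DM.wt σ) (Sum.inl d)).C_mul (M c d)
  · rw [Sum.elim_inr]
    refine IsWeightedHomogeneous.sum _ _ _ fun d _ => ?_
    exact (isWeightedHomogeneous_X ℂ (DM.wt σ) (Sum.inr d)).C_mul (M' d c)

theorem LC2_mon (M : Matrix τ σ ℂ) (M' : Matrix σ τ ℂ) (s : τ ⊕ τ →₀ ℕ) (a : ℂ) :
    IsWeightedHomogeneous (DM.wt σ) (sub M M' (monomial s a)) (Finsupp.weight (DM.wt τ) s) := by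
  have h1 : sub M M' (monomial s a) = C a * ∏ i ∈ s.support, (sub M M' (X i)) ^ (s i) := by
    rw [monomial_eq, map_mul, Finsupp.prod, map_prod]
    congr 1
    · exact AlgHom.commutes _ a
    · exact Finset.prod_congr rfl fun i _ => map_pow _ _ _
  rw [h1, Finsupp.weight_apply, Finsupp.sum]
  exact (IsWeightedHomogeneous.prod _ _ _ fun i _ => (LC2_X M M' i).pow (s i)).C_mul a

theorem LC2_one (M : Matrix τ σ ℂ) (M' : Matrix σ τ ℂ) (m : ℕ) (P : MvPolynomial (τ ⊕ τ) ℂ) :
    weightedHomogeneousComponent (DM.wt σ) m (sub M M' P) =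
      sub M M' (weightedHomogeneousComponent (DM.wt τ) m P) := by
  classical
  induction P using MvPolynomial.induction_on' with
  | monomial s a =>
    rw [weightedHomogeneousComponent_of_mem (LC2_mon M M' s a),
      weightedHomogeneousComponent_of_mem
        (isWeightedHomogeneous_monomial (DM.wt τ) s a rfl)]
    by_cases h : m = Finsupp.weight (DM.wt τ) s
    · rw [if_pos h, if_pos h]
    · rw [if_neg h, if_neg h, map_zero]
  | add p q hp hq => rw [map_add, map_add, map_add, map_add, hp, hq]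

theorem LC2_eval (M : Matrix τ σ ℂ) (M' : Matrix σ τ ℂ) (v ξ : σ → ℂ)
    (P : MvPolynomial (τ ⊕ τ) ℂ) :
    eval (Sum.elim v ξ) (sub M M' P) =
      eval (Sum.elim (M.mulVec v) (Matrix.vecMul ξ M')) P := by
  induction P using MvPolynomial.induction_on with
  | C a =>
    have h1 : sub M M' (C a) = C a := AlgHom.commutes _ a
    rw [h1, eval_C, eval_C]
  | add p q hp hq => rw [map_add, map_add, map_add, hp, hq]
  | mul_X p i hp =>
    rw [map_mul, map_mul, map_mul, hp, eval_X]
    congr 1
    unfold sub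
    rw [aeval_X]
    rcases i with c | c
    · rw [Sum.elim_inl, Sum.elim_inl, map_sum]
      refine Finset.sum_congr rfl fun d _ => ?_
      rw [map_mul, eval_C, eval_X, Sum.elim_inl]
    · rw [Sum.elim_inr, Sum.elim_inr, map_sum]
      refine Finset.sum_congr rfl fun d _ => ?_
      rw [map_mul, eval_C, eval_X, Sum.elim_inr, mul_comm]

end

theorem p_LC2 : S_LC2 := by
  intro σ τ _ _ _ _ M M' m P
  refine ⟨LC2_one M M' m P, fun h => ?_, fun v ξ => LC2_eval M M' v ξ P⟩
  classical
  refine Finset.sup_le fun d hd => ?_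
  by_contra hc
  push Not at hc
  have h1 : weightedHomogeneousComponent (DM.wt τ) (Finsupp.weight (DM.wt σ) d) P = 0 :=
    weightedHomogeneousComponent_eq_zero _ _ (lt_of_le_of_lt h hc)
  have h2 := LC2_one M M' (Finsupp.weight (DM.wt σ) d) P
  rw [h1, map_zero] at h2
  have h3 := congrArg (coeff d) h2
  rw [coeff_weightedHomogeneousComponent, if_pos rfl, coeff_zero] at h3
  exact (MvPolynomial.mem_support_iff.1 hd) h3

end Pool.ABV
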