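import Pool.Agent.Work.MP_c20ce7_st.Interface

/-! # Block LC3: linear changes of coordinates -/

set_option autoImplicit false

open MvPolynomial Pool.Agent.MPc20ce7

noncomputable section

namespace Pool.ABV

section

variable {σ τ : Type} [Fintype σ] [DecidableEq σ] [Fintype τ] [DecidableEq τ]

theorem LC3_card (M : Matrix τ σ ℂ) (M' : Matrix σ τ ℂ) (h : M * M' = 1) (h' : M' * M = 1) :
    Fintype.card τ = Fintype.card σ := by
  have e : (σ → ℂ) ≃ₗ[ℂ] (τ → ℂ) :=
    LinearEquiv.ofLinear (Matrix.toLin' M) (Matrix.toLin' M')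
      (by rw [← Matrix.toLin'_mul, h, Matrix.toLin'_one])
      (by rw [← Matrix.toLin'_mul, h', Matrix.toLin'_one])
  have h1 := e.finrank_eq
  rw [Module.finrank_fintype_fun_eq_card, Module.finrank_fintype_fun_eq_card] at h1
  exact h1.symm

theorem LC3_eval (M : Matrix τ σ ℂ) (v : σ → ℂ) (g : MvPolynomial τ ℂ) :
    eval v (aeval (fun c => ∑ d, C (M c d) * X d) g : MvPolynomial σ ℂ) = eval (M.mulVec v) g := by
  induction g using MvPolynomial.induction_on with
  | C a => simp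
  | add p q hp hq => rw [map_add, map_add, map_add, hp, hq]
  | mul_X p c hp =>
    rw [map_mul, map_mul, map_mul, hp, aeval_X, eval_X, map_sum]
    simp [Matrix.mulVec, dotProduct]

variable {L : Type} [AddCommGroup L] [Module ℂ L]

theorem LC3_sum (M : Matrix τ σ ℂ) (M' : Matrix σ τ ℂ) (h' : M' * M = 1)
    (a : σ → Module.End ℂ L) (b : τ → Module.End ℂ L) (hb : ∀ c, b c = ∑ d, M c d • a d) (d : σ) :
    a d = ∑ c, M' d c • b c := by
  have h1 : ∑ c, M' d c • b c = ∑ d', (M' * M) d d' • a d' := by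
    simp only [hb, Finset.smul_sum, smul_smul, Matrix.mul_apply, Finset.sum_smul]
    rw [Finset.sum_comm]
  rw [h1, h']
  simp [Matrix.one_apply]

theorem LC3_mem (N : Submodule ℂ L) {κ : Type} [Fintype κ] (s : κ → ℂ) (a : κ → Module.End ℂ L)
    (u : L) (h : ∀ d, a d u ∈ N) : (∑ d, s d • a d) u ∈ N := by
  rw [LinearMap.sum_apply]
  exact Submodule.sum_mem _ fun d _ => by
    rw [LinearMap.smul_apply]
    exact Submodule.smul_mem _ _ (h d)

end

theorem p_LC3 (h1 : S_LC1) (h2 : S_LC2) : S_LC3 := by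
  intro σ τ _ _ _ _ M M' hM hM' L _ _ D
  obtain ⟨D', hx, hd, hn⟩ := h1 σ τ M M' hM hM' L D
  have ex : ∀ c, D'.x (X c) = ∑ d, M c d • D.x (X d) := by
    intro c
    rw [hx, aeval_X, map_sum]
    refine Finset.sum_congr rfl fun d _ => ?_
    rw [map_mul, DM.WMod.x_C, smul_mul_assoc, one_mul]
  have ed : ∀ c, D'.d (X c) = ∑ d, M' d c • D.d (X d) := by
    intro c
    rw [hd, aeval_X, map_sum]
    refine Finset.sum_congr rfl fun d _ => ?_
    rw [map_mul, DM.WMod.d_C, smul_mul_assoc, one_mul]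
  have fx : ∀ d, D.x (X d) = ∑ c, M' d c • D'.x (X c) :=
    LC3_sum M M' hM' (fun d => D.x (X d)) (fun c => D'.x (X c)) ex
  have hT : M.transpose * M'.transpose = 1 := by
    rw [← Matrix.transpose_mul, hM', Matrix.transpose_one]
  have fd : ∀ d, D.d (X d) = ∑ c, M c d • D'.d (X c) :=
    LC3_sum M'.transpose M.transpose hT (fun d => D.d (X d)) (fun c => D'.d (X c)) ed
  refine ⟨D', ex, ed, ?_, ?_, ?_, ?_⟩
  · rintro ⟨-, hne, hmin⟩
    refine ⟨fun u _ => ⟨fun _ => Submodule.mem_top, fun _ => Submodule.mem_top⟩, hne, ?_⟩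
    intro N hN hle
    refine hmin N (fun u hu => ⟨fun i => ?_, fun i => ?_⟩) hle
    · rw [fx]
      exact LC3_mem N _ _ u fun c => (hN u hu).1 c
    · rw [fd]
      exact LC3_mem N _ _ u fun c => (hN u hu).2 c
  · rintro ⟨G, c, hG⟩
    refine ⟨G, c, ⟨hG.mono, hG.fin, ?_, ?_, hG.exh, ?_⟩⟩
    · intro k i u hu
      rw [ex]
      exact LC3_mem _ _ _ u fun d => hG.hx k d u hu
    · intro k i u hu
      rw [ed]
      exact LC3_mem _ _ _ u fun d => hG.hd k d u hu
    · rw [LC3_card M M' hM hM']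
      exact hG.bound
  · intro C hC g
    have h3 := hC (aeval (fun c => ∑ d, MvPolynomial.C (M c d) * X d) g)
    rw [← hx] at h3
    rw [← h3]
    constructor
    · intro h x hxC
      rw [LC3_eval]
      exact h _ ⟨x, hxC, rfl⟩
    · rintro h _ ⟨x, hxC, rfl⟩
      rw [← LC3_eval]
      exact h x hxC
  · intro v ξ h u hu m P hP hPu
    obtain ⟨e1, e2, _⟩ := h2 σ τ M M' m P
    rw [hn] at hPu
    have h4 := h u hu m (sub M M' P) (e2 hP) hPu
    rw [e1, (h2 σ τ M M' m _).2.2] at h4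
    exact h4

end Pool.ABV
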