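import Pool.Agent.Work.MP_c20ce7_st.Interface

/-! # Block LFE: the lift is an L-parameter (helper5) -/

set_option autoImplicit false

open MvPolynomial Pool.Agent.MPc20ce7

noncomputable section

namespace Pool.ABV

/-- The matrices of the lift. -/
def LFE_hom {W : Type} [Group W] [TopologicalSpace W] (N : Nrm W) {ι : Type} [Fintype ι] [DecidableEq ι]
    (α : ℕ) (f : W × SL2 →* GL ι ℂ) : W × SL2 →* Matrix (ι ⊕ Fin α) (ι ⊕ Fin α) ℂ where
  toFun p := Matrix.fromBlocks (Matrix.transpose ((f p)⁻¹ : GL ι ℂ) : Matrix ι ι ℂ) 0 0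
      (Matrix.diagonal fun i : Fin α => (((N.abs p.1) ^ (((α : ℝ) - 1) / 2 - (i : ℕ)) : ℝ) : ℂ))
  map_one' := by
    have h1 : (Matrix.transpose ((f 1)⁻¹ : GL ι ℂ) : Matrix ι ι ℂ) = 1 := by
      rw [map_one, inv_one, Units.val_one, Matrix.transpose_one]
    have h2 : (Matrix.diagonal fun i : Fin α =>
        (((N.abs (1 : W × SL2).1) ^ (((α : ℝ) - 1) / 2 - (i : ℕ)) : ℝ) : ℂ)) = 1 := by
      rw [← Matrix.diagonal_one]
      congr 1
      funext i
      rw [Prod.fst_one, map_one, Real.one_rpow, Complex.ofReal_one]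
    rw [h1, h2, Matrix.fromBlocks_one]
  map_mul' p q := by
    have h1 : (Matrix.transpose ((f (p * q))⁻¹ : GL ι ℂ) : Matrix ι ι ℂ)
        = (Matrix.transpose ((f p)⁻¹ : GL ι ℂ) : Matrix ι ι ℂ) *
          (Matrix.transpose ((f q)⁻¹ : GL ι ℂ) : Matrix ι ι ℂ) := by
      rw [map_mul, mul_inv_rev, Units.val_mul, Matrix.transpose_mul]
    have h2 : (Matrix.diagonal fun i : Fin α =>
        (((N.abs (p * q).1) ^ (((α : ℝ) - 1) / 2 - (i : ℕ)) : ℝ) : ℂ))
        = (Matrix.diagonal fun i : Fin α =>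
            (((N.abs p.1) ^ (((α : ℝ) - 1) / 2 - (i : ℕ)) : ℝ) : ℂ)) *
          (Matrix.diagonal fun i : Fin α =>
            (((N.abs q.1) ^ (((α : ℝ) - 1) / 2 - (i : ℕ)) : ℝ) : ℂ)) := by
      rw [Matrix.diagonal_mul_diagonal]
      congr 1
      funext i
      rw [Prod.fst_mul, map_mul, Real.mul_rpow (N.pos _).le (N.pos _).le, Complex.ofReal_mul]
    rw [h1, h2, Matrix.fromBlocks_multiply]
    simp only [Matrix.mul_zero, Matrix.zero_mul, add_zero, zero_add]

theorem LFE_hom_apply {W : Type} [Group W] [TopologicalSpace W] (N : Nrm W) {ι : Type} [Fintype ι]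
    [DecidableEq ι] (α : ℕ) (f : W × SL2 →* GL ι ℂ) (p : W × SL2) :
    LFE_hom N α f p = Matrix.fromBlocks (Matrix.transpose ((f p)⁻¹ : GL ι ℂ) : Matrix ι ι ℂ) 0 0
      (Matrix.diagonal fun i : Fin α => (((N.abs p.1) ^ (((α : ℝ) - 1) / 2 - (i : ℕ)) : ℝ) : ℂ)) :=
  rfl

theorem LFE_inv (g : SL2) (p : Fin 2 × Fin 2) :
    ((g⁻¹ : SL2) : Matrix (Fin 2) (Fin 2) ℂ) p.1 p.2 =
      eval (fun q : Fin 2 × Fin 2 => (g : Matrix (Fin 2) (Fin 2) ℂ) q.1 q.2)
        ((!![X (1, 1), - X (0, 1); - X (1, 0), X (0, 0)] :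
          Matrix (Fin 2) (Fin 2) (MvPolynomial (Fin 2 × Fin 2) ℂ)) p.1 p.2) := by
  rw [Matrix.SpecialLinearGroup.coe_inv, Matrix.adjugate_fin_two]
  rcases p with ⟨i, j⟩
  fin_cases i <;> fin_cases j <;> simp

theorem p_LFE (hSSD : S_SSD) : S_LFE := by
  intro W _ _ N ι _ _ α Φ hN
  obtain ⟨g, h, c, hgh, hhg, hc⟩ := hN
  obtain ⟨P, hP⟩ := Φ.algebraic
  refine ⟨{ hom := (LFE_hom N α Φ.hom).toHomUnits, cont := ?_, semisimple := ?_, algebraic := ?_ }, ?_⟩
  · -- continuity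
    simp only [MonoidHom.coe_toHomUnits, LFE_hom_apply]
    refine Continuous.matrix_fromBlocks ?_ continuous_const continuous_const ?_
    · refine Continuous.matrix_transpose ?_
      have e : (fun w : W => (((Φ.hom (w, 1))⁻¹ : GL ι ℂ) : Matrix ι ι ℂ)) = fun w : W =>
          ((Φ.hom (w, 1) : Matrix ι ι ℂ).det)⁻¹ • (Φ.hom (w, 1) : Matrix ι ι ℂ).adjugate := by
        funext w
        rw [Matrix.coe_units_inv, Matrix.inv_def, Ring.inverse_eq_inv']
      rw [e]
      refine Continuous.smul (Continuous.inv₀ Φ.cont.matrix_det fun w => ?_) Φ.cont.matrix_adjugate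
      exact ((Matrix.isUnit_iff_isUnit_det _).1 (Units.isUnit (Φ.hom (w, 1)))).ne_zero
    · refine Continuous.matrix_diagonal ?_
      refine continuous_pi fun i => ?_
      exact Complex.continuous_ofReal.comp
        (N.cont.rpow_const fun w => Or.inl (N.pos w).ne')
  · -- semisimple
    intro w
    rw [MonoidHom.coe_toHomUnits, LFE_hom_apply]
    have e1 : (((Φ.hom (w, 1))⁻¹ : GL ι ℂ) : Matrix ι ι ℂ) = h * Matrix.diagonal (c w⁻¹) * g := by
      rw [← hc w⁻¹, ← map_inv, Prod.inv_mk, inv_one]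
    rw [e1]
    have e2 : Matrix.fromBlocks (Matrix.transpose (h * Matrix.diagonal (c w⁻¹) * g)) 0 0
        (Matrix.diagonal fun i : Fin α =>
          (((N.abs (w, (1 : SL2)).1) ^ (((α : ℝ) - 1) / 2 - (i : ℕ)) : ℝ) : ℂ))
        = Matrix.fromBlocks g.transpose 0 0 (1 : Matrix (Fin α) (Fin α) ℂ) *
          Matrix.diagonal (Sum.elim (c w⁻¹) fun i : Fin α =>
            (((N.abs (w, (1 : SL2)).1) ^ (((α : ℝ) - 1) / 2 - (i : ℕ)) : ℝ) : ℂ)) *
          Matrix.fromBlocks h.transpose 0 0 (1 : Matrix (Fin α) (Fin α) ℂ) := by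
      rw [← Matrix.fromBlocks_diagonal, Matrix.fromBlocks_multiply, Matrix.fromBlocks_multiply]
      simp only [Matrix.mul_zero, Matrix.zero_mul, add_zero, zero_add, Matrix.mul_one, Matrix.one_mul]
      rw [Matrix.transpose_mul, Matrix.transpose_mul, Matrix.diagonal_transpose, Matrix.mul_assoc]
    rw [e2]
    refine hSSD _ _ _ _ _ ?_ ?_
    · rw [Matrix.fromBlocks_multiply]
      simp only [Matrix.mul_zero, Matrix.zero_mul, add_zero, zero_add, Matrix.mul_one]
      rw [← Matrix.transpose_mul, hgh, Matrix.transpose_one, Matrix.fromBlocks_one]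
    · rw [Matrix.fromBlocks_multiply]
      simp only [Matrix.mul_zero, Matrix.zero_mul, add_zero, zero_add, Matrix.mul_one]
      rw [← Matrix.transpose_mul, hhg, Matrix.transpose_one, Matrix.fromBlocks_one]
  · -- algebraic
    refine ⟨fun a b => Sum.elim
      (fun i => Sum.elim (fun j => bind₁ (fun p : Fin 2 × Fin 2 =>
        (!![X (1, 1), - X (0, 1); - X (1, 0), X (0, 0)] :
          Matrix (Fin 2) (Fin 2) (MvPolynomial (Fin 2 × Fin 2) ℂ)) p.1 p.2) (P j i)) (fun _ => 0) b)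
      (fun i => Sum.elim (fun _ => 0) (fun j => if i = j then 1 else 0) b) a, ?_⟩
    intro s a b
    rw [MonoidHom.coe_toHomUnits, LFE_hom_apply]
    rcases a with a | a <;> rcases b with b | b
    · simp only [Matrix.fromBlocks_apply₁₁, Matrix.transpose_apply, Sum.elim_inl]
      have e1 : (((Φ.hom (1, s))⁻¹ : GL ι ℂ) : Matrix ι ι ℂ) = (Φ.hom (1, s⁻¹) : Matrix ι ι ℂ) := by
        rw [← map_inv, Prod.inv_mk, inv_one]
      rw [e1, hP s⁻¹ b a]
      show eval₂Hom (RingHom.id ℂ) _ (P b a) = eval₂Hom (RingHom.id ℂ) _ (bind₁ _ (P b a))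
      rw [eval₂Hom_bind₁]
      congr 2
      funext p
      exact LFE_inv s p
    · simp
    · simp
    · simp only [Matrix.fromBlocks_apply₂₂, Sum.elim_inr]
      by_cases hab : a = b
      · rw [hab, Matrix.diagonal_apply_eq, if_pos rfl, map_one, map_one, Real.one_rpow,
          Complex.ofReal_one]
      · rw [Matrix.diagonal_apply_ne _ hab, if_neg hab, map_zero]
  · intro w s
    show (((LFE_hom N α Φ.hom).toHomUnits (w, s) : GL (ι ⊕ Fin α) ℂ) :
      Matrix (ι ⊕ Fin α) (ι ⊕ Fin α) ℂ) = _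
    rw [MonoidHom.coe_toHomUnits, LFE_hom_apply]

end Pool.ABV
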