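import Pool.Agent.Work.MP_c20ce7_st.Interface

/-! Block LFX (helper58): the infinitesimal parameter and the nilpotent matrix of the lift. -/

set_option autoImplicit false

open MvPolynomial Pool.Agent.MPc20ce7

noncomputable section

namespace Pool.ABV

theorem LFX_un (t : ℂ) : (un t)⁻¹ = un (-t) := by
  apply inv_eq_of_mul_eq_one_right
  ext i j
  fin_cases i <;> fin_cases j <;> simp [un, Matrix.mul_apply, Fin.sum_univ_two]

theorem p_LFX : S_LFX := by
  intro W _ _ N ι _ _ α e Φ Φα hlam hL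
  refine ⟨fun w => ?_, ?_⟩
  · have h1 : (((Φ.hom (w, dg N w))⁻¹ : GL ι ℂ) : Matrix ι ι ℂ) = dgm N (fun i => - e i) w := by
      apply Units.inv_eq_of_mul_eq_one_right
      have h2 : ((Φ.hom (w, dg N w) : GL ι ℂ) : Matrix ι ι ℂ) = dgm N e w := hlam w
      rw [h2]
      unfold dgm
      rw [Matrix.diagonal_mul_diagonal, ← Matrix.diagonal_one]
      congr 1
      funext i
      rw [← Complex.ofReal_mul, ← Real.rpow_add (N.pos w), add_neg_cancel, Real.rpow_zero]
      simp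
    unfold lam
    rw [hL w (dg N w), h1]
    unfold dgm
    rw [Matrix.diagonal_transpose, Matrix.fromBlocks_diagonal]
    congr 1
    funext x
    rcases x with i | i <;> rfl
  · have h3 : ∀ t : ℂ, (((Φ.hom (1, un t))⁻¹ : GL ι ℂ) : Matrix ι ι ℂ) =
        ((Φ.hom (1, un (-t)) : GL ι ℂ) : Matrix ι ι ℂ) := fun t => by
      rw [← map_inv]
      congr 3
      rw [← LFX_un]
      exact Prod.ext (by simp) rfl
    funext a b
    rcases a with i | i <;> rcases b with j | j
    · rw [Matrix.fromBlocks_apply₁₁]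
      have h4 : (fun t : ℂ => ((Φα.hom (1, un t) : GL (ι ⊕ Fin α) ℂ) :
          Matrix (ι ⊕ Fin α) (ι ⊕ Fin α) ℂ) (Sum.inl i) (Sum.inl j)) =
          fun t : ℂ => (fun s : ℂ => ((Φ.hom (1, un s) : GL ι ℂ) : Matrix ι ι ℂ) j i) (-t) := by
        funext t
        rw [hL 1 (un t), Matrix.fromBlocks_apply₁₁, Matrix.transpose_apply, h3]
      rw [Matrix.neg_apply, Matrix.transpose_apply]
      have h5 := deriv_comp_neg
        (fun s : ℂ => ((Φ.hom (1, un s) : GL ι ℂ) : Matrix ι ι ℂ) j i) 0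
      rw [neg_zero] at h5
      have h6 : xp Φα (Sum.inl i) (Sum.inl j) = deriv (fun t : ℂ => ((Φα.hom (1, un t) :
          GL (ι ⊕ Fin α) ℂ) : Matrix (ι ⊕ Fin α) (ι ⊕ Fin α) ℂ) (Sum.inl i) (Sum.inl j)) 0 := rfl
      rw [h6, h4]
      exact h5
    · rw [Matrix.fromBlocks_apply₁₂]
      have h4 : (fun t : ℂ => ((Φα.hom (1, un t) : GL (ι ⊕ Fin α) ℂ) :
          Matrix (ι ⊕ Fin α) (ι ⊕ Fin α) ℂ) (Sum.inl i) (Sum.inr j)) = fun _ => 0 := by
        funext t
        rw [hL 1 (un t), Matrix.fromBlocks_apply₁₂, Matrix.zero_apply]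
      unfold xp
      rw [h4, deriv_const, Matrix.zero_apply]
    · rw [Matrix.fromBlocks_apply₂₁]
      have h4 : (fun t : ℂ => ((Φα.hom (1, un t) : GL (ι ⊕ Fin α) ℂ) :
          Matrix (ι ⊕ Fin α) (ι ⊕ Fin α) ℂ) (Sum.inr i) (Sum.inl j)) = fun _ => 0 := by
        funext t
        rw [hL 1 (un t), Matrix.fromBlocks_apply₂₁, Matrix.zero_apply]
      unfold xp
      rw [h4, deriv_const, Matrix.zero_apply]
    · rw [Matrix.fromBlocks_apply₂₂]
      have h4 : (fun t : ℂ => ((Φα.hom (1, un t) : GL (ι ⊕ Fin α) ℂ) :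
          Matrix (ι ⊕ Fin α) (ι ⊕ Fin α) ℂ) (Sum.inr i) (Sum.inr j)) =
          fun _ => (Matrix.diagonal fun i : Fin α =>
            (((N.abs 1) ^ (((α : ℝ) - 1) / 2 - (i : ℕ)) : ℝ) : ℂ)) i j := by
        funext t
        rw [hL 1 (un t), Matrix.fromBlocks_apply₂₂]
      unfold xp
      rw [h4, deriv_const, Matrix.zero_apply]

end Pool.ABV
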