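import Pool.Agent.Work.MP_c20ce7_st.Interface

/-!
# Block LRE (MP_c20ce7_nt): the standard point of the lift (helper94)
-/

set_option autoImplicit false

open MvPolynomial Pool.Agent.MPc20ce7

noncomputable section

namespace Pool.ABV

theorem p_LRE (hLFE : S_LFE) (hLFX : S_LFX) (hDUA : S_DUA) : S_LRE := by
  intro W _ _ N ι _ _ α e φ Φ hR hN
  obtain ⟨h1, l, hl, hc⟩ := hR
  obtain ⟨Φα, hΦ⟩ := hLFE W N ι α Φ hN
  obtain ⟨h3, h4⟩ := hLFX W N ι α e Φ Φα h1 hΦ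
  obtain ⟨l', hl', hc'⟩ := hDUA ι e (xp Φ) l α hc
  refine ⟨Φα, hΦ, h3, l', ?_, ?_⟩
  · rw [hl', hl]
  · rw [h4]
    exact hc'

end Pool.ABV
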