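import Pool.Agent.Work.MP_c20ce7_st.Interface
import Pool.Agent.Work.MP_c20ce7_nt.B_CJ
import Pool.Agent.Work.MP_c20ce7_nt.B_EQ
import Pool.Agent.Work.MP_c20ce7_nt.B_PM

/-!
# Block ORB: the orbit of an L-parameter is the orbit of its parameter (helper66)
-/

set_option autoImplicit false

namespace Pool.ABV

open Pool.Agent.MPc20ce7

lemma ORB_inv {ι : Type} [Fintype ι] [DecidableEq ι] {W : Type} (l : W → Matrix ι ι ℂ) (h : GL ι ℂ)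
    (hh : (h : Matrix ι ι ℂ) ∈ AA l) : ((h⁻¹ : GL ι ℂ) : Matrix ι ι ℂ) ∈ AA l := by
  unfold AA at hh ⊢
  rw [Subalgebra.mem_centralizer_iff] at hh ⊢
  intro g hg
  have h1 := hh g hg
  have h2 : (h : Matrix ι ι ℂ) * ((h⁻¹ : GL ι ℂ) : Matrix ι ι ℂ) = 1 := by
    rw [← Units.val_mul, mul_inv_cancel, Units.val_one]
  have h3 : ((h⁻¹ : GL ι ℂ) : Matrix ι ι ℂ) * (h : Matrix ι ι ℂ) = 1 := by
    rw [← Units.val_mul, inv_mul_cancel, Units.val_one]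
  calc g * ((h⁻¹ : GL ι ℂ) : Matrix ι ι ℂ)
      = ((h⁻¹ : GL ι ℂ) : Matrix ι ι ℂ) * ((h : Matrix ι ι ℂ) * g) *
          ((h⁻¹ : GL ι ℂ) : Matrix ι ι ℂ) := by
        rw [← Matrix.mul_assoc, h3, Matrix.one_mul]
    _ = ((h⁻¹ : GL ι ℂ) : Matrix ι ι ℂ) * (g * (h : Matrix ι ι ℂ)) *
          ((h⁻¹ : GL ι ℂ) : Matrix ι ι ℂ) := by rw [h1]
    _ = ((h⁻¹ : GL ι ℂ) : Matrix ι ι ℂ) * g := by
        rw [Matrix.mul_assoc, Matrix.mul_assoc, h2, Matrix.mul_one]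

theorem p_ORB (hCEN : S_CEN) : S_ORB := by
  intro W _ _ N ι _ _ e φ Φ hR
  obtain ⟨hlam, l, hl, hc⟩ := hR
  have hlam' : lam N Φ = dgm N e := funext hlam
  ext x
  constructor
  · rintro ⟨h, hh, hx⟩
    rw [hlam'] at hh
    have h1 : IsBlk e (h : Matrix ι ι ℂ) := (hCEN W N ι e _).1 hh
    have h2 : IsBlk e ((h⁻¹ : GL ι ℂ) : Matrix ι ι ℂ) := (hCEN W N ι e _).1 (ORB_inv _ h hh)
    have h3 : Conj e x e (xp Φ) := by
      refine ⟨((h⁻¹ : GL ι ℂ) : Matrix ι ι ℂ), (h : Matrix ι ι ℂ), h2, h1, ?_, ?_, hx⟩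
      · rw [← Units.val_mul, inv_mul_cancel, Units.val_one]
      · rw [← Units.val_mul, mul_inv_cancel, Units.val_one]
    exact ⟨l, hl, p_CJ.2.2 _ _ _ _ _ _ _ _ _ h3 hc⟩
  · rintro ⟨l', hl', hc'⟩
    have hperm : l'.Perm l := Multiset.coe_eq_coe.1 (hl'.trans hl.symm)
    have h1 : Conj (expo l') (nil l') (expo l) (nil l) := p_PM p_CJ p_EQ l' l hperm
    have h2 : Conj e x e (xp Φ) :=
      p_CJ.2.2 _ _ _ _ _ _ _ _ _ (p_CJ.2.2 _ _ _ _ _ _ _ _ _ hc' h1)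
        (p_CJ.2.1 _ _ _ _ _ _ hc)
    obtain ⟨g, h, hg, hh, hgh, hhg, hx⟩ := h2
    refine ⟨⟨h, g, hhg, hgh⟩, ?_, hx⟩
    rw [hlam']
    exact (hCEN W N ι e h).2 hh

end Pool.ABV
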