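import Pool.Agent.Work.MP_c20ce7_st.Interface

/-!
# The outer layer, block REA: every point of an orbit comes from an L-parameter
-/

set_option autoImplicit false

open MvPolynomial Pool.Agent.MPc20ce7

noncomputable section

namespace Pool.ABV

/-- The homomorphism `y ↦ h R(y) g`. -/
def REA_hom {G ι κ : Type} [Monoid G] [Fintype ι] [DecidableEq ι] [Fintype κ] [DecidableEq κ]
    (R : G →* Matrix κ κ ℂ) (g : Matrix κ ι ℂ) (h : Matrix ι κ ℂ) (h1 : g * h = 1)
    (h2 : h * g = 1) : G →* Matrix ι ι ℂ where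
  toFun y := h * R y * g
  map_one' := by rw [map_one, Matrix.mul_one, h2]
  map_mul' y z := by
    have e : h * R y * g * (h * R z * g) = h * R y * (g * h) * R z * g := by
      simp only [Matrix.mul_assoc]
    rw [e, h1, Matrix.mul_one, map_mul]
    simp only [Matrix.mul_assoc]

theorem REA_dgm {W : Type} [Group W] [TopologicalSpace W] (N : Nrm W) {ι κ : Type} [Fintype ι]
    [DecidableEq ι] [Fintype κ] [DecidableEq κ] (e : ι → ℝ) (e' : κ → ℝ) (g : Matrix κ ι ℂ)
    (h : Matrix ι κ ℂ) (h2 : h * g = 1) (hg : ∀ a i, g a i ≠ 0 → e' a = e i) (w : W) :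
    h * dgm N e' w * g = dgm N e w := by
  have h3 : dgm N e' w * g = g * dgm N e w := by
    ext a i
    rw [dgm, dgm, Matrix.diagonal_mul, Matrix.mul_diagonal]
    by_cases hz : g a i = 0
    · rw [hz, mul_zero, zero_mul]
    · rw [hg a i hz, mul_comm]
  rw [Matrix.mul_assoc, h3, ← Matrix.mul_assoc, h2, Matrix.one_mul]

theorem REA_cont {W : Type} [Group W] [TopologicalSpace W] (N : Nrm W) {κ : Type} [Fintype κ]
    [DecidableEq κ] (c : κ → ℝ) : Continuous fun w => dgm N c w := by
  unfold dgm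
  refine Continuous.matrix_diagonal ?_
  refine continuous_pi fun i => ?_
  exact Complex.continuous_ofReal.comp (N.cont.rpow_const fun w => Or.inl (N.pos w).ne')

theorem p_REA (hREP : S_REP) (hSSD : S_SSD) : S_REA := by
  intro W _ _ N ι _ _ e φ hne
  obtain ⟨x, l, hl, g, h, hg, hh, hgh, hhg, -⟩ := hne
  obtain ⟨R, ⟨c, hc⟩, ⟨P, hP⟩, hlam, d, hd, hder⟩ := hREP W N l
  have hF : ∀ y, ((REA_hom R g h hgh hhg).toHomUnits y : Matrix ι ι ℂ) = h * R y * g := fun y => rfl
  have hF1 : ∀ w, ((REA_hom R g h hgh hhg).toHomUnits (w, 1) : Matrix ι ι ℂ) =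
      h * dgm N c w * g := by
    intro w
    rw [hF, hc]
  let Φ : LParam W ι :=
    { hom := (REA_hom R g h hgh hhg).toHomUnits
      cont := by
        have e1 : (fun w : W => ((REA_hom R g h hgh hhg).toHomUnits (w, 1) : Matrix ι ι ℂ)) =
          fun w => h * dgm N c w * g := funext hF1
        rw [e1]
        exact (continuous_const.matrix_mul (REA_cont N c)).matrix_mul continuous_const
      semisimple := by
        intro w
        rw [hF1]
        exact hSSD ι (Idx l) h g _ hgh hhg
      algebraic := by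
        refine ⟨fun a b => ∑ j, (∑ i, C (h a i) * P i j) * C (g j b), fun s a b => ?_⟩
        rw [hF, Matrix.mul_apply, map_sum]
        refine Finset.sum_congr rfl fun j _ => ?_
        rw [Matrix.mul_apply, map_mul, map_sum, eval_C]
        congr 1
        refine Finset.sum_congr rfl fun i _ => ?_
        rw [map_mul, eval_C, hP] }
  have hΦ : ∀ y, (Φ.hom y : Matrix ι ι ℂ) = h * R y * g := hF
  have hxp : xp Φ = h * (Matrix.diagonal d * nil l * Matrix.diagonal fun i => (d i)⁻¹) * g := by
    ext a b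
    have h1 : (fun t : ℂ => (Φ.hom (1, un t) : Matrix ι ι ℂ) a b) =
        fun t => ∑ j, (∑ i, h a i * R (1, un t) i j) * g j b := by
      funext t
      rw [hΦ, Matrix.mul_apply]
      exact Finset.sum_congr rfl fun j _ => by rw [Matrix.mul_apply]
    have h2 : HasDerivAt (fun t : ℂ => ∑ j, (∑ i, h a i * R (1, un t) i j) * g j b)
        (∑ j, (∑ i, h a i * (d i * nil l i j * (d j)⁻¹)) * g j b) 0 := by
      refine HasDerivAt.fun_sum fun j _ => HasDerivAt.mul_const ?_ _
      exact HasDerivAt.fun_sum fun i _ => (hder i j).const_mul _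
    have h3 : xp Φ a b = deriv (fun t : ℂ => (Φ.hom (1, un t) : Matrix ι ι ℂ) a b) 0 := rfl
    rw [h3, h1, h2.deriv, Matrix.mul_apply]
    refine Finset.sum_congr rfl fun j _ => ?_
    rw [Matrix.mul_apply]
    congr 1
    refine Finset.sum_congr rfl fun i _ => ?_
    rw [Matrix.mul_diagonal, Matrix.diagonal_mul]
  have hdd : (Matrix.diagonal fun i => (d i)⁻¹) * Matrix.diagonal d = (1 : Matrix (Idx l) (Idx l) ℂ) := by
    rw [Matrix.diagonal_mul_diagonal]
    ext i j
    by_cases hij : i = j
    · subst hij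
      rw [Matrix.diagonal_apply_eq, Matrix.one_apply_eq, inv_mul_cancel₀ (hd i)]
    · rw [Matrix.diagonal_apply_ne _ hij, Matrix.one_apply_ne hij]
  have hdd' : Matrix.diagonal d * (Matrix.diagonal fun i => (d i)⁻¹) = (1 : Matrix (Idx l) (Idx l) ℂ) := by
    rw [Matrix.diagonal_mul_diagonal]
    ext i j
    by_cases hij : i = j
    · subst hij
      rw [Matrix.diagonal_apply_eq, Matrix.one_apply_eq, mul_inv_cancel₀ (hd i)]
    · rw [Matrix.diagonal_apply_ne _ hij, Matrix.one_apply_ne hij]
  refine ⟨Φ, ⟨?_, l, hl, (Matrix.diagonal fun i => (d i)⁻¹) * g, h * Matrix.diagonal d, ?_, ?_, ?_, ?_, ?_⟩, ?_⟩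
  · intro w
    have h1 : lam N Φ w = h * R (w, dg N w) * g := hΦ _
    rw [h1, hlam]
    exact REA_dgm N e (expo l) g h hhg hg w
  · intro a i hai
    rw [Matrix.diagonal_mul] at hai
    exact hg a i (right_ne_zero_of_mul hai)
  · intro i a hia
    rw [Matrix.mul_diagonal] at hia
    exact hh i a (left_ne_zero_of_mul hia)
  · have e1 : (Matrix.diagonal fun i => (d i)⁻¹) * g * (h * Matrix.diagonal d) =
        (Matrix.diagonal fun i => (d i)⁻¹) * (g * h) * Matrix.diagonal d := by
      simp only [Matrix.mul_assoc]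
    rw [e1, hgh, Matrix.mul_one, hdd]
  · have e1 : h * Matrix.diagonal d * ((Matrix.diagonal fun i => (d i)⁻¹) * g) =
        h * (Matrix.diagonal d * (Matrix.diagonal fun i => (d i)⁻¹)) * g := by
      simp only [Matrix.mul_assoc]
    rw [e1, hdd', Matrix.mul_one, hhg]
  · rw [hxp]
    simp only [Matrix.mul_assoc]
  · have hcard : Fintype.card ι = Fintype.card (Idx l) := Matrix.square_of_invertible h g hhg hgh
    let τ : ι ≃ Idx l := Fintype.equivOfCardEq hcard
    refine ⟨g.submatrix τ id, h.submatrix id τ,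
      fun w i => (((N.abs w) ^ (c (τ i)) : ℝ) : ℂ), ?_, ?_, ?_⟩
    · rw [← Matrix.submatrix_mul g h τ id τ Function.bijective_id, hgh, Matrix.submatrix_one_equiv]
    · rw [← Matrix.submatrix_mul h g id τ id τ.bijective, hhg]
      exact Matrix.submatrix_one_equiv (Equiv.refl ι)
    · intro w
      have e1 : (Matrix.diagonal fun i => (((N.abs w) ^ (c (τ i)) : ℝ) : ℂ)) =
          (dgm N c w).submatrix τ τ := by
        rw [dgm, Matrix.submatrix_diagonal_equiv]
        rfl
      rw [e1, ← Matrix.submatrix_mul h (dgm N c w) id τ τ τ.bijective,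
        ← Matrix.submatrix_mul (h * dgm N c w) g id τ id τ.bijective, hΦ, hc]
      rfl

end Pool.ABV
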