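import Pool.Agent.Work.MP_c20ce7_st.Interface
import Pool.Agent.Work.MP_c20ce7_nt.B_CJ
import Pool.Agent.Work.MP_c20ce7_nt.B_EQ
import Pool.Agent.Work.MP_c20ce7_nt.B_PM

/-!
# Block REI: two exponent functions with the same parameter differ by a bijection
-/

set_option autoImplicit false

open MvPolynomial Pool.Agent.MPc20ce7

noncomputable section

namespace Pool.ABV

/-- The blocks of two mutually inverse graded matrices are mutually inverse. -/
theorem REI_block {ι κ : Type} [Fintype ι] [DecidableEq ι] [Fintype κ] [DecidableEq κ] (e : ι → ℝ)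
    (e' : κ → ℝ) (g : Matrix κ ι ℂ) (h : Matrix ι κ ℂ) (hg : ∀ a i, g a i ≠ 0 → e' a = e i)
    (hgh : g * h = 1) (r : ℝ) :
    (Matrix.of fun (a : {a // e' a = r}) (i : {i // e i = r}) => g a.1 i.1) *
      (Matrix.of fun (i : {i // e i = r}) (a : {a // e' a = r}) => h i.1 a.1) = 1 := by
  ext a b
  rw [Matrix.mul_apply]
  simp only [Matrix.of_apply]
  have h1 : ∑ i : {i // e i = r}, g a.1 i.1 * h i.1 b.1 = ∑ i : ι, g a.1 i * h i b.1 := by
    have h2 := Finset.sum_subtype (F := inferInstance) (Finset.univ.filter fun i => e i = r)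
      (p := fun i => e i = r) (by simp) (fun i => g a.1 i * h i b.1)
    rw [← h2]
    refine Finset.sum_filter_of_ne ?_
    intro i _ hi
    rw [← hg a.1 i (left_ne_zero_of_mul hi)]
    exact a.2
  have h3 : (g * h) a.1 b.1 = ∑ i : ι, g a.1 i * h i b.1 := Matrix.mul_apply
  rw [h1, ← h3, hgh]
  by_cases hab : a = b
  · subst hab
    simp
  · have hab' : a.1 ≠ b.1 := fun h4 => hab (Subtype.ext h4)
    rw [Matrix.one_apply_ne hab, Matrix.one_apply_ne hab']

/-- Two mutually inverse graded matrices: the index sets differ by a bijection which respects the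
degrees. -/
theorem REI_equiv {ι κ : Type} [Fintype ι] [DecidableEq ι] [Fintype κ] [DecidableEq κ] (e : ι → ℝ)
    (e' : κ → ℝ) (g : Matrix κ ι ℂ) (h : Matrix ι κ ℂ) (hg : ∀ a i, g a i ≠ 0 → e' a = e i)
    (hh : ∀ i a, h i a ≠ 0 → e i = e' a) (hgh : g * h = 1) (hhg : h * g = 1) :
    ∃ τ : ι ≃ κ, ∀ i, e' (τ i) = e i := by
  have hcard : ∀ r : ℝ, Nonempty ({i // e i = r} ≃ {a // e' a = r}) := by
    intro r
    have h1 := REI_block e e' g h hg hgh r
    have h2 := REI_block e' e h g hh hhg r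
    have h3 := (Matrix.toLin'OfInv h2 h1).finrank_eq
    rw [Module.finrank_fintype_fun_eq_card, Module.finrank_fintype_fun_eq_card] at h3
    exact Fintype.card_eq.mp h3
  let f := fun r => (hcard r).some
  refine ⟨(Equiv.sigmaFiberEquiv e).symm.trans ((Equiv.sigmaCongrRight f).trans
    (Equiv.sigmaFiberEquiv e')), ?_⟩
  intro i
  exact (f (e i) ⟨i, rfl⟩).2

theorem p_REI : S_REI := by
  intro ι κ _ _ _ _ e e' ψ hx hy
  obtain ⟨x, l, hl, hlx⟩ := hx
  obtain ⟨y, l', hl', hly⟩ := hy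
  have hp : l.Perm l' := Multiset.coe_eq_coe.mp (hl.trans hl'.symm)
  have h1 := p_PM p_CJ p_EQ l l' hp
  have h2 : Conj e x (expo l') (nil l') := p_CJ.2.2 _ _ _ _ _ _ _ _ _ hlx h1
  have h3 : Conj e x e' y := p_CJ.2.2 _ _ _ _ _ _ _ _ _ h2 (p_CJ.2.1 _ _ _ _ _ _ hly)
  obtain ⟨g, h, hg, hh, hgh, hhg, _⟩ := h3
  exact REI_equiv e e' g h hg hh hgh hhg

end Pool.ABV
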