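import Pool.Agent.Work.MP_c20ce7_st.Interface

/-!
# Block REP (MP_c20ce7_nt, helper10)
-/

set_option autoImplicit false

open MvPolynomial Pool.Agent.MPc20ce7

noncomputable section

namespace Pool.ABV

/-- the statement of REP for an abstract index set -/
def REP_P (W : Type) [Group W] [TopologicalSpace W] (N : Nrm W) (ι : Type) [Fintype ι] [DecidableEq ι]
    (e : ι → ℝ) (x : Matrix ι ι ℂ) : Prop :=
  ∃ R : W × SL2 →* Matrix ι ι ℂ,
      (∃ c : ι → ℝ, ∀ w, R (w, 1) = dgm N c w) ∧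
      (∃ P : ι → ι → MvPolynomial (Fin 2 × Fin 2) ℂ, ∀ (g : SL2) (i j : ι),
        R (1, g) i j = eval (fun p : Fin 2 × Fin 2 => (g : Matrix (Fin 2) (Fin 2) ℂ) p.1 p.2) (P i j)) ∧
      (∀ w, R (w, dg N w) = dgm N e w) ∧
      (∃ d : ι → ℂ, (∀ i, d i ≠ 0) ∧ ∀ i j, HasDerivAt (fun t : ℂ => R (1, un t) i j)
        (d i * x i j * (d j)⁻¹) 0)

/-- the scalar `|w| ^ s` -/
def REP_s (W : Type) [Group W] [TopologicalSpace W] (N : Nrm W) (s : ℝ) (w : W) : ℂ :=
  (((N.abs w) ^ s : ℝ) : ℂ)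

theorem REP_s_one (W : Type) [Group W] [TopologicalSpace W] (N : Nrm W) (s : ℝ) :
    REP_s W N s 1 = 1 := by
  simp [REP_s]

theorem REP_s_mul (W : Type) [Group W] [TopologicalSpace W] (N : Nrm W) (s : ℝ) (w w' : W) :
    REP_s W N s (w * w') = REP_s W N s w * REP_s W N s w' := by
  unfold REP_s
  rw [map_mul, Real.mul_rpow (N.pos w).le (N.pos w').le]
  push_cast
  ring

/-- the sum of two representations -/
def REP_R (W : Type) [Group W] [TopologicalSpace W] (N : Nrm W) (k : ℕ) (s : ℝ)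
    (S : SL2 →* Matrix (Fin k) (Fin k) ℂ) (ι : Type) [Fintype ι] [DecidableEq ι]
    (R : W × SL2 →* Matrix ι ι ℂ) : W × SL2 →* Matrix (Fin k ⊕ ι) (Fin k ⊕ ι) ℂ where
  toFun x := Matrix.fromBlocks (REP_s W N s x.1 • S x.2) 0 0 (R x)
  map_one' := by
    show Matrix.fromBlocks (REP_s W N s 1 • S 1) 0 0 (R 1) = 1
    rw [REP_s_one, map_one, map_one, one_smul, Matrix.fromBlocks_one]
  map_mul' x y := by
    show Matrix.fromBlocks (REP_s W N s (x.1 * y.1) • S (x.2 * y.2)) 0 0 (R (x * y)) = _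
    rw [REP_s_mul, map_mul, map_mul, Matrix.fromBlocks_multiply]
    simp only [Matrix.mul_zero, Matrix.zero_mul, add_zero, zero_add, smul_mul_smul_comm]

theorem REP_exp (a s : ℝ) (ha : 0 < a) (k j : ℕ) :
    ((a ^ s : ℝ) : ℂ) * (((a ^ (1 / 2 : ℝ) : ℝ) : ℂ)) ^ ((k : ℤ) - 1 - 2 * (j : ℕ)) =
      ((a ^ (s + ((k : ℝ) - 1) / 2 - (j : ℕ)) : ℝ) : ℂ) := by
  rw [← Complex.ofReal_zpow, ← Complex.ofReal_mul]
  congr 1
  rw [← Real.rpow_intCast, ← Real.rpow_mul ha.le, ← Real.rpow_add ha]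
  congr 1
  push_cast
  ring

theorem REP_fact (k : ℕ) (i j : Fin k) :
    (1 / ((Nat.factorial i : ℕ) : ℂ)) * jordan k i j * (1 / ((Nat.factorial j : ℕ) : ℂ))⁻¹ =
      if (i : ℕ) + 1 = j then ((j : ℕ) : ℂ) else 0 := by
  unfold jordan
  by_cases h : (i : ℕ) + 1 = j
  · rw [if_pos h, if_pos h, ← h, Nat.factorial_succ]
    have : ((Nat.factorial i : ℕ) : ℂ) ≠ 0 := Nat.cast_ne_zero.2 (Nat.factorial_ne_zero _)
    push_cast
    field_simp
  · rw [if_neg h, if_neg h]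
    simp

theorem REP_step (hS : S_SKH) (W : Type) [Group W] [TopologicalSpace W] (N : Nrm W) (k : ℕ) (s : ℝ)
    (ι : Type) [Fintype ι] [DecidableEq ι] (e : ι → ℝ) (x : Matrix ι ι ℂ) (h : REP_P W N ι e x) :
    REP_P W N (Fin k ⊕ ι) (Sum.elim (fun j : Fin k => s + ((k : ℝ) - 1) / 2 - (j : ℕ)) e)
      (Matrix.fromBlocks (jordan k) 0 0 x) := by
  obtain ⟨S, ⟨PS, hPS⟩, hSd, hSt⟩ := hS k
  obtain ⟨R, ⟨c, hc⟩, ⟨P, hP⟩, hR, ⟨d, hd0, hd⟩⟩ := h
  refine ⟨REP_R W N k s S ι R, ⟨Sum.elim (fun _ => s) c, ?_⟩, ⟨fun i j => ?_, ?_⟩, ?_,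
    ⟨Sum.elim (fun j : Fin k => 1 / ((Nat.factorial j : ℕ) : ℂ)) d, ?_, ?_⟩⟩
  · intro w
    show Matrix.fromBlocks (REP_s W N s w • S 1) 0 0 (R (w, 1)) = _
    rw [hc, map_one]
    ext i j
    rcases i with i | i <;> rcases j with j | j
    · rw [Matrix.fromBlocks_apply₁₁]
      simp [dgm, REP_s, Matrix.diagonal_apply, Matrix.one_apply]
    · rw [Matrix.fromBlocks_apply₁₂]
      simp [dgm, Matrix.diagonal_apply]
    · rw [Matrix.fromBlocks_apply₂₁]
      simp [dgm, Matrix.diagonal_apply]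
    · rw [Matrix.fromBlocks_apply₂₂]
      simp [dgm, Matrix.diagonal_apply]
  · exact Sum.elim (fun i => Sum.elim (fun j => PS i j) (fun _ => 0) j)
      (fun i => Sum.elim (fun _ => 0) (fun j => P i j) j) i
  · intro g i j
    show Matrix.fromBlocks (REP_s W N s 1 • S g) 0 0 (R (1, g)) i j = _
    rw [REP_s_one, one_smul]
    rcases i with i | i <;> rcases j with j | j
    · rw [Matrix.fromBlocks_apply₁₁]
      exact hPS g i j
    · rw [Matrix.fromBlocks_apply₁₂]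
      simp
    · rw [Matrix.fromBlocks_apply₂₁]
      simp
    · rw [Matrix.fromBlocks_apply₂₂]
      exact hP g i j
  · intro w
    show Matrix.fromBlocks (REP_s W N s w • S (dg N w)) 0 0 (R (w, dg N w)) = _
    have hy : (((N.abs w) ^ (1 / 2 : ℝ) : ℝ) : ℂ) ≠ 0 := by
      rw [Ne, Complex.ofReal_eq_zero]
      exact (Real.rpow_pos_of_pos (N.pos w) _).ne'
    have hg : ((dg N w : SL2) : Matrix (Fin 2) (Fin 2) ℂ) =
        !![(((N.abs w) ^ (1 / 2 : ℝ) : ℝ) : ℂ), 0; 0, (((N.abs w) ^ (1 / 2 : ℝ) : ℝ) : ℂ)⁻¹] := by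
      show !![(((N.abs w) ^ (1 / 2 : ℝ) : ℝ) : ℂ), 0; 0, (((N.abs w) ^ (-(1 / 2) : ℝ) : ℝ) : ℂ)] = _
      rw [Real.rpow_neg (N.pos w).le, Complex.ofReal_inv]
    rw [hR, hSd _ _ hy hg]
    ext i j
    rcases i with i | i <;> rcases j with j | j
    · rw [Matrix.fromBlocks_apply₁₁]
      by_cases hij : i = j
      · subst hij
        rw [Matrix.smul_apply, Matrix.diagonal_apply_eq, smul_eq_mul]
        unfold dgm REP_s
        rw [Matrix.diagonal_apply_eq]
        exact REP_exp (N.abs w) s (N.pos w) k i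
      · rw [Matrix.smul_apply, Matrix.diagonal_apply_ne _ hij, smul_zero]
        unfold dgm
        rw [Matrix.diagonal_apply_ne _ (fun h => hij (Sum.inl_injective h))]
    · rw [Matrix.fromBlocks_apply₁₂]
      simp [dgm, Matrix.diagonal_apply]
    · rw [Matrix.fromBlocks_apply₂₁]
      simp [dgm, Matrix.diagonal_apply]
    · rw [Matrix.fromBlocks_apply₂₂]
      simp [dgm, Matrix.diagonal_apply]
  · rintro (i | i)
    · exact one_div_ne_zero (Nat.cast_ne_zero.2 (Nat.factorial_ne_zero _))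
    · exact hd0 i
  · intro i j
    show HasDerivAt (fun t : ℂ => Matrix.fromBlocks (REP_s W N s 1 • S (un t)) 0 0 (R (1, un t)) i j) _ _
    rw [REP_s_one]
    rcases i with i | i <;> rcases j with j | j
    · rw [Matrix.fromBlocks_apply₁₁]
      simp only [Matrix.fromBlocks_apply₁₁, one_smul, Sum.elim_inl]
      rw [REP_fact]
      exact hSt i j
    · simp only [Matrix.fromBlocks_apply₁₂, Matrix.zero_apply, mul_zero, zero_mul]
      exact hasDerivAt_const _ _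
    · simp only [Matrix.fromBlocks_apply₂₁, Matrix.zero_apply, mul_zero, zero_mul]
      exact hasDerivAt_const _ _
    · simp only [Matrix.fromBlocks_apply₂₂, Sum.elim_inr]
      exact hd i j

theorem REP_expo (p : ℝ × ℕ) (l : List (ℝ × ℕ)) : (expo (p :: l) : Fin p.2 ⊕ Idx l → ℝ) =
    Sum.elim (fun j : Fin p.2 => p.1 + ((p.2 : ℝ) - 1) / 2 - (j : ℕ)) (expo l) := by
  funext x
  rcases x with x | x
  · rfl
  · rfl

theorem REP_all (hS : S_SKH) (W : Type) [Group W] [TopologicalSpace W] (N : Nrm W) :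
    ∀ l : List (ℝ × ℕ), REP_P W N (Idx l) (expo l) (nil l) := by
  intro l
  induction l with
  | nil =>
    haveI : IsEmpty (Idx []) := inferInstanceAs (IsEmpty Empty)
    refine ⟨1, ⟨fun _ => 0, fun w => Subsingleton.elim _ _⟩, ⟨fun _ _ => 0, fun g i => isEmptyElim i⟩,
      fun w => Subsingleton.elim _ _, ⟨fun _ => 1, fun i => isEmptyElim i, fun i => isEmptyElim i⟩⟩
  | cons p l ih =>
    have h := REP_step hS W N p.2 p.1 (Idx l) (expo l) (nil l) ih
    rw [← REP_expo] at h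
    exact h

theorem p_REP (h1 : S_SKH) : S_REP := by
  intro W _ _ N l
  exact REP_all h1 W N l

end Pool.ABV
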