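import Pool.Agent.Work.MP_c20ce7_st.Interface

/-!
# Block RK1: primitive idempotents of the algebra of block matrices have rank one
-/

set_option autoImplicit false

noncomputable section

namespace Pool.ABV

theorem p_RK1 (h1 : S_CEN) : S_RK1 := by
  intro W _ _ N ι _ _ e a ha ha0
  obtain ⟨haA, haa, hprim⟩ := ha
  have hblk : IsBlk e a := (h1 W N ι e a).1 haA
  obtain ⟨p, q, hpq⟩ : ∃ p q, a p q ≠ 0 := by
    by_contra hcon
    push Not at hcon
    exact ha0 (by ext i j; simpa using hcon i j)
  have hepq : e p = e q := hblk p q hpq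
  have hx : Matrix.single q p (1 : ℂ) ∈ AA (dgm N e) := by
    refine (h1 W N ι e _).2 ?_
    intro i j hij
    by_cases hi : q = i ∧ p = j
    · rw [← hi.1, ← hi.2, hepq]
    · exact absurd (Matrix.single_apply_of_ne q p (1 : ℂ) i j hi) hij
  obtain ⟨c, hc⟩ := hprim _ hx
  have hent : ∀ i j, a i q * a p j = c * a i j := by
    intro i j
    have h2 := congrFun (congrFun hc i) j
    rw [Matrix.smul_apply, smul_eq_mul] at h2
    rw [← h2, Matrix.mul_apply]
    rw [Finset.sum_eq_single p]
    · rw [Matrix.mul_single_apply_same, mul_one]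
    · intro b _ hb
      rw [Matrix.mul_single_apply_of_ne (hbj := hb), zero_mul]
    · intro hb
      exact absurd (Finset.mem_univ p) hb
  have hcval : c = a p q := by
    have h3 := hent p q
    exact (mul_right_cancel₀ hpq h3).symm
  have hsum : ∑ j, a p j * a j q = a p q := by
    have h4 := congrFun (congrFun haa p) q
    rwa [Matrix.mul_apply] at h4
  obtain ⟨i, hi⟩ : ∃ i, a p i * a i q ≠ 0 := by
    by_contra hcon
    push Not at hcon
    apply hpq
    rw [← hsum]
    exact Finset.sum_eq_zero fun j _ => hcon j
  have hpi : a p i ≠ 0 := left_ne_zero_of_mul hi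
  have hiq : a i q ≠ 0 := right_ne_zero_of_mul hi
  refine ⟨fun j => a j q / a i q, fun j => a p j * a i q / a p q, i, ?_, ?_, ?_, ?_, ?_⟩
  · ext j k
    rw [Matrix.vecMulVec_apply]
    have h5 := hent j k
    rw [hcval] at h5
    field_simp
    rw [h5]
    try ring
  · exact div_self hiq
  · have h6 : ∀ j, a p j * a i q / a p q * (a j q / a i q) = (a p j * a j q) / a p q := by
      intro j
      field_simp
    simp only [h6]
    rw [← Finset.sum_div, hsum]
    exact div_self hpq
  · intro j hj
    have h7 : a j q ≠ 0 := fun h => hj (by simp [h])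
    rw [hblk j q h7, hblk i q hiq]
  · intro j hj
    have h7 : a p j ≠ 0 := fun h => hj (by simp [h])
    rw [← hblk p j h7, hblk p i hpi]

end Pool.ABV
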