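import Mathlib

set_option autoImplicit false

/-!
# The irreducible representations `S_k` of `SL_2(ℂ)` as matrices

`S k g` is the matrix of the action of `g` on the homogeneous polynomials of degree `k - 1` in two variables
with respect to the basis `X_0 ^ (k - 1 - i) X_1 ^ i`, `i < k`.
-/

open MvPolynomial

noncomputable section

namespace Pool.DM

/-- The substitution `X_j ↦ g_0j X_0 + g_1j X_1`. -/
def sub2 (g : Matrix (Fin 2) (Fin 2) ℂ) : MvPolynomial (Fin 2) ℂ →ₐ[ℂ] MvPolynomial (Fin 2) ℂ :=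
  aeval fun j => C (g 0 j) * X 0 + C (g 1 j) * X 1

/-- The monomial `X_0 ^ (k - 1 - i) X_1 ^ i`. -/
def mon (k : ℕ) (i : Fin k) : MvPolynomial (Fin 2) ℂ := X 0 ^ (k - 1 - (i : ℕ)) * X 1 ^ (i : ℕ)

/-- The exponent of the monomial `X_0 ^ (k - 1 - i) X_1 ^ i`. -/
def mex (k : ℕ) (i : Fin k) : Fin 2 →₀ ℕ := Finsupp.single 0 (k - 1 - (i : ℕ)) + Finsupp.single 1 (i : ℕ)

/-- The irreducible representation `S_k` of `SL_2(ℂ)` of dimension `k` (the symmetric power of order `k - 1` of
the standard representation), as a matrix: the entry `(i, j)` is the coefficient of `X_0 ^ (k - 1 - i) X_1 ^ i` in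
`(g_00 X_0 + g_10 X_1) ^ (k - 1 - j) * (g_01 X_0 + g_11 X_1) ^ j`. -/
def S (k : ℕ) (g : Matrix (Fin 2) (Fin 2) ℂ) : Matrix (Fin k) (Fin k) ℂ := fun i j =>
  coeff (mex k i) ((C (g 0 0) * X 0 + C (g 1 0) * X 1) ^ (k - 1 - (j : ℕ)) *
    (C (g 0 1) * X 0 + C (g 1 1) * X 1) ^ (j : ℕ))

theorem S_apply (k : ℕ) (g : Matrix (Fin 2) (Fin 2) ℂ) (i j : Fin k) :
    S k g i j = coeff (mex k i) (sub2 g (mon k j)) := by
  simp [S, sub2, mon]

theorem mon_eq (k : ℕ) (i : Fin k) : mon k i = monomial (mex k i) 1 := by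
  rw [mon, mex, X_pow_eq_monomial, X_pow_eq_monomial, monomial_mul, mul_one]

theorem mex_inj (k : ℕ) (i j : Fin k) : mex k i = mex k j ↔ i = j := by
  constructor
  · intro h
    have := DFunLike.congr_fun h 1
    simp [mex] at this
    exact Fin.ext this
  · rintro rfl; rfl

theorem mon_hom (k : ℕ) (i : Fin k) : (mon k i).IsHomogeneous (k - 1) := by
  have h := ((isHomogeneous_X ℂ (0 : Fin 2)).pow (k - 1 - (i : ℕ))).mul
    ((isHomogeneous_X ℂ (1 : Fin 2)).pow (i : ℕ))
  have h2 : 1 * (k - 1 - (i : ℕ)) + 1 * (i : ℕ) = k - 1 := by omega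
  rwa [h2] at h

theorem sub2_hom (g : Matrix (Fin 2) (Fin 2) ℂ) (k : ℕ) (i : Fin k) :
    (sub2 g (mon k i)).IsHomogeneous (k - 1) := by
  have hl : ∀ j, (C (g 0 j) * X 0 + C (g 1 j) * X 1 : MvPolynomial (Fin 2) ℂ).IsHomogeneous 1 := by
    intro j
    exact ((isHomogeneous_X ℂ (0 : Fin 2)).C_mul _).add ((isHomogeneous_X ℂ (1 : Fin 2)).C_mul _)
  have h := ((hl 0).pow (k - 1 - (i : ℕ))).mul ((hl 1).pow (i : ℕ))
  have h2 : 1 * (k - 1 - (i : ℕ)) + 1 * (i : ℕ) = k - 1 := by omega
  rw [h2] at h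
  simpa [sub2, mon] using h

/-- A homogeneous polynomial of degree `k - 1` is the sum of its monomials. -/
theorem hom_expand (k : ℕ) (hk : 0 < k) (p : MvPolynomial (Fin 2) ℂ) (hp : p.IsHomogeneous (k - 1)) :
    p = ∑ l : Fin k, coeff (mex k l) p • mon k l := by
  ext m
  rw [coeff_sum]
  simp only [coeff_smul, mon_eq, coeff_monomial, smul_eq_mul, mul_ite, mul_one, mul_zero]
  by_cases hm : m 0 + m 1 = k - 1
  · have hl : m 1 < k := by omega
    have hml : mex k ⟨m 1, hl⟩ = m := by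
      ext a
      fin_cases a
      · simp [mex]; omega
      · simp [mex]
    rw [Finset.sum_eq_single (⟨m 1, hl⟩ : Fin k)]
    · rw [if_pos hml, hml]
    · intro b _ hb
      rw [if_neg]
      intro h
      exact hb ((mex_inj k b ⟨m 1, hl⟩).1 (h.trans hml.symm))
    · intro h; exact absurd (Finset.mem_univ _) h
  · have h0 : coeff m p = 0 := by
      by_contra h
      have := hp h
      rw [Finsupp.weight_apply, Finsupp.sum_fintype _ _ (by simp)] at this
      simp at this
      exact hm this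
    rw [h0]
    symm
    apply Finset.sum_eq_zero
    intro l _
    rw [if_neg]
    rintro rfl
    apply hm
    simp [mex]
    omega

theorem sub2_comp (g h : Matrix (Fin 2) (Fin 2) ℂ) (p : MvPolynomial (Fin 2) ℂ) :
    sub2 g (sub2 h p) = sub2 (g * h) p := by
  have : (sub2 g).comp (sub2 h) = sub2 (g * h) := by
    apply MvPolynomial.algHom_ext
    intro j
    simp only [AlgHom.comp_apply, sub2, aeval_X, map_add, map_mul, Matrix.mul_apply, Fin.sum_univ_two]
    simp only [algHom_C, algebraMap_eq, ← C_mul]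
    simp only [C_mul]
    ring
  rw [← this]; rfl

theorem S_mul (k : ℕ) (g h : Matrix (Fin 2) (Fin 2) ℂ) : S k (g * h) = S k g * S k h := by
  rcases Nat.eq_zero_or_pos k with rfl | hk
  · ext i; exact i.elim0
  ext i j
  rw [Matrix.mul_apply, S_apply, ← sub2_comp]
  conv_lhs => rw [hom_expand k hk _ (sub2_hom h k j)]
  rw [map_sum, coeff_sum]
  refine Finset.sum_congr rfl fun l _ => ?_
  rw [map_smul, coeff_smul, smul_eq_mul, ← S_apply, ← S_apply, mul_comm]

theorem sub2_one (p : MvPolynomial (Fin 2) ℂ) : sub2 1 p = p := by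
  have : sub2 1 = AlgHom.id ℂ _ := by
    apply MvPolynomial.algHom_ext
    intro j
    fin_cases j <;> simp [sub2]
  rw [this]; rfl

theorem S_one (k : ℕ) : S k 1 = 1 := by
  ext i j
  rw [S_apply, sub2_one, mon_eq, coeff_monomial, Matrix.one_apply]
  simp [mex_inj, eq_comm]

theorem S_diag (k : ℕ) (t u : ℂ) : S k !![t, 0; 0, u] =
    Matrix.diagonal fun i : Fin k => t ^ (k - 1 - (i : ℕ)) * u ^ (i : ℕ) := by
  ext i j
  rw [S_apply, Matrix.diagonal_apply]
  have : sub2 !![t, 0; 0, u] (mon k j) = (t ^ (k - 1 - (j : ℕ)) * u ^ (j : ℕ)) • mon k j := by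
    simp only [sub2, mon, map_mul, map_pow, aeval_X]
    simp only [Matrix.of_apply, Matrix.cons_val', Matrix.cons_val_zero, Matrix.cons_val_one,
      Matrix.cons_val_fin_one, C_0, zero_mul, add_zero, zero_add, mul_pow, smul_eq_C_mul, C_mul, C_pow]
    ring
  rw [this, coeff_smul, mon_eq, coeff_monomial, smul_eq_mul]
  by_cases h : i = j
  · subst h; simp
  · rw [if_neg h, if_neg (fun e => h ((mex_inj k j i).1 e).symm), mul_zero]

/-- The entries of `S k g` are polynomials in the entries of `g`. -/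
theorem S_poly (k : ℕ) (i j : Fin k) : ∃ P : MvPolynomial (Fin 2 × Fin 2) ℂ,
    ∀ g : Matrix (Fin 2) (Fin 2) ℂ, S k g i j = eval (fun p => g p.1 p.2) P := by
  refine ⟨coeff (mex k i) ((C (X (0, 0)) * X 0 + C (X (1, 0)) * X 1) ^ (k - 1 - (j : ℕ)) *
    (C (X (0, 1)) * X 0 + C (X (1, 1)) * X 1) ^ (j : ℕ) :
      MvPolynomial (Fin 2) (MvPolynomial (Fin 2 × Fin 2) ℂ)), fun g => ?_⟩
  rw [← coeff_map]
  simp [S]

theorem S_unip (k : ℕ) (u : ℂ) (i j : Fin k) :
    S k !![1, u; 0, 1] i j = if i ≤ j then (Nat.choose j i : ℂ) * u ^ ((j : ℕ) - i) else 0 := by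
  rw [S_apply]
  have h1 : sub2 !![1, u; 0, 1] (mon k j) =
      ∑ m ∈ Finset.range ((j : ℕ) + 1), ((Nat.choose j m : ℂ) * u ^ m) •
        monomial (Finsupp.single 0 (k - 1 - (j : ℕ) + m) + Finsupp.single 1 ((j : ℕ) - m)) (1 : ℂ) := by
    simp only [sub2, mon, map_mul, map_pow, aeval_X]
    simp only [Matrix.of_apply, Matrix.cons_val', Matrix.cons_val_zero, Matrix.cons_val_one,
      Matrix.cons_val_fin_one, C_0, zero_mul, add_zero, C_1, one_mul]
    rw [add_pow, Finset.mul_sum]
    refine Finset.sum_congr rfl fun m _ => ?_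
    rw [smul_eq_C_mul, ← mul_one (1 : ℂ), ← monomial_mul, ← X_pow_eq_monomial, ← X_pow_eq_monomial,
      C_mul, C_pow, mul_pow, pow_add]
    simp only [map_natCast]
    ring
  rw [h1, coeff_sum]
  simp only [coeff_smul, coeff_monomial, smul_eq_mul, mul_ite, mul_one, mul_zero]
  have hi := i.2
  have hj := j.2
  by_cases hij : i ≤ j
  · rw [if_pos hij]
    have hij' : (i : ℕ) ≤ j := hij
    rw [Finset.sum_eq_single ((j : ℕ) - i)]
    · rw [if_pos, Nat.choose_symm hij']
      rw [mex]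
      congr 2 <;> omega
    · intro m hm hne
      rw [if_neg]
      intro h
      have h2 := DFunLike.congr_fun h 1
      simp [mex] at h2
      rw [Finset.mem_range] at hm
      omega
    · intro h
      rw [Finset.mem_range] at h
      omega
  · rw [if_neg hij]
    apply Finset.sum_eq_zero
    intro m hm
    rw [if_neg]
    intro h
    have h2 := DFunLike.congr_fun h 1
    simp [mex] at h2
    have hij' : ¬ ((i : ℕ) ≤ j) := hij
    omega

/-- The nilpotent matrix of `S_k`. -/
def Nk (k : ℕ) : Matrix (Fin k) (Fin k) ℂ := fun i j => if (i : ℕ) + 1 = j then ((j : ℕ) : ℂ) else 0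

/-- The derivative of `S_k` at the unit matrix in the direction of the upper nilpotent matrix. -/
theorem S_deriv (k : ℕ) (i j : Fin k) :
    HasDerivAt (fun u : ℂ => S k !![1, u; 0, 1] i j) (Nk k i j) 0 := by
  simp only [S_unip, Nk]
  by_cases hij : i ≤ j
  · simp only [if_pos hij]
    have hij' : (i : ℕ) ≤ j := hij
    have h := ((hasDerivAt_pow ((j : ℕ) - i) (0 : ℂ)).const_mul (Nat.choose j i : ℂ))
    refine h.congr_deriv ?_
    symm
    by_cases h1 : (i : ℕ) + 1 = j
    · rw [if_pos h1]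
      have h2 : (j : ℕ) - i = 1 := by omega
      have h3 : Nat.choose j i = j := by
        rw [← h1, Nat.choose_succ_self_right]
      rw [h2, h3]
      simp
    · rw [if_neg h1]
      rcases Nat.eq_zero_or_pos ((j : ℕ) - i) with h2 | h2
      · rw [h2]; simp
      · have h3 : (j : ℕ) - i - 1 ≠ 0 := by omega
        rw [zero_pow h3]; simp
  · simp only [if_neg hij]
    have hij' : ¬ ((i : ℕ) ≤ j) := hij
    rw [if_neg (by omega)]
    exact hasDerivAt_const 0 0

end Pool.DM
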