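import Pool.Agent.Work.MP_c20ce7_st.Interface
import Pool.Agent.Work.MP_c20ce7_st.Sym

set_option autoImplicit false

open MvPolynomial Pool.Agent.MPc20ce7

noncomputable section

namespace Pool.ABV

/-- The representation of `SL_2(ℂ)`. -/
def SKH_S (k : ℕ) : SL2 →* Matrix (Fin k) (Fin k) ℂ where
  toFun g := DM.S k (g : Matrix (Fin 2) (Fin 2) ℂ)
  map_one' := by
    rw [Matrix.SpecialLinearGroup.coe_one]
    exact DM.S_one k
  map_mul' g h := by
    rw [Matrix.SpecialLinearGroup.coe_mul]
    exact DM.S_mul k _ _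

theorem p_SKH : S_SKH := by
  intro k
  refine ⟨SKH_S k, ?_, ?_, ?_⟩
  · choose P hP using DM.S_poly k
    exact ⟨P, fun g i j => hP i j g⟩
  · intro y g hy hg
    change DM.S k (g : Matrix (Fin 2) (Fin 2) ℂ) = _
    rw [hg, DM.S_diag]
    congr 1
    funext i
    have hi := i.2
    rw [inv_pow, ← zpow_natCast, ← zpow_natCast, ← zpow_neg, ← zpow_add₀ hy]
    congr 1
    omega
  · intro i j
    exact DM.S_deriv k i j

end Pool.ABV
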