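import Pool.Agent.Work.MP_c20ce7_st.Interface

/-!
# Block SSD: matrices conjugate to a diagonal matrix are semisimple (typed by helper99)
-/

set_option autoImplicit false

open MvPolynomial Pool.Agent.MPc20ce7

noncomputable section

namespace Pool.ABV

/-- The algebra homomorphism `x ↦ h x g`. -/
def SSD_hom {ι κ : Type} [Fintype ι] [DecidableEq ι] [Fintype κ] [DecidableEq κ]
    (h : Matrix ι κ ℂ) (g : Matrix κ ι ℂ) (h1 : g * h = 1) (h2 : h * g = 1) :
    Matrix κ κ ℂ →ₐ[ℂ] Matrix ι ι ℂ :=
  AlgHom.ofLinearMap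
    { toFun := fun x => h * x * g
      map_add' := fun x y => by rw [Matrix.mul_add, Matrix.add_mul]
      map_smul' := fun c x => by
        rw [Matrix.mul_smul, Matrix.smul_mul]
        rfl }
    (by
      show h * (1 : Matrix κ κ ℂ) * g = 1
      rw [Matrix.mul_one, h2])
    (fun x y => by
      show h * (x * y) * g = h * x * g * (h * y * g)
      calc h * (x * y) * g = h * x * (1 * y) * g := by
            rw [Matrix.one_mul, Matrix.mul_assoc h x y]
        _ = h * x * ((g * h) * y) * g := by rw [h1]
        _ = h * x * g * (h * y * g) := by simp only [Matrix.mul_assoc])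

theorem p_SSD : S_SSD := by
  classical
  intro ι κ _ _ _ _ h g c h1 h2
  set S : Finset ℂ := Finset.univ.image c with hS
  set q : Polynomial ℂ := ∏ a ∈ S, (Polynomial.X - Polynomial.C a) with hq
  have hsq : Squarefree q := by
    have hsep : q.Separable := by
      rw [hq]
      exact Polynomial.separable_prod_X_sub_C_iff'.2 (fun x _ y _ hxy => hxy)
    exact hsep.squarefree
  refine Module.End.isSemisimple_of_squarefree_aeval_eq_zero hsq ?_
  have e1 : Polynomial.aeval (Matrix.toLin' (h * Matrix.diagonal c * g)) q =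
      Matrix.toLinAlgEquiv' (Polynomial.aeval (h * Matrix.diagonal c * g) q) := by
    have := Polynomial.aeval_algHom_apply
      (Matrix.toLinAlgEquiv' : Matrix ι ι ℂ ≃ₐ[ℂ] _).toAlgHom (h * Matrix.diagonal c * g) q
    exact this
  have e2 : Polynomial.aeval (h * Matrix.diagonal c * g) q =
      SSD_hom h g h1 h2 (Polynomial.aeval (Matrix.diagonal c) q) :=
    Polynomial.aeval_algHom_apply (SSD_hom h g h1 h2) (Matrix.diagonal c) q
  have e3 : Polynomial.aeval (Matrix.diagonal c : Matrix κ κ ℂ) q =
      Matrix.diagonal (Polynomial.aeval c q) :=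
    Polynomial.aeval_algHom_apply (Matrix.diagonalAlgHom (n := κ) (α := ℂ) ℂ) c q
  have e4 : Polynomial.aeval c q = 0 := by
    funext i
    have e5 : (Polynomial.aeval c q) i = Polynomial.aeval (c i) q :=
      (Polynomial.aeval_algHom_apply (Pi.evalAlgHom ℂ (fun _ : κ => ℂ) i) c q).symm
    rw [e5, hq, map_prod]
    refine Finset.prod_eq_zero (i := c i) (Finset.mem_image_of_mem c (Finset.mem_univ i)) ?_
    simp
  have e6 : Matrix.diagonal (0 : κ → ℂ) = 0 := Matrix.diagonal_zero
  rw [e1, e2, e3, e4, e6, map_zero, map_zero]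

end Pool.ABV
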