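import Pool.Agent.Work.MP_c20ce7_st.Interface

/-!
# Block TRA (helper79): bijections of the index sets
-/

set_option autoImplicit false
set_option linter.unusedSectionVars false

open MvPolynomial Pool.Agent.MPc20ce7

noncomputable section

namespace Pool.ABV

section Perm

variable {σ ρ : Type} [Fintype σ] [DecidableEq σ] [Fintype ρ] [DecidableEq ρ]

/-- The matrix of a bijection. -/
def TRA_M (θ : σ ≃ ρ) : Matrix ρ σ ℂ := fun c d => if c = θ d then 1 else 0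

/-- Its inverse. -/
def TRA_M' (θ : σ ≃ ρ) : Matrix σ ρ ℂ := fun d c => if c = θ d then 1 else 0

lemma TRA_sum (θ : σ ≃ ρ) {A : Type} [AddCommMonoid A] [Module ℂ A] (f : σ → A) (c : ρ) :
    ∑ d, TRA_M θ c d • f d = f (θ.symm c) := by
  rw [Finset.sum_eq_single (θ.symm c)]
  · simp [TRA_M]
  · intro d _ hd
    have h : c ≠ θ d := fun h => hd (by rw [h, Equiv.symm_apply_apply])
    simp [TRA_M, h]
  · intro h
    exact absurd (Finset.mem_univ _) h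

lemma TRA_sum' (θ : σ ≃ ρ) {A : Type} [AddCommMonoid A] [Module ℂ A] (f : σ → A) (c : ρ) :
    ∑ d, TRA_M' θ d c • f d = f (θ.symm c) := TRA_sum θ f c

lemma TRA_mul (θ : σ ≃ ρ) : TRA_M θ * TRA_M' θ = 1 := by
  ext c c'
  rw [Matrix.mul_apply]
  have h := TRA_sum θ (fun d => TRA_M' θ d c') c
  simp only [smul_eq_mul] at h
  rw [h, TRA_M', Equiv.apply_symm_apply, Matrix.one_apply]
  exact if_congr eq_comm rfl rfl

lemma TRA_mul' (θ : σ ≃ ρ) : TRA_M' θ * TRA_M θ = 1 := by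
  ext d d'
  rw [Matrix.mul_apply, Finset.sum_eq_single (θ d)]
  · by_cases h : d = d'
    · subst h
      simp [TRA_M, TRA_M']
    · simp [TRA_M, TRA_M', h]
  · intro c _ hc
    simp [TRA_M', hc]
  · intro h
    exact absurd (Finset.mem_univ _) h

lemma TRA_mulVec (θ : σ ≃ ρ) (v : σ → ℂ) : (TRA_M θ).mulVec v = v ∘ θ.symm := by
  funext c
  have h := TRA_sum θ v c
  simp only [smul_eq_mul] at h
  exact h

lemma TRA_vecMul (θ : σ ≃ ρ) (v : σ → ℂ) : Matrix.vecMul v (TRA_M' θ) = v ∘ θ.symm := by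
  funext c
  have h := TRA_sum' θ v c
  simp only [smul_eq_mul] at h
  rw [Function.comp_apply, ← h]
  exact Finset.sum_congr rfl fun d _ => mul_comm _ _

end Perm

section Space

variable {ι κ : Type} [Fintype ι] [DecidableEq ι] [Fintype κ] [DecidableEq κ] {e : ι → ℝ} {e' : κ → ℝ}
  {τ : ι ≃ κ}

/-- The bijection of the coordinates. -/
def TRA_co (hτ : ∀ i, e' (τ i) = e i) : DM.Co e ≃ DM.Co e' :=
  (τ.prodCongr τ).subtypeEquiv fun p => by
    show e p.1 = e p.2 + 1 ↔ e' (τ p.1) = e' (τ p.2) + 1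
    rw [hτ, hτ]

lemma TRA_co_apply (hτ : ∀ i, e' (τ i) = e i) (c : DM.Co e) :
    (TRA_co hτ c).1 = (τ c.1.1, τ c.1.2) := rfl

lemma TRA_mat (hτ : ∀ i, e' (τ i) = e i) (v : DM.Co e' → ℂ) :
    (DM.mat e' v).submatrix τ τ = DM.mat e (v ∘ TRA_co hτ) := by
  ext a b
  rw [Matrix.submatrix_apply]
  unfold DM.mat
  by_cases h : e a = e b + 1
  · have h' : e' (τ a) = e' (τ b) + 1 := by rw [hτ, hτ, h]
    rw [dif_pos h', dif_pos h]
    rfl
  · have h' : ¬ e' (τ a) = e' (τ b) + 1 := by rw [hτ, hτ]; exact h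
    rw [dif_neg h', dif_neg h]

lemma TRA_orb (hTRO : S_TRO) (hτ : ∀ i, e' (τ i) = e i) (φ : Par) (v : DM.Co e' → ℂ) :
    v ∈ DM.orb e' φ ↔ v ∘ TRA_co hτ ∈ DM.orb e φ := by
  show DM.mat e' v ∈ orbit e' φ ↔ DM.mat e (v ∘ TRA_co hτ) ∈ orbit e φ
  rw [← TRA_mat hτ v]
  exact hTRO ι κ e e' τ hτ φ _

variable {L : Type} [AddCommGroup L] [Module ℂ L]

lemma TRA_xo (hτ : ∀ i, e' (τ i) = e i) (D : DM.WMod (DM.Co e) L) (D' : DM.WMod (DM.Co e') L)
    (hx : ∀ c, D'.x (X (TRA_co hτ c)) = D.x (X c)) (a b : ι) : D'.xo (τ a) (τ b) = D.xo a b := by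
  unfold DM.WMod.xo
  by_cases h : e a = e b + 1
  · have h' : e' (τ a) = e' (τ b) + 1 := by rw [hτ, hτ, h]
    rw [dif_pos h', dif_pos h]
    exact hx ⟨(a, b), h⟩
  · have h' : ¬ e' (τ a) = e' (τ b) + 1 := by rw [hτ, hτ]; exact h
    rw [dif_neg h', dif_neg h]

lemma TRA_dO (hτ : ∀ i, e' (τ i) = e i) (D : DM.WMod (DM.Co e) L) (D' : DM.WMod (DM.Co e') L)
    (hd : ∀ c, D'.d (X (TRA_co hτ c)) = D.d (X c)) (a b : ι) : D'.dO (τ a) (τ b) = D.dO a b := by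
  unfold DM.WMod.dO
  by_cases h : e a = e b + 1
  · have h' : e' (τ a) = e' (τ b) + 1 := by rw [hτ, hτ, h]
    rw [dif_pos h', dif_pos h]
    exact hd ⟨(a, b), h⟩
  · have h' : ¬ e' (τ a) = e' (τ b) + 1 := by rw [hτ, hτ]; exact h
    rw [dif_neg h', dif_neg h]

lemma TRA_G (hτ : ∀ i, e' (τ i) = e i) (D : DM.WMod (DM.Co e) L) (D' : DM.WMod (DM.Co e') L)
    (hx : ∀ c, D'.x (X (TRA_co hτ c)) = D.x (X c)) (hd : ∀ c, D'.d (X (TRA_co hτ c)) = D.d (X c)) (a b : ι) :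
    D'.G (τ a) (τ b) = D.G a b := by
  unfold DM.WMod.G
  rw [← Equiv.sum_comp τ, ← Equiv.sum_comp τ]
  simp only [TRA_xo hτ D D' hx, TRA_dO hτ D D' hd]

end Space

theorem p_TRA (hTRO : S_TRO) (hLC3 : S_LC3) : S_TRA := by
  intro ι κ _ _ _ _ e e' τ hτ φ ψ h
  obtain ⟨⟨vφ, hφ⟩, ⟨vψ, hψ⟩, L, i1, i2, D, hIC, hCh⟩ := h
  obtain ⟨θ, hθ⟩ : ∃ θ, θ = TRA_co hτ := ⟨_, rfl⟩
  obtain ⟨D', hx, hd, hS, hGr, hSu, hI⟩ := hLC3 (DM.Co e) (DM.Co e') (TRA_M θ) (TRA_M' θ)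
    (TRA_mul θ) (TRA_mul' θ) L D
  have hx' : ∀ c, D'.x (X (θ c)) = D.x (X c) := fun c => by
    rw [hx, TRA_sum θ (fun d => D.x (X d)), Equiv.symm_apply_apply]
  have hd' : ∀ c, D'.d (X (θ c)) = D.d (X c) := fun c => by
    rw [hd, TRA_sum' θ (fun d => D.d (X d)), Equiv.symm_apply_apply]
  have horb : ∀ (χ : Par) (v : DM.Co e' → ℂ), v ∈ DM.orb e' χ ↔ v ∘ θ ∈ DM.orb e χ := fun χ v => by
    rw [hθ]
    exact TRA_orb hTRO hτ χ v
  have hcomp : ∀ v : DM.Co e → ℂ, (v ∘ θ.symm) ∘ θ = v := fun v => by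
    funext c
    simp
  have hcomp' : ∀ v : DM.Co e' → ℂ, (v ∘ θ) ∘ θ.symm = v := fun v => by
    funext c
    simp
  have himg : (TRA_M θ).mulVec '' DM.orb e ψ = DM.orb e' ψ := by
    ext v
    constructor
    · rintro ⟨u, hu, rfl⟩
      rw [TRA_mulVec, horb, hcomp]
      exact hu
    · intro hv
      refine ⟨v ∘ θ, (horb ψ v).1 hv, ?_⟩
      rw [TRA_mulVec, hcomp']
  refine ⟨⟨vφ ∘ θ.symm, (horb φ _).2 (by rw [hcomp]; exact hφ)⟩,
    ⟨vψ ∘ θ.symm, (horb ψ _).2 (by rw [hcomp]; exact hψ)⟩, L, i1, i2, D', ⟨hS hIC.simple, hGr hIC.growth, ?_, ?_⟩, ?_⟩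
  · constructor
    · intro a u
      obtain ⟨a, rfl⟩ := τ.surjective a
      rw [TRA_G hτ D D' (fun c => by rw [← hθ]; exact hx' c) (fun c => by rw [← hθ]; exact hd' c)]
      exact hIC.equi.diag a u
    · intro a b hab heq
      obtain ⟨a, rfl⟩ := τ.surjective a
      obtain ⟨b, rfl⟩ := τ.surjective b
      rw [TRA_G hτ D D' (fun c => by rw [← hθ]; exact hx' c) (fun c => by rw [← hθ]; exact hd' c)]
      refine hIC.equi.nil a b (fun h => hab (by rw [h])) ?_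
      rw [hτ, hτ] at heq
      exact heq
  · rw [← himg]
    exact hSu _ hIC.supp
  · intro p hp
    have hq : ((p.1 ∘ θ, p.2 ∘ θ) : (DM.Co e → ℂ) × (DM.Co e → ℂ)) ∈ DM.Conormal e (DM.orb e φ) := by
      refine ⟨(horb φ p.1).1 hp.1, fun g hg => ?_⟩
      have h1 := hp.2 (g.submatrix τ.symm τ.symm) (fun a b hab => by
        have h2 := hg _ _ hab
        rw [← hτ, ← hτ, Equiv.apply_symm_apply, Equiv.apply_symm_apply] at h2
        exact h2)
      rw [← Equiv.sum_comp θ] at h1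
      rw [← h1]
      refine Finset.sum_congr rfl fun c _ => ?_
      have hg1 : g = (g.submatrix τ.symm τ.symm).submatrix τ τ := by
        ext a b
        simp
      have h3 : g * DM.mat e (p.1 ∘ θ) - DM.mat e (p.1 ∘ θ) * g =
          (g.submatrix τ.symm τ.symm * DM.mat e' p.1 - DM.mat e' p.1 * g.submatrix τ.symm τ.symm).submatrix τ τ := by
        have e1 : (g.submatrix τ.symm τ.symm * DM.mat e' p.1).submatrix τ τ = g * DM.mat e (p.1 ∘ θ) := by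
          rw [← Matrix.submatrix_mul_equiv _ _ τ τ τ, ← hg1, hθ, TRA_mat hτ p.1]
        have e2 : (DM.mat e' p.1 * g.submatrix τ.symm τ.symm).submatrix τ τ = DM.mat e (p.1 ∘ θ) * g := by
          rw [← Matrix.submatrix_mul_equiv _ _ τ τ τ, ← hg1, hθ, TRA_mat hτ p.1]
        rw [← e1, ← e2]
        rfl
      show p.2 (θ c) * (g * DM.mat e (p.1 ∘ θ) - DM.mat e (p.1 ∘ θ) * g) c.1.1 c.1.2 = _
      rw [h3, hθ, TRA_co_apply]
      rfl
    have h4 := hI _ _ (hCh _ hq)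
    rw [TRA_mulVec, TRA_vecMul, hcomp', hcomp'] at h4
    exact h4

end Pool.ABV
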