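import Pool.Agent.Work.MP_c20ce7_st.Interface

/-! Block TRG (typed by helper49). -/

set_option autoImplicit false

open MvPolynomial Pool.Agent.MPc20ce7

noncomputable section

namespace Pool.ABV

theorem TRG_cont {ι κ : Type} (τ : ι ≃ κ) :
    Continuous fun y : Matrix ι ι ℂ => y.submatrix τ.symm τ.symm :=
  continuous_id.matrix_submatrix _ _

theorem p_TRG (hTRO : S_TRO) : S_TRG := by
  intro ι κ _ _ _ _ e e' τ hτ φ φ' h x hx
  have h1 : x.submatrix τ τ ∈ closure (orbit e φ) := h ((hTRO ι κ e e' τ hτ φ' x).1 hx)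
  have h2 : (x.submatrix τ τ).submatrix τ.symm τ.symm = x := by
    ext a b
    simp [Matrix.submatrix_apply]
  rw [← h2]
  refine map_mem_closure (f := fun y : Matrix ι ι ℂ => y.submatrix τ.symm τ.symm) (TRG_cont τ) h1 ?_
  intro y hy
  refine (hTRO ι κ e e' τ hτ φ _).2 ?_
  have h3 : (y.submatrix τ.symm τ.symm).submatrix τ τ = y := by
    ext a b
    simp [Matrix.submatrix_apply]
  rw [h3]
  exact hy

end Pool.ABV
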