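import Pool.Agent.Work.MP_c20ce7_st.Interface
import Pool.Agent.Work.MP_c20ce7_nt.B_CJ
import Pool.Agent.Work.MP_c20ce7_nt.B_EQ

/-!
# Block TRO: orbits under a bijection of the index sets (helper86)
-/

set_option autoImplicit false

namespace Pool.ABV

open Pool.Agent.MPc20ce7

theorem p_TRO : S_TRO := by
  intro ι κ _ _ _ _ e e' τ hτ φ x
  have h : Conj e (x.submatrix τ τ) e' x :=
    p_EQ ι κ τ e (x.submatrix τ τ) e' x hτ fun _ _ => rfl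
  constructor
  · rintro ⟨l, hl, hx⟩
    exact ⟨l, hl, p_CJ.2.2 _ _ _ _ _ _ _ _ _ h hx⟩
  · rintro ⟨l, hl, hx⟩
    exact ⟨l, hl, p_CJ.2.2 _ _ _ _ _ _ _ _ _ (p_CJ.2.1 _ _ _ _ _ _ h) hx⟩

end Pool.ABV
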