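import Pool.Agent.Work.MP_c20ce7_st.Interface

set_option autoImplicit false

noncomputable section

namespace Pool.ABV

/-- Real powers determine the exponent when the base is positive and different from `1`. -/
theorem VVE_rpow {t a b : ℝ} (ht : 0 < t) (ht1 : t ≠ 1) (h : t ^ a = t ^ b) : a = b := by
  have h1 := congrArg Real.log h
  rw [Real.log_rpow ht, Real.log_rpow ht] at h1
  exact mul_right_cancel₀ (Real.log_ne_zero_of_pos_of_ne_one ht ht1) h1

/-- VVE. -/
theorem p_VVE : S_VVE := by
  intro W _ _ N ι _ _ e x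
  have key : ∀ (w : W) (i j : ι),
      ((N.abs w : ℝ) : ℂ) * (x i j * (((N.abs w) ^ (e j) : ℝ) : ℂ)) =
        x i j * (((N.abs w) ^ (e j + 1) : ℝ) : ℂ) := by
    intro w i j
    rw [Real.rpow_add (N.pos w), Real.rpow_one, Complex.ofReal_mul]
    ring
  have key2 : ∀ (w : W) (i j : ι), (dgm N e w * x) i j = x i j * (((N.abs w) ^ (e i) : ℝ) : ℂ) := by
    intro w i j
    rw [dgm, Matrix.diagonal_mul, mul_comm]
  have key3 : ∀ (w : W) (i j : ι), (((N.abs w : ℝ) : ℂ) • (x * dgm N e w)) i j =
      x i j * (((N.abs w) ^ (e j + 1) : ℝ) : ℂ) := by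
    intro w i j
    rw [Matrix.smul_apply, dgm, Matrix.mul_diagonal, smul_eq_mul, key]
  constructor
  · intro hx i j hij
    obtain ⟨w, hw⟩ := N.nontriv
    have h1 := congrFun (congrFun (hx w) i) j
    rw [key2, key3] at h1
    have h2 := mul_left_cancel₀ hij h1
    exact VVE_rpow (N.pos w) hw (by exact_mod_cast h2)
  · intro hx w
    ext i j
    rw [key2, key3]
    by_cases hij : x i j = 0
    · rw [hij, zero_mul, zero_mul]
    · rw [hx i j hij]

end Pool.ABV
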