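import Pool.Agent.Work.MP_c20ce7_dm.Defs

/-!
# ABV-packets of `GL_n(F)`: L-parameters

`W` is a topological group with a norm `|.| : W → ℝ_{>0}`, a continuous homomorphism which is not trivial.
The example is the Weil group of a non-archimedean local field `F`. `GL_ι(ℂ)` is the group of the invertible
complex matrices with rows and columns in the finite set `ι`, so `n` is the number of elements of `ι`.
-/

set_option autoImplicit false

open MvPolynomial

noncomputable section

namespace Pool.ABV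

/-- A norm on the topological group `W`. -/
structure Nrm (W : Type) [Group W] [TopologicalSpace W] where
  abs : W →* ℝ
  pos : ∀ w, 0 < abs w
  cont : Continuous abs
  nontriv : ∃ w, abs w ≠ 1

/-- The group `SL_2(ℂ)`. -/
abbrev SL2 : Type := Matrix.SpecialLinearGroup (Fin 2) ℂ

/-- The matrix `(1 t; 0 1)`. -/
def un (t : ℂ) : SL2 := ⟨!![1, t; 0, 1], by simp [Matrix.det_fin_two]⟩

variable {W : Type} [Group W] [TopologicalSpace W]

/-- The matrix `diag(|w| ^ (1/2), |w| ^ (-1/2))`. -/
def dg (N : Nrm W) (w : W) : SL2 :=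
  ⟨!![(((N.abs w) ^ (1 / 2 : ℝ) : ℝ) : ℂ), 0; 0, (((N.abs w) ^ (-(1 / 2) : ℝ) : ℝ) : ℂ)], by
    rw [Matrix.det_fin_two]
    simp only [Matrix.of_apply, Matrix.cons_val', Matrix.cons_val_zero, Matrix.cons_val_one]
    rw [← Complex.ofReal_mul, ← Real.rpow_add (N.pos w)]
    simp⟩

variable (W) in
/-- An L-parameter: a homomorphism `φ : W × SL_2(ℂ) → GL_ι(ℂ)`, continuous on `W`, such that `φ(w, 1)` is
semisimple for all `w` in `W`, and whose restriction to `SL_2(ℂ)` is algebraic. -/
structure LParam (ι : Type) [Fintype ι] [DecidableEq ι] where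
  hom : W × SL2 →* GL ι ℂ
  cont : Continuous fun w : W => (hom (w, 1) : Matrix ι ι ℂ)
  semisimple : ∀ w : W, Module.End.IsSemisimple (Matrix.toLin' (hom (w, 1) : Matrix ι ι ℂ))
  algebraic : ∃ P : ι → ι → MvPolynomial (Fin 2 × Fin 2) ℂ, ∀ (g : SL2) (a b : ι),
    (hom (1, g) : Matrix ι ι ℂ) a b = eval (fun p : Fin 2 × Fin 2 => (g : Matrix (Fin 2) (Fin 2) ℂ) p.1 p.2) (P a b)

section Param

variable {ι : Type} [Fintype ι] [DecidableEq ι]

/-- The infinitesimal parameter `λ_φ(w) = φ(w, diag(|w| ^ (1/2), |w| ^ (-1/2)))`. -/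
def lam (N : Nrm W) (φ : LParam W ι) (w : W) : Matrix ι ι ℂ := (φ.hom (w, dg N w) : Matrix ι ι ℂ)

/-- The matrix `x_φ = dφ(1, (0 1; 0 0))`, the derivative of `φ(1, (1 t; 0 1))` at `t = 0`. -/
def xp (φ : LParam W ι) : Matrix ι ι ℂ := fun a b =>
  deriv (fun t : ℂ => (φ.hom (1, un t) : Matrix ι ι ℂ) a b) 0

/-- The space `V_λ` of the matrices `x` with `λ(w) x λ(w)⁻¹ = |w| x` for all `w`. -/
def VV (N : Nrm W) (l : W → Matrix ι ι ℂ) : Submodule ℂ (Matrix ι ι ℂ) where
  carrier := {x | ∀ w, l w * x = ((N.abs w : ℝ) : ℂ) • (x * l w)}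
  add_mem' := by
    intro a b ha hb w
    rw [mul_add, add_mul, smul_add, ha w, hb w]
  zero_mem' := by intro w; simp
  smul_mem' := by
    intro c a ha w
    rw [mul_smul_comm, ha w, smul_mul_assoc, smul_comm]

/-- The algebra of the matrices which commute with all `λ(w)`. The group `H_λ` is its unit group, and the Lie
algebra of `H_λ` is this algebra. -/
def AA (l : W → Matrix ι ι ℂ) : Subalgebra ℂ (Matrix ι ι ℂ) := Subalgebra.centralizer ℂ (Set.range l)

/-- The orbit `C_φ = H_λ x_φ` in `V_λ`, `λ = λ_φ`. -/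
def Orb (N : Nrm W) (φ : LParam W ι) : Set (Matrix ι ι ℂ) :=
  {x | ∃ h : GL ι ℂ, (h : Matrix ι ι ℂ) ∈ AA (lam N φ) ∧
    x = (h : Matrix ι ι ℂ) * xp φ * ((h⁻¹ : GL ι ℂ) : Matrix ι ι ℂ)}

/-- The closure order: `φ` and `φ'` have the same infinitesimal parameter and `C_φ'` is contained in the
closure of `C_φ`. -/
def Geq (N : Nrm W) (φ φ' : LParam W ι) : Prop :=
  lam N φ = lam N φ' ∧ Orb N φ' ⊆ closure (Orb N φ)

end Param

/-! ## Modules over the ring of differential operators of `V_λ` -/

section Modules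

variable {ι : Type} [Fintype ι] [DecidableEq ι] {V : Submodule ℂ (Matrix ι ι ℂ)}
variable {σ : Type} [Fintype σ] [DecidableEq σ] {L : Type} [AddCommGroup L] [Module ℂ L]

/-- The coordinates of the matrix `x` for the basis `b` of the space `V` of matrices (zero if `x` is not in
`V`). -/
def crd (b : Module.Basis σ ℂ V) (x : Matrix ι ι ℂ) : σ → ℂ := by
  classical exact fun c => if h : x ∈ V then b.repr ⟨x, h⟩ c else 0

/-- The vector field `x ↦ a x - x a` on `V` (which is stable under this map), acting on a module over the ring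
of differential operators of `V`, in the coordinates of the basis `b`. -/
def field (b : Module.Basis σ ℂ V) (W : DM.WMod σ L) (a : Matrix ι ι ℂ) : Module.End ℂ L :=
  ∑ c, ∑ c', crd b (a * (b c : Matrix ι ι ℂ) - (b c : Matrix ι ι ℂ) * a) c' •
    (W.x (X c) * W.d (X c'))

/-- The module is `H_λ`-equivariant, where `H_λ` is the unit group of the algebra `A` of matrices: the vector
field of every idempotent `a` of `A` is diagonalizable with integral eigenvalues. (The one-parameter groups
`{1 - a + t a, t ∈ ℂ*}` generate `H_λ`; the condition says that the action of the Lie algebra of `H_λ` by vector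
fields comes from an algebraic action of `H_λ`.) -/
def Equivariant (A : Subalgebra ℂ (Matrix ι ι ℂ)) (b : Module.Basis σ ℂ V) (W : DM.WMod σ L) : Prop :=
  ∀ a ∈ A, a * a = a → ∀ u : L, u ∈ ⨆ n : ℤ, Module.End.eigenspace (field b W a) (n : ℂ)

/-- The module of the intersection cohomology sheaf of the closure of the orbit `C`, in the coordinates of the
basis `b` of `V_λ`: simple, holonomic (Bernstein's criterion), equivariant, with support the closure of `C`. -/
structure IsIC (A : Subalgebra ℂ (Matrix ι ι ℂ)) (b : Module.Basis σ ℂ V) (W : DM.WMod σ L)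
    (C : Set (Matrix ι ι ℂ)) : Prop where
  simple : W.Simple
  growth : W.Growth
  equi : Equivariant A b W
  supp : W.SuppEq (crd b '' C)

end Modules

section ABV

variable {ι : Type} [Fintype ι] [DecidableEq ι]

/-- The conormal bundle of the orbit `C`, in the coordinates of the basis `b` of `V_λ` and the dual coordinates:
the pairs `(x, ξ)` with `x ∈ C` and `ξ` orthogonal to the tangent space `{a x - x a, a ∈ A}`. -/
def Conormal {σ : Type} [Fintype σ] {V : Submodule ℂ (Matrix ι ι ℂ)} (A : Subalgebra ℂ (Matrix ι ι ℂ))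
    (b : Module.Basis σ ℂ V) (C : Set (Matrix ι ι ℂ)) : Set ((σ → ℂ) × (σ → ℂ)) :=
  {p | ∃ x ∈ C, p.1 = crd b x ∧ ∀ a ∈ A, ∑ c, p.2 c * crd b (a * x - x * a) c = 0}

/-- Let `π` be the irreducible representation with the parameter `ψ`. It is in the ABV-packet of `φ`: the
parameters `φ` and `ψ` have the same infinitesimal parameter `λ`, and the conormal bundle of `C_φ` is contained
in the characteristic variety of the module of `IC(closure C_ψ)`. -/
def InABV (N : Nrm W) (φ ψ : LParam W ι) : Prop :=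
  lam N φ = lam N ψ ∧
    ∃ (σ : Type) (_ : Fintype σ) (_ : DecidableEq σ) (b : Module.Basis σ ℂ (VV N (lam N ψ)))
      (L : Type) (_ : AddCommGroup L) (_ : Module ℂ L) (D : DM.WMod σ L),
      IsIC (AA (lam N ψ)) b D (Orb N ψ) ∧
        ∀ p ∈ Conormal (AA (lam N ψ)) b (Orb N φ), D.InCh p.1 p.2

end ABV

/-! ## The lift -/

section Lift

variable {ι : Type} [Fintype ι] [DecidableEq ι]

/-- The parameter `φ_α = φ^∨ ⊕ ⊕_{i < α} |.|^((α - 1) / 2 - i) ⊗ S_1`, as a relation between parameters: `φ^∨` is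
the transposed inverse, and `φ_α` is a matrix with two diagonal blocks. If `φ` is the parameter of `π` then
`φ_α` is the parameter of the theta lift `θ_{-α}(π)`. -/
def IsLift (N : Nrm W) (α : ℕ) (φ : LParam W ι) (φα : LParam W (ι ⊕ Fin α)) : Prop :=
  ∀ (w : W) (g : SL2), (φα.hom (w, g) : Matrix (ι ⊕ Fin α) (ι ⊕ Fin α) ℂ) =
    Matrix.fromBlocks (Matrix.transpose ((φ.hom (w, g))⁻¹ : GL ι ℂ) : Matrix ι ι ℂ) 0 0
      (Matrix.diagonal fun i : Fin α => (((N.abs w) ^ (((α : ℝ) - 1) / 2 - (i : ℕ)) : ℝ) : ℂ))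

/-- The question Q1, for `W` with its norm. -/
def Q1 (N : Nrm W) : Prop :=
  ∀ (ι : Type) [Fintype ι] [DecidableEq ι] (α : ℕ) (φ φ' ψ : LParam W ι) (φα φα' ψα : LParam W (ι ⊕ Fin α)),
    IsLift N α φ φα → IsLift N α φ' φα' → IsLift N α ψ ψα →
    Geq N φ φ' → InABV N φ ψ → InABV N φ' ψ → InABV N φα' ψα → InABV N φα ψα

end Lift

end Pool.ABV
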