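import Pool.Agent.Work.MP_c20ce7_st.Defs
import Pool.Agent.Work.MP_c20ce7_nt.Interface

/-!
# The outer layer: statements of the blocks

Conventions: the theorem of the block `XYZ` is `theorem p_XYZ : S_XYZ`, in the file `B_XYZ.lean`, namespace
`Pool.ABV`; blocks named under `Uses` are hypotheses `(hABC : S_ABC)` in that order (the files of the blocks
`CJ`, `EQ`, `PM` of `MP_c20ce7_nt` are proved and can be imported: `p_CJ`, `p_EQ`, `p_PM` in the namespace
`Pool.Agent.MPc20ce7`).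
-/

set_option autoImplicit false

open MvPolynomial Pool.Agent.MPc20ce7

noncomputable section

namespace Pool.ABV

/-! ## Definitions used in the statements -/

section Aux

variable {W : Type} [Group W] [TopologicalSpace W] {ι : Type} [Fintype ι] [DecidableEq ι]
variable {L : Type} [AddCommGroup L] [Module ℂ L]

/-- The diagonal matrix `diag(|w| ^ e)`. -/
def dgm (N : Nrm W) (e : ι → ℝ) (w : W) : Matrix ι ι ℂ :=
  Matrix.diagonal fun i => (((N.abs w) ^ (e i) : ℝ) : ℂ)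

/-- Block matrices. -/
def IsBlk (e : ι → ℝ) (a : Matrix ι ι ℂ) : Prop := ∀ i j, a i j ≠ 0 → e i = e j

/-- The L-parameter `Φ` has `λ(w) = diag(|w| ^ e)` and is conjugate to the parameter `φ`. -/
def Reals (N : Nrm W) (e : ι → ℝ) (φ : Par) (Φ : LParam W ι) : Prop :=
  (∀ w, lam N Φ w = dgm N e w) ∧
    ∃ l : List (ℝ × ℕ), (l : Par) = φ ∧ Conj e (xp Φ) (expo l) (nil l)

/-- The matrices `Φ(w, 1)` are simultaneously diagonalizable. -/
def Nice (Φ : LParam W ι) : Prop :=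
  ∃ (g h : Matrix ι ι ℂ) (c : W → ι → ℂ), g * h = 1 ∧ h * g = 1 ∧
    ∀ w, (Φ.hom (w, 1) : Matrix ι ι ℂ) = h * Matrix.diagonal (c w) * g

/-- The exponents of the lift. -/
def eL (e : ι → ℝ) (α : ℕ) : ι ⊕ Fin α → ℝ :=
  Sum.elim (fun i => - e i) (fun i : Fin α => ((α : ℝ) - 1) / 2 - (i : ℕ))

/-- `ABV` for a fixed coordinate system. -/
def ABVat (e : ι → ℝ) (φ ψ : Par) : Prop :=
  (DM.orb e φ).Nonempty ∧ (DM.orb e ψ).Nonempty ∧
    ∃ (L : Type) (_ : AddCommGroup L) (_ : Module ℂ L) (D : DM.WMod (DM.Co e) L), D.IsIC (DM.orb e ψ) ∧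
      ∀ p ∈ DM.Conormal e (DM.orb e φ), D.InCh p.1 p.2

/-- `a` is a primitive idempotent of the algebra `A` (or `0`). -/
def IsPrim (A : Subalgebra ℂ (Matrix ι ι ℂ)) (a : Matrix ι ι ℂ) : Prop :=
  a ∈ A ∧ a * a = a ∧ ∀ x ∈ A, ∃ c : ℂ, a * x * a = c • a

/-- Diagonalizable with integral eigenvalues. -/
def DiagZ (f : Module.End ℂ L) : Prop := ∀ u : L, u ∈ ⨆ n : ℤ, Module.End.eigenspace f (n : ℂ)

/-- The vector field `x ↦ [a, x]` for the block matrix `a`, in the coordinates `Co e`. -/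
def fld {e : ι → ℝ} (D : DM.WMod (DM.Co e) L) (a : Matrix ι ι ℂ) : Module.End ℂ L :=
  ∑ p, ∑ q, a p q • D.G p q

end Aux

/-! ## A. Parameters -/

/-- CEN (40).  Proof.  `a` commutes with `diag(|w| ^ e)`: `|w| ^ (e i) a i j = a i j |w| ^ (e j)`. If `a i j ≠ 0`
then `|w| ^ (e i) = |w| ^ (e j)` for all `w`; take `w` with `|w| ≠ 1` (`Real.rpow` is injective in the exponent
for a positive base `≠ 1`: take logarithms). -/
def S_CEN : Prop :=
  ∀ (W : Type) [Group W] [TopologicalSpace W] (N : Nrm W) (ι : Type) [Fintype ι] [DecidableEq ι] (e : ι → ℝ)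
    (a : Matrix ι ι ℂ), a ∈ AA (dgm N e) ↔ IsBlk e a

/-- VVE (40).  Proof as CEN: `|w| ^ (e i) x i j = |w| x i j |w| ^ (e j)`, `|w| |w| ^ s = |w| ^ (s + 1)`. -/
def S_VVE : Prop :=
  ∀ (W : Type) [Group W] [TopologicalSpace W] (N : Nrm W) (ι : Type) [Fintype ι] [DecidableEq ι] (e : ι → ℝ)
    (x : Matrix ι ι ℂ), x ∈ VV N (dgm N e) ↔ ∀ i j, x i j ≠ 0 → e i = e j + 1

/-- BST (80, uses VVE).  The matrix units are a basis of `V_λ`.  Proof.  Linear equivalence
`V ≃ (Co e → ℂ)`, `x ↦ (c ↦ x c.1.1 c.1.2)`, with inverse `v ↦ mat e v` (`DM.mat`); `Module.Basis.ofEquivFun`. -/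
def S_BST : Prop :=
  ∀ (W : Type) [Group W] [TopologicalSpace W] (N : Nrm W) (ι : Type) [Fintype ι] [DecidableEq ι] (e : ι → ℝ),
    ∃ b : Module.Basis (DM.Co e) ℂ (VV N (dgm N e)),
      (∀ c, (b c : Matrix ι ι ℂ) = Matrix.single c.1.1 c.1.2 1) ∧
      (∀ x ∈ VV N (dgm N e), ∀ c, crd b x c = x c.1.1 c.1.2) ∧
      (∀ x ∈ VV N (dgm N e), DM.mat e (crd b x) = x)

/-- SKH (150).  The representation `S_k` of `SL_2(ℂ)`.
Proof.  `k = 0`: trivial.  Let `m = k - 1` and for `g = (a b; c d)` let the column `j` of `S g` be the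
coefficients of the polynomial `(a + c X) ^ (m - j) (b + d X) ^ j` (degree `≤ m`):
`S g i j = coeff i`.  Homogeneous form: for all `u, v` in a commutative `ℂ`-algebra (for instance `ℂ[X]`)
`∑ i, S g i j u ^ (m - i) v ^ i = (a u + c v) ^ (m - j) (b u + d v) ^ j`.  Take this formula for `h = (a' b'; c' d')`
with `u = a + c X`, `v = b + d X`: `∑ l, S h l j (a + c X) ^ (m - l) (b + d X) ^ l` is
`(a' u + c' v) ^ (m - j) (b' u + d' v) ^ j`, and `a' u + c' v = (a a' + b c') + (c a' + d c') X`,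
`b' u + d' v = (a b' + b d') + (c b' + d d') X` are the entries for `g h`; so `S (g h) = S g S h`.
`g = diag(y, y⁻¹)`: column `j` is `y ^ (m - j) (y⁻¹ X) ^ j`.  `g = un t`: column `j` is `(t + X) ^ j`, the coefficient
of `X ^ i` is `(j choose i) t ^ (j - i)`, its derivative at `t = 0` is `j` if `i + 1 = j` and `0` otherwise. -/
def S_SKH : Prop :=
  ∀ k : ℕ, ∃ S : SL2 →* Matrix (Fin k) (Fin k) ℂ,
    (∃ P : Fin k → Fin k → MvPolynomial (Fin 2 × Fin 2) ℂ, ∀ (g : SL2) (i j : Fin k),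
      S g i j = eval (fun p : Fin 2 × Fin 2 => (g : Matrix (Fin 2) (Fin 2) ℂ) p.1 p.2) (P i j)) ∧
    (∀ (y : ℂ) (g : SL2), y ≠ 0 → (g : Matrix (Fin 2) (Fin 2) ℂ) = !![y, 0; 0, y⁻¹] →
      S g = Matrix.diagonal fun j : Fin k => y ^ ((k : ℤ) - 1 - 2 * (j : ℕ))) ∧
    (∀ i j : Fin k, HasDerivAt (fun t : ℂ => S (un t) i j) (if (i : ℕ) + 1 = j then ((j : ℕ) : ℂ) else 0) 0)

/-- REP (150, uses SKH).  The parameter `⊕ |.|^s ⊗ S_k` on the standard index set.
Proof.  Induction on `l` with `Matrix.fromBlocks (|w| ^ s • S_k g) 0 0 (R (w, g))` (`Matrix.fromBlocks_multiply`).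
`R (w, 1)`: `S_k 1 = 1`.  `S_k (dg N w)`: SKH with `y = |w| ^ (1/2)`, `y ^ (k - 1 - 2 j) |w| ^ s = |w| ^ (s + (k - 1)/2 - j)`
(`Real.rpow_natCast`, `Real.rpow_intCast`, `Real.rpow_mul`).  `d` on `Fin k` is `j ↦ 1 / j!` :
`d i (jordan i j) (d j)⁻¹ = j! / i! = j` for `i + 1 = j`.  (`expo`, `nil`, `Idx` reduce by `rfl` on `p :: l`.) -/
def S_REP : Prop :=
  ∀ (W : Type) [Group W] [TopologicalSpace W] (N : Nrm W) (l : List (ℝ × ℕ)),
    ∃ R : W × SL2 →* Matrix (Idx l) (Idx l) ℂ,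
      (∃ c : Idx l → ℝ, ∀ w, R (w, 1) = dgm N c w) ∧
      (∃ P : Idx l → Idx l → MvPolynomial (Fin 2 × Fin 2) ℂ, ∀ (g : SL2) (i j : Idx l),
        R (1, g) i j = eval (fun p : Fin 2 × Fin 2 => (g : Matrix (Fin 2) (Fin 2) ℂ) p.1 p.2) (P i j)) ∧
      (∀ w, R (w, dg N w) = dgm N (expo l) w) ∧
      (∃ d : Idx l → ℂ, (∀ i, d i ≠ 0) ∧ ∀ i j, HasDerivAt (fun t : ℂ => R (1, un t) i j)
        (d i * nil l i j * (d j)⁻¹) 0)

/-- SSD (60).  Matrices conjugate to a diagonal matrix are semisimple.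
Proof.  With `f = toLin' (h * diagonal c * g)` and the squarefree polynomial `q = ∏ (X - a)`, `a` in the
finite set of the values of `c`: `q(f) = 0` (`toLin'` is an algebra map, `q(h D g) = h q(D) g`), and
`Module.End.isSemisimple_of_squarefree_aeval_eq_zero` (`Polynomial.separable_prod_X_sub_C_iff`, ...). -/
def S_SSD : Prop :=
  ∀ (ι κ : Type) [Fintype ι] [DecidableEq ι] [Fintype κ] [DecidableEq κ] (h : Matrix ι κ ℂ) (g : Matrix κ ι ℂ)
    (c : κ → ℂ), g * h = 1 → h * g = 1 →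
    Module.End.IsSemisimple (Matrix.toLin' (h * Matrix.diagonal c * g))

/-- REA (120, uses REP, SSD).  Every point of an orbit comes from an L-parameter.
Proof.  `x ∈ orbit e φ`, `Conj e x (expo l) (nil l)` with `g, h`.  Put `Φ(w, s) = h R(w, s) g`
(a monoid homomorphism to the matrices, `MonoidHom.toHomUnits`).  `λ_Φ(w) = h diag(|w| ^ expo l) g = diag(|w| ^ e)`,
since an entry `g a i ≠ 0` only if `expo l a = e i`.  `x_Φ = h (d (nil l) d⁻¹) g` (`HasDerivAt.deriv`, finite sums);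
`Conj e x_Φ (expo l) (nil l)` with `diag(d)⁻¹ g`, `h diag(d)`.  `Nice`: the index sets `Idx l` and `ι` have the same
number of elements (`g`, `h` inverse to each other: `Matrix.square_of_invertible` or `card_eq_card_of...`), so one can
reindex; or: `Φ(w, 1) = h diag(|w| ^ c) g`, choose a bijection `τ : ι ≃ Idx l` and take `submatrix`. -/
def S_REA : Prop :=
  ∀ (W : Type) [Group W] [TopologicalSpace W] (N : Nrm W) (ι : Type) [Fintype ι] [DecidableEq ι] (e : ι → ℝ)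
    (φ : Par), (orbit e φ).Nonempty → ∃ Φ : LParam W ι, Reals N e φ Φ ∧ Nice Φ

/-- ORB (80, uses CEN).  Proof.  `⊆`: `x = h x_Φ h⁻¹` with `h` a block matrix (CEN; also `h⁻¹` is in the
centraliser), so `Conj e x e x_Φ`, and `Conj` is transitive (`p_CJ`).  `⊇`: `Conj e x (expo l') (nil l')`, `l'` a
permutation of `l` (`Multiset.coe_eq_coe`), so `Conj e x e x_Φ` by `p_PM`, `p_CJ`; the `g`, `h` are square and inverse
to each other: a unit. -/
def S_ORB : Prop :=
  ∀ (W : Type) [Group W] [TopologicalSpace W] (N : Nrm W) (ι : Type) [Fintype ι] [DecidableEq ι] (e : ι → ℝ)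
    (φ : Par) (Φ : LParam W ι), Reals N e φ Φ → Orb N Φ = orbit e φ

/-- LFE (100, uses SSD).  The lift is an L-parameter.
Proof.  The formula of `IsLift` is multiplicative and has invertible values (`MonoidHom.toHomUnits`; `(A⁻¹)ᵀ` is
multiplicative, `|w| ^ s` is).  Continuity on `W`: the inverse of an invertible matrix is continuous (entries of the
adjugate divided by the determinant) or from `Nice`; `N.cont`, `Continuous.rpow_const`.  Semisimple: `Nice` and SSD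
(`(h D g)⁻¹ᵀ = gᵀ D⁻¹ hᵀ`, blocks).  Algebraic: `Φ(1, g)⁻¹ = Φ(1, g⁻¹)` and the entries of `g⁻¹` are `d, -b, -c, a`
(`aeval` of the polynomials); the second block is `1`. -/
def S_LFE : Prop :=
  ∀ (W : Type) [Group W] [TopologicalSpace W] (N : Nrm W) (ι : Type) [Fintype ι] [DecidableEq ι] (α : ℕ)
    (Φ : LParam W ι), Nice Φ → ∃ Φα : LParam W (ι ⊕ Fin α), IsLift N α Φ Φα

/-- LFX (80).  `λ` and `x` of the lift.  Proof.  The first formula is `IsLift` at `g = dg N w`; the second: entries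
of `Φ(1, un t)` are polynomials in `t`, hence differentiable; `Φ(1, un t)⁻¹ = Φ(1, un (-t))`; chain rule. -/
def S_LFX : Prop :=
  ∀ (W : Type) [Group W] [TopologicalSpace W] (N : Nrm W) (ι : Type) [Fintype ι] [DecidableEq ι] (α : ℕ)
    (e : ι → ℝ) (Φ : LParam W ι) (Φα : LParam W (ι ⊕ Fin α)), (∀ w, lam N Φ w = dgm N e w) →
    IsLift N α Φ Φα →
    (∀ w, lam N Φα w = dgm N (eL e α) w) ∧ xp Φα = Matrix.fromBlocks (-(xp Φ).transpose) 0 0 0

/-- DUA (150).  The dual of the standard point.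
Proof.  (a) `Conj e x (expo l) (nil l)` with `g, h` gives `Conj (-e) (-xᵀ) (-expo l) (-(nil l)ᵀ)` with `hᵀ`, `gᵀ`.
(b) `Conj (-expo l) (-(nil l)ᵀ) (expo l₁) (nil l₁)`, `l₁ = l.map (-s, k)`, by induction on `l` (block diagonal matrices):
on `Fin k` the permutation `j ↦ k - 1 - j` with the signs `(-1) ^ j`.  (c) adding the pairs `(s, 1)` of the window:
`Idx (l₁ ++ l₂) ≃ Idx l₁ ⊕ Idx l₂` respects `expo` and `nil` (induction), `Idx` of the window is `Fin α` and its
`nil` is `0`; `p_EQ`, `p_CJ`. -/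
def S_DUA : Prop :=
  ∀ (ι : Type) [Fintype ι] [DecidableEq ι] (e : ι → ℝ) (x : Matrix ι ι ℂ) (l : List (ℝ × ℕ)) (α : ℕ),
    Conj e x (expo l) (nil l) → ∃ l' : List (ℝ × ℕ), (l' : Par) = lift α (l : Par) ∧
      Conj (eL e α) (Matrix.fromBlocks (-x.transpose) 0 0 0) (expo l') (nil l')

/-- LRE (30, uses LFE, LFX, DUA). -/
def S_LRE : Prop :=
  ∀ (W : Type) [Group W] [TopologicalSpace W] (N : Nrm W) (ι : Type) [Fintype ι] [DecidableEq ι] (α : ℕ)
    (e : ι → ℝ) (φ : Par) (Φ : LParam W ι), Reals N e φ Φ → Nice Φ →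
    ∃ Φα : LParam W (ι ⊕ Fin α), IsLift N α Φ Φα ∧ Reals N (eL e α) (lift α φ) Φα

/-! ## B. Change of the index set -/

/-- REI (100).  Proof.  As in ORB the points of the two orbits are conjugate (`p_PM`, `p_CJ`): there are
`g : Matrix κ ι ℂ`, `h : Matrix ι κ ℂ` inverse to each other with `g a i ≠ 0 → e' a = e i`.  For every real `r` the
submatrices of `g` and `h` with the indices `{i | e i = r}`, `{a | e' a = r}` are inverse to each other, so these sets
have the same number of elements; choose a bijection for every `r` and glue (`Equiv.sigmaFiberEquiv`,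
`Equiv.sigmaCongrRight`). -/
def S_REI : Prop :=
  ∀ (ι κ : Type) [Fintype ι] [DecidableEq ι] [Fintype κ] [DecidableEq κ] (e : ι → ℝ) (e' : κ → ℝ) (ψ : Par),
    (orbit e ψ).Nonempty → (orbit e' ψ).Nonempty → ∃ τ : ι ≃ κ, ∀ i, e' (τ i) = e i

/-- TRO (40).  Orbits under a bijection of the index sets.  Proof: `p_EQ`, `p_CJ`. -/
def S_TRO : Prop :=
  ∀ (ι κ : Type) [Fintype ι] [DecidableEq ι] [Fintype κ] [DecidableEq κ] (e : ι → ℝ) (e' : κ → ℝ) (τ : ι ≃ κ),
    (∀ i, e' (τ i) = e i) → ∀ (φ : Par) (x : Matrix κ κ ℂ),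
    x ∈ orbit e' φ ↔ x.submatrix τ τ ∈ orbit e φ

/-- TRG (40, uses TRO).  Proof: `x ↦ x.submatrix τ τ` is a homeomorphism. -/
def S_TRG : Prop :=
  ∀ (ι κ : Type) [Fintype ι] [DecidableEq ι] [Fintype κ] [DecidableEq κ] (e : ι → ℝ) (e' : κ → ℝ) (τ : ι ≃ κ),
    (∀ i, e' (τ i) = e i) → ∀ φ φ' : Par, orbit e φ' ⊆ closure (orbit e φ) →
    orbit e' φ' ⊆ closure (orbit e' φ)

/-! ## C. Linear changes of coordinates of modules over the Weyl algebra -/

/-- The substitution of symbols: `x'_c = ∑ M c d x_d`, `ξ'_c = ∑ M' d c ξ_d`. -/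
def sub {σ τ : Type} [Fintype σ] (M : Matrix τ σ ℂ) (M' : Matrix σ τ ℂ) :
    MvPolynomial (τ ⊕ τ) ℂ →ₐ[ℂ] MvPolynomial (σ ⊕ σ) ℂ :=
  aeval (Sum.elim (fun c => ∑ d, C (M c d) * X (Sum.inl d)) (fun c => ∑ d, C (M' d c) * X (Sum.inr d)))

/-- LC1 (80).  Proof.  `D'.x = D.x ∘ aeval (c ↦ ∑ M c d X_d)`, `D'.d = D.d ∘ aeval (c ↦ ∑ M' d c X_d)`;
commutator: `∑ M' d c M c' d = (M M') c' c`.  `nf`: for monomials `D'.nf m = D'.x m₁ * D'.d m₂`, and
`D.nf (f(x) g(ξ)) = D.x f * D.d g` (`nf_mul` in `MP_c20ce7_dm90/T2.lean`); both sides are linear in `P`. -/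
def S_LC1 : Prop :=
  ∀ (σ τ : Type) [Fintype σ] [DecidableEq σ] [Fintype τ] [DecidableEq τ] (M : Matrix τ σ ℂ) (M' : Matrix σ τ ℂ),
    M * M' = 1 → M' * M = 1 → ∀ (L : Type) [AddCommGroup L] [Module ℂ L] (D : DM.WMod σ L),
    ∃ D' : DM.WMod τ L,
      (∀ g : MvPolynomial τ ℂ, D'.x g = D.x (aeval (fun c => ∑ d, C (M c d) * X d) g)) ∧
      (∀ g : MvPolynomial τ ℂ, D'.d g = D.d (aeval (fun c => ∑ d, C (M' d c) * X d) g)) ∧
      (∀ P : MvPolynomial (τ ⊕ τ) ℂ, D'.nf P = D.nf (sub M M' P))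

/-- LC2 (100).  The substitution respects the order filtration and the symbols.
Proof.  `sub` maps a weighted homogeneous polynomial of weight `m` to one of weight `m`; decompose `P` into its
weighted homogeneous components. -/
def S_LC2 : Prop :=
  ∀ (σ τ : Type) [Fintype σ] [DecidableEq σ] [Fintype τ] [DecidableEq τ] (M : Matrix τ σ ℂ) (M' : Matrix σ τ ℂ)
    (m : ℕ) (P : MvPolynomial (τ ⊕ τ) ℂ),
    weightedHomogeneousComponent (DM.wt σ) m (sub M M' P) =
      sub M M' (weightedHomogeneousComponent (DM.wt τ) m P) ∧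
    (weightedTotalDegree (DM.wt τ) P ≤ m → weightedTotalDegree (DM.wt σ) (sub M M' P) ≤ m) ∧
    (∀ v ξ : σ → ℂ, eval (Sum.elim v ξ) (sub M M' P) =
      eval (Sum.elim (M.mulVec v) (Matrix.vecMul ξ M')) P)

/-- LC3 (120, uses LC1, LC2).  Proof.  `Stable` is the same condition for `D` and `D'` (the operators of each are
linear combinations of those of the other).  Growth: the same filtration; the cardinalities of `σ` and `τ` are
equal.  `SuppEq`: `D'.x g = D.x (g ∘ M)`, and `g ∘ M` runs through all polynomials. `InCh`: LC1, LC2. -/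
def S_LC3 : Prop :=
  ∀ (σ τ : Type) [Fintype σ] [DecidableEq σ] [Fintype τ] [DecidableEq τ] (M : Matrix τ σ ℂ) (M' : Matrix σ τ ℂ),
    M * M' = 1 → M' * M = 1 → ∀ (L : Type) [AddCommGroup L] [Module ℂ L] (D : DM.WMod σ L),
    ∃ D' : DM.WMod τ L,
      (∀ c, D'.x (X c) = ∑ d, M c d • D.x (X d)) ∧ (∀ c, D'.d (X c) = ∑ d, M' d c • D.d (X d)) ∧
      (D.Simple → D'.Simple) ∧ (D.Growth → D'.Growth) ∧
      (∀ C : Set (σ → ℂ), D.SuppEq C → D'.SuppEq (M.mulVec '' C)) ∧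
      (∀ v ξ : σ → ℂ, D.InCh v ξ → D'.InCh (M.mulVec v) (Matrix.vecMul ξ M'))

/-- TRA (120, uses TRO, LC3).  `ABVat` under a bijection of the index sets.
Proof.  `τ` induces a bijection `Co e ≃ Co e'`; `M`, `M'` its permutation matrices; `D'` from LC3 has
`D'.G (τ a) (τ b) = D.G a b`.  Orbits by TRO; the conormal bundles correspond to each other. -/
def S_TRA : Prop :=
  ∀ (ι κ : Type) [Fintype ι] [DecidableEq ι] [Fintype κ] [DecidableEq κ] (e : ι → ℝ) (e' : κ → ℝ) (τ : ι ≃ κ),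
    (∀ i, e' (τ i) = e i) → ∀ φ ψ : Par, ABVat e φ ψ → ABVat e' φ ψ

/-- FLD (100, uses VVE).  The vector field of a block matrix in the standard basis.
Proof.  `[a, E_ij] = ∑ p, a p i E_pj - ∑ q, a j q E_iq`; compare the coefficients of `x_c ∂_c'`. -/
def S_FLD : Prop :=
  ∀ (W : Type) [Group W] [TopologicalSpace W] (N : Nrm W) (ι : Type) [Fintype ι] [DecidableEq ι] (e : ι → ℝ)
    (b : Module.Basis (DM.Co e) ℂ (VV N (dgm N e))),
    (∀ c, (b c : Matrix ι ι ℂ) = Matrix.single c.1.1 c.1.2 1) →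
    (∀ x ∈ VV N (dgm N e), ∀ c, crd b x c = x c.1.1 c.1.2) →
    ∀ (L : Type) [AddCommGroup L] [Module ℂ L] (D : DM.WMod (DM.Co e) L) (a : Matrix ι ι ℂ), IsBlk e a →
    field b D a = fld D a

/-- FCH (80).  The vector field does not depend on the basis.  Proof.  `T v = a v - v a` is a linear map of `V`;
`field b D a = ∑ c c', T_(c' c) x_c ∂_c'` for the matrix of `T`; the matrices for the two bases are conjugate by the
matrix `M c d = b'.repr (b d) c` and its inverse `M' d c = b.repr (b' c) d`. -/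
def S_FCH : Prop :=
  ∀ (ι : Type) [Fintype ι] [DecidableEq ι] (V : Submodule ℂ (Matrix ι ι ℂ)) (σ τ : Type) [Fintype σ]
    [DecidableEq σ] [Fintype τ] [DecidableEq τ] (b : Module.Basis σ ℂ V) (b' : Module.Basis τ ℂ V)
    (L : Type) [AddCommGroup L] [Module ℂ L] (D : DM.WMod σ L) (D' : DM.WMod τ L),
    (∀ c, D'.x (X c) = ∑ d, b'.repr (b d) c • D.x (X d)) →
    (∀ c, D'.d (X c) = ∑ d, b.repr (b' c) d • D.d (X d)) →
    ∀ a : Matrix ι ι ℂ, (∀ v ∈ V, a * v - v * a ∈ V) → field b' D' a = field b D a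

/-! ## D. Equivariance -/

/-- BRK (120).  The vector fields of block matrices.
Proof.  (1) `[G a b, G c d]` from the commutators `[x_c ∂_d, x_c' ∂_d']` (`WMod.comm`, commuting `x`, commuting `d`):
for linear vector fields `X_S = ∑ S_(c' c) x_c ∂_c'` one has `[X_S, X_T] = - X_([S, T])`; `x ↦ [a, x]` composed:
`[ad a, ad b] = ad [a, b]`.  (Any direct proof is fine.) -/
def S_BRK : Prop :=
  ∀ (ι : Type) [Fintype ι] [DecidableEq ι] (e : ι → ℝ) (L : Type) [AddCommGroup L] [Module ℂ L]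
    (D : DM.WMod (DM.Co e) L) (a b : Matrix ι ι ℂ), IsBlk e a → IsBlk e b →
    fld D a * fld D b - fld D b * fld D a = - fld D (a * b - b * a)

/-- RK1 (60, uses CEN).  Primitive idempotents of the algebra of block matrices have rank one.
Proof.  Let `a p q ≠ 0` (so `e p = e q`), `x = E_qp` (a block matrix): `a x a = c a` reads
`a i q * a p j = c * a i j`; `i = p`, `j = q`: `c = a p q ≠ 0`.  So `a i j = a i q a p j / a p q`.  From `a * a = a`:
`∑ j, a p j a j q = a p q`; so some `j = i` has `a p i ≠ 0` and `a i q ≠ 0`; `v = (a j q / a i q)_j`,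
`f = (a p j a i q / a p q)_j`. -/
def S_RK1 : Prop :=
  ∀ (W : Type) [Group W] [TopologicalSpace W] (N : Nrm W) (ι : Type) [Fintype ι] [DecidableEq ι] (e : ι → ℝ)
    (a : Matrix ι ι ℂ), IsPrim (AA (dgm N e)) a → a ≠ 0 →
    ∃ (v f : ι → ℂ) (i : ι), a = Matrix.vecMulVec v f ∧ v i = 1 ∧ ∑ j, f j * v j = 1 ∧
      (∀ j, v j ≠ 0 → e j = e i) ∧ (∀ j, f j ≠ 0 → e j = e i)

/-- DG1 (60).  Proof.  For `u` with `G u = n u` put `u' = ∑ k < K, c_k N^k u`, `c_0 = 1`, `c_k = - c_(k-1) / (c k)`: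
`(G + N) u' = n u'`.  So `u ∈ u' + span (N u, N² u, ...)`; induction on the order of nilpotency of `N` at `u`
(`N^k u` is an eigenvector of `G` with the eigenvalue `n + c k`). -/
def S_DG1 : Prop :=
  ∀ (L : Type) [AddCommGroup L] [Module ℂ L] (G N : Module.End ℂ L) (c : ℤ), c ≠ 0 → DiagZ G → DM.LocNil N →
    G * N - N * G = (c : ℂ) • N → DiagZ (G + N)

/-- DG2 (80).  Proof.  `E u = ∑ k < K, (k!)⁻¹ M^k u` for any `K` with `M^K u = 0`; `A E u = E B u`: from
`[M, [M, [M, B]]] = 0` one has `M^k B = B M^k + k [M, B] M^(k-1) + (k (k-1) / 2) [M, [M, B]] M^(k-2)`.  So `E` maps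
eigenvectors of `B` to eigenvectors of `A`; `E` is onto: `u = E (E⁻ u)` with `-M`, or by induction on the order of
nilpotency, `u - E u` being a combination of `M u, M² u, ...`.  -/
def S_DG2 : Prop :=
  ∀ (L : Type) [AddCommGroup L] [Module ℂ L] (B M : Module.End ℂ L), DiagZ B → DM.LocNil M →
    (M * (M * (M * B - B * M) - (M * B - B * M) * M) - (M * (M * B - B * M) - (M * B - B * M) * M) * M = 0) →
    DiagZ (B + (M * B - B * M) + (1 / 2 : ℂ) • (M * (M * B - B * M) - (M * B - B * M) * M))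

/-- DG3 (80).  Proof.  Let `(G + N) u = m u` and `u = ∑ u_n`, `G u_n = n u_n` (finitely many `n`); `N u_n` is an
eigenvector with the eigenvalue `n + c`, so `(m - n) u_n = N u_(n - c)` for all `n` (eigenvectors with different
eigenvalues are independent).  So `N^k u_n` is a multiple of `u_(n + k c)`, up to the first `k` with `m = n + k c`,
`N^(k + 1) u_n = N u_(n + k c) = (m - n - (k + 1) c) u_...`: in all cases `N^k u_n = (∏_{j ≤ k} (m - n - c j)) u_(n + c k)`,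
which is `0` for large `k`. -/
def S_DG3 : Prop :=
  ∀ (L : Type) [AddCommGroup L] [Module ℂ L] (G N : Module.End ℂ L) (c : ℤ), c ≠ 0 → DiagZ G → DiagZ (G + N) →
    G * N - N * G = (c : ℂ) • N → DM.LocNil N

/-- COM (30).  Proof: `(a + b)^(i + j)` for commuting `a`, `b`; induction on the finite set. -/
def S_COM : Prop :=
  ∀ (L : Type) [AddCommGroup L] [Module ℂ L] (κ : Type) (s : Finset κ) (f : κ → Module.End ℂ L) (c : κ → ℂ),
    (∀ i ∈ s, ∀ j ∈ s, f i * f j = f j * f i) → (∀ i ∈ s, DM.LocNil (f i)) → DM.LocNil (∑ i ∈ s, c i • f i)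

/-- EQ1 (150, uses BRK, RK1, DG1, DG2, COM).
Proof.  `a = 0` is trivial.  Let `a = v fᵀ`, `v i = 1` (RK1), `m = ∑ j ≠ i, v j E_ji`, `n = ∑ j ≠ i, f j E_ij` (block
matrices), `b = E_ii + n`.  `m² = 0`, `(1 + m) b (1 - m) = v fᵀ`: `b = e_i f'ᵀ` with `f' j = f j`, `j ≠ i`, and
`f' i = 1 = ∑ f j v j`, that is `f'ᵀ = fᵀ (1 + m)`, `(1 + m) e_i = v`.  So
`a = b + [m, b] + (1/2) [m, [m, b]]` and `[m, [m, [m, b]]] = 0`.
`fld b = G i i + fld n` is `DiagZ` by DG1: `[G i i, fld n] = - fld [E_ii, n] = - fld n` (BRK), `fld n` is a sum of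
commuting locally nilpotent operators (BRK: `[E_ij, E_ik] = 0` for `j, k ≠ i`; COM).  With `M = - fld m`:
`[M, fld y] = fld [m, y]` (BRK); DG2. -/
def S_EQ1 : Prop :=
  ∀ (W : Type) [Group W] [TopologicalSpace W] (N : Nrm W) (ι : Type) [Fintype ι] [DecidableEq ι] (e : ι → ℝ)
    (L : Type) [AddCommGroup L] [Module ℂ L] (D : DM.WMod (DM.Co e) L), D.Equivariant →
    ∀ a, IsPrim (AA (dgm N e)) a → DiagZ (fld D a)

/-- EQ2 (80, uses CEN, BRK, DG3).  Proof.  `E_aa` is primitive, `fld E_aa = G a a`.  For `a ≠ b`, `e a = e b`: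
`E_aa + E_ab` is a primitive idempotent, `G = G a a`, `N = G a b`, `[G, N] = - N` (BRK); DG3. -/
def S_EQ2 : Prop :=
  ∀ (W : Type) [Group W] [TopologicalSpace W] (N : Nrm W) (ι : Type) [Fintype ι] [DecidableEq ι] (e : ι → ℝ)
    (L : Type) [AddCommGroup L] [Module ℂ L] (D : DM.WMod (DM.Co e) L),
    (∀ a, IsPrim (AA (dgm N e)) a → DiagZ (fld D a)) → D.Equivariant

/-! ## E. The dictionary -/

/-- DI1 (120, uses CEN, VVE, BST, FLD, EQ1).  Proof.  `b` from BST.  `crd b '' orbit e ψ = DM.orb e ψ` (orbits are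
contained in `V_λ`), the two conormal bundles are equal (`AA` is the set of the block matrices). -/
def S_DI1 : Prop :=
  ∀ (W : Type) [Group W] [TopologicalSpace W] (N : Nrm W) (ι : Type) [Fintype ι] [DecidableEq ι] (e : ι → ℝ)
    (φ ψ : Par) (Φ Ψ : LParam W ι), (∀ w, lam N Φ w = dgm N e w) → (∀ w, lam N Ψ w = dgm N e w) →
    Orb N Φ = orbit e φ → Orb N Ψ = orbit e ψ → ABVat e φ ψ → InABV N Φ Ψ

/-- DI2 (150, uses CEN, VVE, BST, FLD, FCH, EQ2, LC3).  Proof.  Let `b'` be the basis of `InABV` and `b` the one of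
BST; LC3 with `M c d = b.repr (b' d) c` gives a module in the standard coordinates; then as in DI1. -/
def S_DI2 : Prop :=
  ∀ (W : Type) [Group W] [TopologicalSpace W] (N : Nrm W) (ι : Type) [Fintype ι] [DecidableEq ι] (e : ι → ℝ)
    (φ ψ : Par) (Φ Ψ : LParam W ι), (∀ w, lam N Φ w = dgm N e w) → (∀ w, lam N Ψ w = dgm N e w) →
    Orb N Φ = orbit e φ → Orb N Ψ = orbit e ψ → (orbit e φ).Nonempty → (orbit e ψ).Nonempty →
    InABV N Φ Ψ → ABVat e φ ψ

/-- FIN (100, uses REA, ORB, LRE, REI, TRG, TRA, DI1, DI2).  The final step.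
Proof.  Suppose `DM.Q1` fails for `α, φ, φ', ψ`.  Take `ι, e` from `Geq φ φ'`... (any coordinate system in which the
orbit of `ψ` is not empty, for instance the one of `ABV φ ψ`); by REI, TRG, TRA everything takes place there
(`orbit e φ` is not empty by `ABVat`).  REA gives `Φ, Φ', Ψ`, LRE their lifts, ORB their orbits; `InABV` by DI1, for the
lifts too (`ABVat (eL e α)` by REI and TRA; the orbit of `lift α ψ` there is not empty since it is `Orb` of the lift).
`Q1 N` gives `InABV` for the lifts of `Φ` and `Ψ`, so `ABV (lift α φ) (lift α ψ)` by DI2. -/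
def S_FIN : Prop :=
  (¬ DM.Q1) → ∀ (W : Type) [Group W] [TopologicalSpace W] (N : Nrm W), ¬ Q1 N

end Pool.ABV
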