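import Pool.Agent.Work.MP_c20ce7_st.B_CEN
import Pool.Agent.Work.MP_c20ce7_st.B_VVE
import Pool.Agent.Work.MP_c20ce7_st.B_BST
import Pool.Agent.Work.MP_c20ce7_st.B_SKH
import Pool.Agent.Work.MP_c20ce7_st.B_REP
import Pool.Agent.Work.MP_c20ce7_st.B_SSD
import Pool.Agent.Work.MP_c20ce7_st.B_REA
import Pool.Agent.Work.MP_c20ce7_st.B_ORB
import Pool.Agent.Work.MP_c20ce7_st.B_LFE
import Pool.Agent.Work.MP_c20ce7_st.B_LFX
import Pool.Agent.Work.MP_c20ce7_st.B_DUA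
import Pool.Agent.Work.MP_c20ce7_st.B_LRE
import Pool.Agent.Work.MP_c20ce7_st.B_REI
import Pool.Agent.Work.MP_c20ce7_st.B_TRO
import Pool.Agent.Work.MP_c20ce7_st.B_TRG
import Pool.Agent.Work.MP_c20ce7_st.B_LC1
import Pool.Agent.Work.MP_c20ce7_st.B_LC2
import Pool.Agent.Work.MP_c20ce7_st.B_LC3
import Pool.Agent.Work.MP_c20ce7_st.B_TRA
import Pool.Agent.Work.MP_c20ce7_st.B_FLD
import Pool.Agent.Work.MP_c20ce7_st.B_FCH
import Pool.Agent.Work.MP_c20ce7_st.B_BRK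
import Pool.Agent.Work.MP_c20ce7_st.B_RK1
import Pool.Agent.Work.MP_c20ce7_st.B_DG1
import Pool.Agent.Work.MP_c20ce7_st.B_DG2
import Pool.Agent.Work.MP_c20ce7_st.B_DG3
import Pool.Agent.Work.MP_c20ce7_st.B_COM
import Pool.Agent.Work.MP_c20ce7_st.B_EQ1
import Pool.Agent.Work.MP_c20ce7_st.B_EQ2
import Pool.Agent.Work.MP_c20ce7_st.B_DI1
import Pool.Agent.Work.MP_c20ce7_st.B_DI2
import Pool.Agent.Work.MP_c20ce7_st.B_FIN
import Pool.Agent.Work.MP_c20ce7_st.B_FN2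

/-!
# The question for honest L-parameters: composition of the blocks
-/

set_option autoImplicit false

open Pool.Agent.MPc20ce7

namespace Pool.ABV

theorem a_REP : S_REP := p_REP p_SKH

theorem a_REA : S_REA := p_REA a_REP p_SSD

theorem a_BST : S_BST := p_BST p_VVE

theorem a_LC3 : S_LC3 := p_LC3 p_LC1 p_LC2

theorem a_FLD : S_FLD := p_FLD p_VVE

theorem a_EQ1 : S_EQ1 := p_EQ1 p_BRK (p_RK1 p_CEN) p_DG1 p_DG2 p_COM

theorem a_EQ2 : S_EQ2 := p_EQ2 p_CEN p_BRK p_DG3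

theorem a_LRE : S_LRE := p_LRE (p_LFE p_SSD) p_LFX p_DUA

theorem a_TRA : S_TRA := p_TRA p_TRO a_LC3

theorem a_DI1 : S_DI1 := p_DI1 p_CEN p_VVE a_BST a_FLD a_EQ1

theorem a_DI2 : S_DI2 := p_DI2 p_CEN p_VVE a_BST a_FLD p_FCH a_EQ2 a_LC3

/-- If Q1 fails for the parameters `⊕ |.|^s ⊗ S_k` then it fails for every group with a norm. -/
theorem outer (h : ¬ DM.Q1) (W : Type) [Group W] [TopologicalSpace W] (N : Nrm W) : ¬ Q1 N :=
  p_FIN a_REA (p_ORB p_CEN) a_LRE p_REI a_TRA a_DI1 a_DI2 h W N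

/-- The same with explicit data. -/
theorem outer2 (α n : ℕ) (φ φ' ψ : Par) (hn : dim φ = n) (hgeq : Agent.MPc20ce7.Geq φ φ')
    (hABV : DM.ABV φ ψ) (hABV' : DM.ABV φ' ψ) (hL' : DM.ABV (lift α φ') (lift α ψ))
    (hL : ¬ DM.ABV (lift α φ) (lift α ψ)) (W : Type) [Group W] [TopologicalSpace W] (N : Nrm W) :
    Counterexample N (Fin n) α :=
  FN2 a_REA (p_ORB p_CEN) a_LRE p_REI p_TRO (p_TRG p_TRO) a_TRA a_DI1 a_DI2 α n φ φ' ψ hn hgeq hABV hABV' hL'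
    hL W N

end Pool.ABV
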